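import Mathlib
import Pool.Agent.TH881.RK.Defs

/-!
The local theorem near density zero for tuples (job 3814, helper692; adapted from
`Pool/Agent/TH857/J3005.lean`).
-/

set_option autoImplicit false

namespace Pool.Agent.TH692.J3814

open Finset Filter Topology
open Pool.Agent.TH881
open Pool.Agent.TH881.RG
open Pool.Agent.TH881.RQ
open Pool.Agent.TH881.RK
open Pool.Agent.H373R2.T7

lemma card_gk {m : ℕ} (w : ℕ) (a : ZMod (Wp w)) (s : Finset (Fin m → ZMod (Wp w)))
    (hs : ∀ t, t ∈ s ↔ gk t a) : (s.card : ℝ) = (Nat.totient (Wp w) : ℝ) ^ m := by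
  classical
  have h1 : s = Fintype.piFinset (fun _ : Fin m => (UU w).image (fun u => u - a)) := by
    ext t
    rw [hs, Fintype.mem_piFinset]
    unfold gk
    refine forall_congr' fun j => ?_
    rw [mem_image]
    constructor
    · intro h
      exact ⟨_, mem_UU.2 h, by ring⟩
    · rintro ⟨u, hu, h⟩
      rw [mem_UU] at hu
      rw [← h, sub_add_cancel]
      exact hu
  have h2 : ((UU w).image (fun u => u - a)).card = (UU w).card :=
    card_image_of_injective _ (sub_left_injective)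
  rw [h1, Fintype.card_piFinset, prod_const, h2, card_univ, Fintype.card_fin, Nat.cast_pow, card_UU]

lemma one_mem_AA (pr : Bool) (w : ℕ) : (1 : ZMod (Wp w)) ∈ AA pr w := by
  classical
  unfold AA
  rw [mem_filter]
  exact ⟨mem_univ _, fun _ => isUnit_one⟩

lemma Vz_lim : Tendsto (fun N : ℕ => Real.log N * Vz N) atTop
    (𝓝 (Real.exp (-Real.eulerMascheroniConstant))) := by
  refine mert'.congr fun N => ?_
  have h := Gam_mul_Vz N
  have h1 : (0 : ℝ) < Gam 1 N := lt_of_lt_of_le one_pos (one_le_Gam 1 N)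
  rw [div_eq_iff h1.ne', mul_assoc, mul_comm (Vz N), h, mul_one]

lemma exp_lim : Tendsto (fun L : ℝ => Real.exp (-(2 * L / (yy L : ℝ)))) atTop (𝓝 1) := by
  have h1 : Tendsto (fun L : ℝ => 2 * L / (yy L : ℝ)) atTop (𝓝 0) := by
    have hup : Tendsto (fun L : ℝ => 2 * (1 / Real.log L)) atTop (𝓝 (2 * 0)) :=
      inv_log_small.const_mul _
    rw [mul_zero] at hup
    apply tendsto_of_tendsto_of_tendsto_of_le_of_le' tendsto_const_nhds hup
    · filter_upwards [eventually_ge_atTop 0] with L hL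
      positivity
    · filter_upwards [eventually_ge_atTop (Real.exp 1)] with L hL
      have hlog : 1 ≤ Real.log L := by
        rw [Real.le_log_iff_exp_le (lt_of_lt_of_le (Real.exp_pos 1) hL)]
        exact hL
      have hL0 : 0 < L := lt_of_lt_of_le (Real.exp_pos 1) hL
      have h2 : L * Real.log L ≤ yy L := Nat.le_ceil _
      have h3 : 0 < L * Real.log L := by positivity
      rw [div_le_iff₀ (by linarith)]
      calc 2 * L = 2 * (1 / Real.log L) * (L * Real.log L) := by field_simp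
        _ ≤ _ := mul_le_mul_of_nonneg_left h2 (by positivity)
  have h2 := (Real.continuous_exp.tendsto 0).comp (by simpa using h1.neg)
  rw [Real.exp_zero] at h2
  exact h2

/-- the logarithm of `m yy L` -/
lemma log_mul_yy (m : ℕ) (hm : 1 ≤ m) :
    Tendsto (fun L : ℝ => Real.log L / Real.log ((m * yy L : ℕ) : ℝ)) atTop (𝓝 1) := by
  have h1 : Tendsto (fun L : ℝ => Real.log ((m : ℕ) : ℝ) * (1 / Real.log L)) atTop (𝓝 0) := by
    have := inv_log_small.const_mul (Real.log ((m : ℕ) : ℝ))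
    rwa [mul_zero] at this
  have h2 : Tendsto (fun L : ℝ => (Real.log L / Real.log (yy L))⁻¹) atTop (𝓝 1) := by
    have := log_yy.inv₀ one_ne_zero
    rwa [inv_one] at this
  have h3 := (h1.add h2).inv₀ (by norm_num)
  rw [zero_add, inv_one] at h3
  refine h3.congr' ?_
  have hm0 : (0 : ℝ) < m := by exact_mod_cast hm
  filter_upwards [tendsto_yy.eventually_ge_atTop 2, eventually_gt_atTop 1] with L hL hL1
  have h4 : (0 : ℝ) < yy L := by
    have : 0 < yy L := by omega
    exact_mod_cast this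
  have h5 : 0 < Real.log L := Real.log_pos hL1
  have h6 : 0 < Real.log (yy L) := Real.log_pos (by exact_mod_cast (by omega : 1 < yy L))
  rw [Nat.cast_mul, Real.log_mul hm0.ne' h4.ne', inv_div]
  have h7 : 0 ≤ Real.log (m : ℝ) := Real.log_nonneg (by exact_mod_cast hm)
  have h8 : Real.log (m : ℝ) + Real.log (yy L) ≠ 0 := by positivity
  field_simp

lemma F_lim (m : ℕ) (hm : 1 ≤ m) : Tendsto (fun L : ℝ => Real.log L ^ m *
    (Vz (m * yy L) ^ m * Real.exp (-(2 * L / (yy L : ℝ)))))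
    atTop (𝓝 (Real.exp (-(m * Real.eulerMascheroniConstant)))) := by
  have hty : Tendsto (fun L : ℝ => m * yy L) atTop atTop :=
    tendsto_yy.const_mul_atTop' (by omega)
  have h1 := (((Vz_lim.comp hty).mul (log_mul_yy m hm)).pow m).mul exp_lim
  rw [mul_one, mul_one, ← Real.exp_nat_mul] at h1
  have h0 : (m : ℝ) * -Real.eulerMascheroniConstant = -(m * Real.eulerMascheroniConstant) := by ring
  rw [h0] at h1
  refine h1.congr' ?_
  filter_upwards [tendsto_yy.eventually_ge_atTop 2] with L hL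
  have h4 : 1 < m * yy L := by nlinarith
  have h3 : 0 < Real.log ((m * yy L : ℕ) : ℝ) := Real.log_pos (by exact_mod_cast h4)
  rw [Function.comp_apply]
  have h5 : Real.log ((m * yy L : ℕ) : ℝ) * Vz (m * yy L) *
      (Real.log L / Real.log ((m * yy L : ℕ) : ℝ)) = Real.log L * Vz (m * yy L) := by
    field_simp
  rw [h5, mul_pow]
  ring

lemma MMd_nonneg (pr : Bool) (K k w : ℕ) : 0 ≤ MMd (fun p => 1 / (Aq pr p : ℝ)) K k w := by
  unfold MMd
  refine prod_nonneg fun p hp => ?_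
  rw [mem_pz] at hp
  have h2 : (2 : ℝ) ≤ p := by exact_mod_cast hp.2.two_le
  have h3 : 1 ≤ (p : ℝ) / ((p : ℝ) - 1) := by
    rw [le_div_iff₀ (by linarith)]
    linarith
  have h4 : 1 ≤ ((p : ℝ) / ((p : ℝ) - 1)) ^ k := one_le_pow₀ h3
  have h5 : (0 : ℝ) ≤ 1 / (Aq pr p : ℝ) := by positivity
  have h6 : 0 ≤ (K : ℝ) * (1 / (Aq pr p : ℝ)) * (((p : ℝ) / ((p : ℝ) - 1)) ^ k - 1) :=
    mul_nonneg (mul_nonneg (Nat.cast_nonneg _) h5) (by linarith)
  linarith

open Classical in
/-- the number of the `a` in the weight `β`, at `t` -/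
noncomputable def rd (pr : Bool) (m w : ℕ) (β : ZMod (Wp w) → ℝ) (t : Fin m → ZMod (Wp w)) : ℝ :=
  ∑ a ∈ AA pr w, if gk t a then β a else 0

theorem local_zero (pr : Bool) (m : ℕ) (hm : 1 ≤ m) (hMI : StMIdk pr m)
    (hMB : StMBd (fun p => 1 / (Aq pr p : ℝ))) : StZeroK pr m := by
  classical
  intro δ hδ
  have hmr : (0 : ℝ) < m := by exact_mod_cast hm
  set c := Real.exp (-(m * Real.eulerMascheroniConstant)) with hc
  have hc0 : 0 < c := Real.exp_pos _
  have hc1 : c ≤ 1 := by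
    rw [hc, Real.exp_le_one_iff]
    have := Real.one_half_lt_eulerMascheroniConstant
    have : 0 ≤ (m : ℝ) * Real.eulerMascheroniConstant := by positivity
    linarith
  set ε : ℝ := Real.log (1 + δ / 2) / m with hε
  have hε0 : 0 < ε := div_pos (Real.log_pos (by linarith)) hmr
  have hεm : (1 + ε) ^ m ≤ 1 + δ / 2 := by
    have h1 : 1 + ε ≤ Real.exp ε := by
      have := Real.add_one_le_exp ε
      linarith
    calc (1 + ε) ^ m ≤ Real.exp ε ^ m := pow_le_pow_left₀ (by positivity) h1 m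
      _ = Real.exp (m * ε) := (Real.exp_nat_mul ε m).symm
      _ = Real.exp (Real.log (1 + δ / 2)) := by
        congr 1
        rw [hε]
        field_simp
      _ = 1 + δ / 2 := Real.exp_log (by positivity)
  obtain ⟨k0, hk0⟩ := hMB 2 ε hε0
  have hev := (((F_lim m hm).eventually (lt_mem_nhds (show c - δ / 2 < c by linarith))).and
    ((tendsto_yy.eventually_ge_atTop k0).and ((tendsto_yy.eventually_ge_atTop 1).and
      (eventually_ge_atTop (1 : ℝ)))))
  obtain ⟨T0, hT0⟩ := Filter.eventually_atTop.1 hev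
  refine ⟨Real.exp (-T0), Real.exp_pos _, fun β hβ hββ w B hB hcard => ?_⟩
  set T := Real.log (1 / β) with hT
  have hT1 : T0 ≤ T := by
    rw [hT, one_div, Real.log_inv]
    have := Real.log_le_log hβ hββ
    rw [Real.log_exp] at this
    linarith
  obtain ⟨hF, hk0', hk1, hT2⟩ := hT0 T hT1
  set k := yy T with hk
  have hkr : (0 : ℝ) < k := by exact_mod_cast hk1
  have hlogT : 0 ≤ Real.log T := Real.log_nonneg hT2
  have hexpT : Real.exp T = 1 / β := by rw [hT, Real.exp_log (by positivity)]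
  have hWr : (0 : ℝ) < Wp w := by exact_mod_cast Wp_pos w
  have hWm : (0 : ℝ) < (Wp w : ℝ) ^ m := by positivity
  have hV : 0 < Vz w := Vz_pos w
  have hVk : 0 < Vz (m * k) := Vz_pos _
  have hAA : (0 : ℝ) < (AA pr w).card := by
    exact_mod_cast card_pos.2 ⟨1, one_mem_AA pr w⟩
  have hBc : (0 : ℝ) < B.card := lt_of_lt_of_le (by positivity) hcard
  set b : ZMod (Wp w) → ℝ := fun a => if a ∈ B then 1 else 0 with hb
  have hb0 : ∀ a, 0 ≤ b a := by
    intro a
    rw [hb]
    dsimp only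
    split_ifs <;> norm_num
  have hb1 : ∀ a, b a ≤ 1 := by
    intro a
    rw [hb]
    dsimp only
    split_ifs <;> norm_num
  have hbs : ∑ a ∈ AA pr w, b a = B.card := by
    rw [hb, sum_ite_mem, inter_eq_right.2 hB, sum_const, nsmul_eq_mul, mul_one]
  have hS : (B.card : ℝ) * Vz w ^ m = ∑ a ∈ AA pr w, b a * Vz w ^ m := by
    rw [← sum_mul, hbs]
  have hSp : 0 < (B.card : ℝ) * Vz w ^ m := by positivity
  have hMI0 := hMI w 2 k (by norm_num) hk1 b hb0 hb1 _ hS hSp
  have hMI' : (∑ t, rd pr m w b t ^ 2) / (Wp w : ℝ) ^ m ≤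
      ((B.card : ℝ) * Vz w ^ m) ^ 2 * ((((AA pr w).card * Vz w ^ m) / ((B.card : ℝ) * Vz w ^ m)) ^ 2 *
        MMd (fun p => 1 / (Aq pr p : ℝ)) 2 (m * k) w ^ (2 - 1)) ^ (1 / (k : ℝ)) := by
    refine le_trans (le_of_eq ?_) hMI0
    congr 1
  set S := (B.card : ℝ) * Vz w ^ m with hSd
  -- the second factor
  have hratio : ((AA pr w).card * Vz w ^ m) / S ≤ Real.exp T := by
    rw [hSd, mul_div_mul_right _ _ (by positivity), hexpT, div_le_div_iff₀ hBc hβ, one_mul, mul_comm]
    exact hcard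
  have hMM := MMd_nonneg pr 2 (m * k) w
  have hMB' := hk0 (m * k) (le_trans hk0' (Nat.le_mul_of_pos_left k (by omega))) w
  have hMBm : MMd (fun p => 1 / (Aq pr p : ℝ)) 2 (m * k) w ^ (1 / (k : ℝ)) ≤
      ((1 + ε) * (Vz (m * k))⁻¹) ^ m := by
    have h1 : MMd (fun p => 1 / (Aq pr p : ℝ)) 2 (m * k) w ^ (1 / (k : ℝ)) =
        (MMd (fun p => 1 / (Aq pr p : ℝ)) 2 (m * k) w ^ (1 / ((m * k : ℕ) : ℝ))) ^ m := by
      rw [← Real.rpow_natCast, ← Real.rpow_mul hMM]
      congr 1
      push_cast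
      field_simp
    rw [h1]
    exact pow_le_pow_left₀ (Real.rpow_nonneg hMM _) hMB' m
  have hfac : ((((AA pr w).card * Vz w ^ m) / S) ^ 2 *
      MMd (fun p => 1 / (Aq pr p : ℝ)) 2 (m * k) w ^ (2 - 1)) ^ (1 / (k : ℝ)) ≤
      Real.exp (2 * T / k) * ((1 + ε) * (Vz (m * k))⁻¹) ^ m := by
    have h1 : (((AA pr w).card * Vz w ^ m) / S) ^ 2 ≤ Real.exp T ^ 2 :=
      pow_le_pow_left₀ (by positivity) hratio 2
    have h2 : (2 - 1 : ℕ) = 1 := rfl
    rw [h2, pow_one]
    calc ((((AA pr w).card * Vz w ^ m) / S) ^ 2 *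
        MMd (fun p => 1 / (Aq pr p : ℝ)) 2 (m * k) w) ^ (1 / (k : ℝ)) ≤
        (Real.exp T ^ 2 * MMd (fun p => 1 / (Aq pr p : ℝ)) 2 (m * k) w) ^ (1 / (k : ℝ)) := by
          apply Real.rpow_le_rpow (by positivity) _ (by positivity)
          exact mul_le_mul_of_nonneg_right h1 hMM
      _ = (Real.exp T ^ 2) ^ (1 / (k : ℝ)) *
          MMd (fun p => 1 / (Aq pr p : ℝ)) 2 (m * k) w ^ (1 / (k : ℝ)) :=
          Real.mul_rpow (by positivity) hMM
      _ = Real.exp (2 * T / k) * MMd (fun p => 1 / (Aq pr p : ℝ)) 2 (m * k) w ^ (1 / (k : ℝ)) := by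
          congr 1
          rw [← Real.exp_nat_mul, ← Real.exp_mul]
          congr 1
          push_cast
          ring
      _ ≤ _ := mul_le_mul_of_nonneg_left hMBm (Real.exp_pos _).le
  set E := Real.exp (2 * T / k) * ((1 + ε) * (Vz (m * k))⁻¹) ^ m with hE
  have hE0 : 0 < E := by positivity
  -- the first moment
  have hsum : ∑ t, rd pr m w b t = S * (Wp w : ℝ) ^ m := by
    unfold rd
    rw [sum_comm]
    have h1 : ∀ a ∈ AA pr w, ∑ t : Fin m → ZMod (Wp w), (if gk t a then b a else 0) =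
        (Nat.totient (Wp w) : ℝ) ^ m * b a := by
      intro a _
      rw [← sum_filter, sum_const, nsmul_eq_mul, card_gk w a _ (fun t => by simp)]
    rw [sum_congr rfl h1, ← mul_sum, hbs, totient_Wp, hSd]
    ring
  have hzero : ∀ t, t ∉ sumk m w B → rd pr m w b t = 0 := by
    intro t ht
    unfold rd
    refine sum_eq_zero fun a _ => ?_
    split_ifs with h1
    · rw [hb]
      dsimp only
      rw [if_neg]
      intro h2
      apply ht
      unfold sumk
      rw [mem_filter]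
      exact ⟨mem_univ _, a, h2, h1⟩
    · rfl
  have hCS : (∑ t, rd pr m w b t) ^ 2 ≤
      ((sumk m w B).card : ℝ) * ∑ t, rd pr m w b t ^ 2 := by
    have h1 : ∑ t ∈ sumk m w B, rd pr m w b t = ∑ t, rd pr m w b t :=
      sum_subset (subset_univ _) fun t _ ht => hzero t ht
    rw [← h1]
    refine (sq_sum_le_card_mul_sum_sq).trans ?_
    apply mul_le_mul_of_nonneg_left _ (Nat.cast_nonneg _)
    exact sum_le_sum_of_subset_of_nonneg (subset_univ _) (fun t _ _ => sq_nonneg _)
  have hM2 : ∑ t, rd pr m w b t ^ 2 ≤ S ^ 2 * E * (Wp w : ℝ) ^ m := by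
    rw [div_le_iff₀ hWm] at hMI'
    refine hMI'.trans ?_
    apply mul_le_mul_of_nonneg_right _ hWm.le
    exact mul_le_mul_of_nonneg_left hfac (by positivity)
  have hmain : (Wp w : ℝ) ^ m ≤ ((sumk m w B).card : ℝ) * E := by
    have h1 : (S * (Wp w : ℝ) ^ m) ^ 2 ≤
        ((sumk m w B).card : ℝ) * (S ^ 2 * E * (Wp w : ℝ) ^ m) := by
      rw [← hsum]
      exact hCS.trans (mul_le_mul_of_nonneg_left hM2 (Nat.cast_nonneg _))
    have h2 : (S ^ 2 * (Wp w : ℝ) ^ m) * (Wp w : ℝ) ^ m ≤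
        (S ^ 2 * (Wp w : ℝ) ^ m) * (((sumk m w B).card : ℝ) * E) := by
      calc (S ^ 2 * (Wp w : ℝ) ^ m) * (Wp w : ℝ) ^ m = (S * (Wp w : ℝ) ^ m) ^ 2 := by ring
        _ ≤ _ := h1
        _ = _ := by ring
    exact le_of_mul_le_mul_left h2 (by positivity)
  have hfin : 1 / E ≤ ((sumk m w B).card : ℝ) / (Wp w : ℝ) ^ m := by
    rw [div_le_div_iff₀ hE0 hWm, one_mul]
    exact hmain
  have hEinv : 1 / E = (Vz (m * k) ^ m * Real.exp (-(2 * T / (k : ℝ)))) / (1 + ε) ^ m := by
    rw [hE, Real.exp_neg, mul_pow, inv_pow]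
    field_simp
  have h9 : (c - δ / 2) / (1 + ε) ^ m ≤
      Real.log T ^ m * (((sumk m w B).card : ℝ) / (Wp w : ℝ) ^ m) := by
    calc (c - δ / 2) / (1 + ε) ^ m ≤
        (Real.log T ^ m * (Vz (m * k) ^ m * Real.exp (-(2 * T / (k : ℝ))))) / (1 + ε) ^ m :=
          div_le_div_of_nonneg_right hF.le (by positivity)
      _ = Real.log T ^ m * (1 / E) := by rw [hEinv]; ring
      _ ≤ _ := mul_le_mul_of_nonneg_left hfin (by positivity)
  rcases le_or_gt (c - δ / 2) 0 with h10 | h10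
  · have h11 : 0 ≤ Real.log T ^ m * (((sumk m w B).card : ℝ) / (Wp w : ℝ) ^ m) := by positivity
    linarith
  · refine le_trans ?_ h9
    rw [le_div_iff₀ (by positivity)]
    rcases le_or_gt (c - δ) 0 with h12 | h12
    · have h13 : (c - δ) * (1 + ε) ^ m ≤ 0 :=
        mul_nonpos_of_nonpos_of_nonneg h12 (by positivity)
      linarith
    · have h14 := mul_le_mul_of_nonneg_left hεm h12.le
      nlinarith

end Pool.Agent.TH692.J3814
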