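import Mathlib
import Pool.Agent.TH881.RK.DefsH2

/-! HF-6 (job 5138, helper692 for helper881): the explicit lower bound by induction over the primes -/

set_option autoImplicit false

namespace Pool.Agent.TH692.J5138

open Finset Filter Topology
open Pool.Agent.TH881
open Pool.Agent.TH881.RG
open Pool.Agent.TH881.RQ
open Pool.Agent.H373R2.T7
open Pool.Agent.TH881.RK

section gen

open Classical in
/-- the units -/
noncomputable def UR (R : Type) [CommRing R] [Fintype R] : Finset R := univ.filter (fun a => IsUnit a)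

open Classical in
/-- the vectors which are hit by `B` -/
noncomputable def hitR (m : ℕ) (R : Type) [CommRing R] [Fintype R] (B : Finset R) :
    Finset (Fin m → R) := univ.filter (fun t => ∃ a ∈ B, ∀ j, IsUnit (t j + a))

lemma mem_UR {R : Type} [CommRing R] [Fintype R] {a : R} : a ∈ UR R ↔ IsUnit a := by
  classical
  unfold UR
  rw [mem_filter]
  exact ⟨fun h => h.2, fun h => ⟨mem_univ _, h⟩⟩

lemma mem_hitR {m : ℕ} {R : Type} [CommRing R] [Fintype R] {B : Finset R} {t : Fin m → R} :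
    t ∈ hitR m R B ↔ ∃ a ∈ B, ∀ j, IsUnit (t j + a) := by
  classical
  unfold hitR
  rw [mem_filter]
  exact ⟨fun h => h.2, fun h => ⟨mem_univ _, h⟩⟩

/-- the inequality for a ring -/
def PR (m : ℕ) (α : ℝ) (R : Type) [CommRing R] [Fintype R] : Prop := ∀ B ⊆ UR R,
  ((hitR m R (UR R)).card : ℝ) * ((B.card : ℝ) / (UR R).card) ^ α ≤ ((hitR m R B).card : ℝ)

lemma UR_pos (R : Type) [CommRing R] [Fintype R] : 0 < (UR R).card :=
  card_pos.2 ⟨1, mem_UR.2 isUnit_one⟩

lemma ok_pos (m : ℕ) (R : Type) [CommRing R] [Fintype R] : 0 < (hitR m R (UR R)).card :=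
  card_pos.2 ⟨fun _ => 0, mem_hitR.2 ⟨1, mem_UR.2 isUnit_one, fun _ => by rw [zero_add]; exact isUnit_one⟩⟩

lemma PR_sub {m : ℕ} {α : ℝ} (hα : 0 < α) {R : Type} [CommRing R] [Fintype R] [Subsingleton R] :
    PR m α R := by
  intro B hB
  rcases B.eq_empty_or_nonempty with h | ⟨b, hb⟩
  · subst h
    rw [card_empty, Nat.cast_zero, zero_div, Real.zero_rpow hα.ne', mul_zero]
    positivity
  · have h1 : B = UR R := by
      apply subset_antisymm hB
      intro a _
      rwa [Subsingleton.elim a b]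
    rw [h1]
    have h2 : (0 : ℝ) < (UR R).card := by exact_mod_cast UR_pos R
    rw [div_self h2.ne', Real.one_rpow, mul_one]

lemma PR_equiv {m : ℕ} {α : ℝ} {R S : Type} [CommRing R] [Fintype R] [CommRing S] [Fintype S]
    (e : R ≃+* S) (h : PR m α R) : PR m α S := by
  intro B hB
  have hu : ∀ a : R, IsUnit (e a) ↔ IsUnit a := fun a => MulEquiv.isUnit_map e
  have hU : (UR S).map e.symm.toEquiv.toEmbedding = UR R := by
    ext a
    rw [mem_map_equiv, mem_UR, mem_UR]
    exact hu a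
  have hhit : ∀ C : Finset S, (hitR m R (C.map e.symm.toEquiv.toEmbedding)).card = (hitR m S C).card := by
    intro C
    apply Finset.card_equiv (Equiv.arrowCongr (Equiv.refl (Fin m)) e.toEquiv)
    intro t
    rw [mem_hitR, mem_hitR]
    constructor
    · rintro ⟨a, ha, h1⟩
      rw [mem_map_equiv] at ha
      refine ⟨e a, ha, fun j => ?_⟩
      have h2 := (hu (t j + a)).2 (h1 j)
      rw [map_add] at h2
      exact h2
    · rintro ⟨b, hb, h1⟩
      refine ⟨e.symm b, ?_, fun j => ?_⟩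
      · rw [mem_map_equiv]
        have : e.symm.toEquiv.symm (e.symm b) = b := e.apply_symm_apply b
        rwa [this]
      · rw [← hu, map_add, e.apply_symm_apply]
        exact h1 j
  have h1 := h (B.map e.symm.toEquiv.toEmbedding) (by
    rw [← hU]
    exact map_subset_map.2 hB)
  rw [card_map, hhit] at h1
  have h2 : (UR R).card = (UR S).card := by rw [← hU, card_map]
  have h3 : (hitR m R (UR R)).card = (hitR m S (UR S)).card := by rw [← hU, hhit]
  rw [h2, h3] at h1
  exact h1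

lemma step {m : ℕ} {α : ℝ} (hα0 : 0 < α) (hα1 : α ≤ 1) (hL : StLor) {R : Type} [CommRing R]
    [Fintype R] (p : ℕ) [NeZero p] (hp : p.Prime) (hQ : ∀ L ⊆ Un p,
      (Qn m p (Un p) : ℝ) * ((L.card : ℝ) / (Un p).card) ^ α ≤ Qn m p L) (hR : PR m α R) :
    PR m α (R × ZMod p) := by
  classical
  intro B hB
  haveI : Fact p.Prime := ⟨hp⟩
  have hUp : (Un p).card = Fintype.card {y : ZMod p // y ≠ 0} := by
    rw [Fintype.card_subtype]
    unfold Un
    congr 1
  haveI : Nonempty {y : ZMod p // y ≠ 0} := ⟨⟨1, one_ne_zero⟩⟩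
  have hYpos : (0 : ℝ) < Fintype.card {y : ZMod p // y ≠ 0} := by exact_mod_cast Fintype.card_pos
  have hUR : (0 : ℝ) < (UR R).card := by exact_mod_cast UR_pos R
  have hok : (0 : ℝ) < (hitR m R (UR R)).card := by exact_mod_cast ok_pos m R
  have h1 : ∀ L : Finset {y : ZMod p // y ≠ 0}, (Qn m p (Un p) : ℝ) *
      ((L.card : ℝ) / Fintype.card {y : ZMod p // y ≠ 0}) ^ α ≤
      ((univ.filter (fun x : Fin m → ZMod p => ∃ y ∈ L, ∀ j, x j + y.1 ≠ 0)).card : ℝ) := by
    intro L
    have h2 := hQ (L.map (Function.Embedding.subtype _)) (by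
      intro b hb
      rw [Finset.mem_map] at hb
      obtain ⟨y, _, rfl⟩ := hb
      unfold Un
      rw [mem_filter]
      exact ⟨mem_univ _, y.2⟩)
    rw [card_map, hUp] at h2
    refine h2.trans (le_of_eq ?_)
    unfold Qn
    congr 2
    ext x
    rw [mem_filter, mem_filter]
    constructor
    · rintro ⟨_, b, hb, h3⟩
      rw [Finset.mem_map] at hb
      obtain ⟨y, hy, rfl⟩ := hb
      exact ⟨mem_univ _, y, hy, h3⟩
    · rintro ⟨_, y, hy, h3⟩
      exact ⟨mem_univ _, y.1, Finset.mem_map.2 ⟨y, hy, rfl⟩, h3⟩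
  -- the fibres
  obtain ⟨f, hf⟩ : ∃ f : {y : ZMod p // y ≠ 0} → ℝ, f = fun y =>
    ((B.filter (fun b => b.2 = y.1)).card : ℝ) / (UR R).card := ⟨_, rfl⟩
  obtain ⟨M, hM⟩ : ∃ M : (Fin m → ZMod p) → ℝ, M = fun x =>
    (((hitR m (R × ZMod p) B).filter (fun t => (fun j => (t j).2) = x)).card : ℝ) /
      (hitR m R (UR R)).card := ⟨_, rfl⟩
  have hf0 : ∀ y, 0 ≤ f y := by
    intro y
    rw [hf]
    positivity
  have hM0 : ∀ x, 0 ≤ M x := by
    intro x
    rw [hM]
    positivity
  have h2 : ∀ (x : Fin m → ZMod p) (y : {y : ZMod p // y ≠ 0}), (∀ j, x j + y.1 ≠ 0) →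
      f y ^ α ≤ M x := by
    intro x y hxy
    obtain ⟨C, hC⟩ : ∃ C : Finset R, C = (B.filter (fun b => b.2 = y.1)).image Prod.fst := ⟨_, rfl⟩
    have hCc : C.card = (B.filter (fun b => b.2 = y.1)).card := by
      rw [hC]
      apply card_image_of_injOn
      intro a ha b hb hab
      rw [mem_coe, mem_filter] at ha hb
      exact Prod.ext hab (ha.2.trans hb.2.symm)
    have hmem : ∀ a ∈ C, (a, y.1) ∈ B := by
      intro a ha
      rw [hC, mem_image] at ha
      obtain ⟨b, hb, rfl⟩ := ha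
      rw [mem_filter] at hb
      rw [← hb.2]
      exact hb.1
    have h3 := hR C (by
      intro a ha
      have h4 := mem_UR.1 (hB (hmem a ha))
      rw [Prod.isUnit_iff] at h4
      exact mem_UR.2 h4.1)
    have h4 : (hitR m R C).card ≤
        ((hitR m (R × ZMod p) B).filter (fun t => (fun j => (t j).2) = x)).card := by
      apply card_le_card_of_injOn (fun (t : Fin m → R) (j : Fin m) => (t j, x j))
      · intro t ht
        rw [mem_coe, mem_hitR] at ht
        obtain ⟨a, ha, h5⟩ := ht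
        rw [mem_coe, mem_filter, mem_hitR]
        refine ⟨⟨(a, y.1), hmem a ha, fun j => ?_⟩, rfl⟩
        rw [Prod.isUnit_iff]
        exact ⟨h5 j, isUnit_iff_ne_zero.2 (hxy j)⟩
      · intro t _ t' _ htt
        funext j
        have := congrFun htt j
        exact (Prod.mk.inj this).1
    have h5 : f y = (C.card : ℝ) / (UR R).card := by
      rw [hf, hCc]
    rw [hM]
    simp only
    rw [le_div_iff₀ hok, h5, mul_comm]
    refine h3.trans ?_
    exact_mod_cast h4
  have h3 := hL (Fin m → ZMod p) {y : ZMod p // y ≠ 0} (fun x y => ∀ j, x j + y.1 ≠ 0) α hα0 hα1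
    (Qn m p (Un p) : ℝ) (by
      intro L
      convert h1 L) f hf0 M hM0 h2
  -- the sums
  have hsumM : ∑ x, M x = ((hitR m (R × ZMod p) B).card : ℝ) / (hitR m R (UR R)).card := by
    rw [hM, ← sum_div]
    congr 1
    have := card_eq_sum_card_fiberwise (s := hitR m (R × ZMod p) B) (t := univ)
      (f := fun t => (fun j => (t j).2)) (fun _ _ => mem_coe.2 (mem_univ _))
    exact_mod_cast this.symm
  have hsumf : ∑ y, f y = (B.card : ℝ) / (UR R).card := by
    rw [hf, ← sum_div]
    congr 1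
    have h4 := card_eq_sum_card_fiberwise (s := B) (t := Un p) (f := fun b => b.2) (by
      intro b hb
      have h5 := mem_UR.1 (hB (mem_coe.1 hb))
      rw [Prod.isUnit_iff] at h5
      rw [mem_coe]
      unfold Un
      rw [mem_filter]
      exact ⟨mem_univ _, h5.2.ne_zero⟩)
    have h5 : ∑ y : {y : ZMod p // y ≠ 0}, (B.filter (fun b => b.2 = y.1)).card =
        ∑ y ∈ Un p, (B.filter (fun b => b.2 = y)).card := by
      symm
      apply Finset.sum_subtype
      intro x
      unfold Un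
      rw [mem_filter]
      exact ⟨fun h => h.2, fun h => ⟨mem_univ _, h⟩⟩
    rw [h4, ← h5]
    push_cast
    rfl
  have hcardU : (UR (R × ZMod p)).card = (UR R).card * Fintype.card {y : ZMod p // y ≠ 0} := by
    rw [← hUp, ← card_product]
    congr 1
    ext ⟨a, b⟩
    rw [mem_UR, Prod.isUnit_iff, mem_product, mem_UR]
    unfold Un
    rw [mem_filter]
    constructor
    · rintro ⟨h4, h5⟩
      exact ⟨h4, mem_univ _, h5.ne_zero⟩
    · rintro ⟨h4, _, h5⟩
      exact ⟨h4, isUnit_iff_ne_zero.2 h5⟩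
  have hcardok : (hitR m (R × ZMod p) (UR (R × ZMod p))).card =
      (hitR m R (UR R)).card * Qn m p (Un p) := by
    unfold Qn
    rw [← card_product]
    apply Finset.card_equiv (Equiv.arrowProdEquivProdArrow (Fin m) (fun _ => R) (fun _ => ZMod p))
    intro t
    rw [mem_hitR, mem_product, mem_hitR, mem_filter]
    constructor
    · rintro ⟨a, ha, h4⟩
      rw [mem_UR, Prod.isUnit_iff] at ha
      refine ⟨⟨a.1, mem_UR.2 ha.1, fun j => ((Prod.isUnit_iff).1 (h4 j)).1⟩, mem_univ _, a.2, ?_,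
        fun j => (((Prod.isUnit_iff).1 (h4 j)).2).ne_zero⟩
      unfold Un
      rw [mem_filter]
      exact ⟨mem_univ _, ha.2.ne_zero⟩
    · rintro ⟨⟨a, ha, h4⟩, _, b, hb, h5⟩
      unfold Un at hb
      rw [mem_filter] at hb
      refine ⟨(a, b), mem_UR.2 ?_, fun j => ?_⟩
      · rw [Prod.isUnit_iff]
        exact ⟨mem_UR.1 ha, isUnit_iff_ne_zero.2 hb.2⟩
      · rw [Prod.isUnit_iff]
        exact ⟨h4 j, isUnit_iff_ne_zero.2 (h5 j)⟩
  rw [hsumM, hsumf, le_div_iff₀ hok] at h3
  rw [hcardok, hcardU]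
  push_cast
  rw [← div_div]
  refine le_trans (le_of_eq ?_) h3
  ring

end gen

/-- products of primes -/
lemma prod_case {m : ℕ} {α : ℝ} (hα0 : 0 < α) (hα1 : α ≤ 1) (hL : StLor)
    (hQ : ∀ (p : ℕ) [NeZero p], p.Prime → ∀ L ⊆ Un p,
      (Qn m p (Un p) : ℝ) * ((L.card : ℝ) / (Un p).card) ^ α ≤ Qn m p L) (s : Finset ℕ) :
    (∀ p ∈ s, p.Prime) → ∀ (n : ℕ) [NeZero n], n = ∏ p ∈ s, p → PR m α (ZMod n) := by
  classical
  induction s using Finset.induction_on with
  | empty =>
    intro _ n _ hn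
    rw [prod_empty] at hn
    subst hn
    exact PR_sub hα0
  | insert p s hps ih =>
    intro hs n _ hn
    rw [prod_insert hps] at hn
    have hp := hs p (mem_insert_self _ _)
    have hs' : ∀ q ∈ s, q.Prime := fun q hq => hs q (mem_insert_of_mem hq)
    obtain ⟨k, hk⟩ : ∃ k : ℕ, k = ∏ q ∈ s, q := ⟨_, rfl⟩
    rw [← hk, mul_comm] at hn
    have hk0 : k ≠ 0 := by
      rw [hk]
      exact prod_ne_zero_iff.2 fun q hq => (hs' q hq).ne_zero
    haveI : NeZero k := ⟨hk0⟩
    haveI : NeZero p := ⟨hp.ne_zero⟩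
    have hcop : Nat.Coprime k p := by
      rw [hk]
      apply Nat.Coprime.prod_left
      intro q hq
      apply (Nat.coprime_primes (hs' q hq) hp).2
      rintro rfl
      exact hps hq
    subst hn
    exact PR_equiv (ZMod.chineseRemainder hcop).symm (step hα0 hα1 hL p hp (hQ p hp) (ih hs' k hk))

theorem stHLow_of (m : ℕ) (hm : 1 ≤ m) (hQ : StQn m) (hL : StLor) : StHLow m := by
  classical
  intro w B hB
  have hhalf : (1 / 2 : ℝ) ^ m ≤ 1 / 2 := by
    calc (1 / 2 : ℝ) ^ m ≤ (1 / 2) ^ 1 := pow_le_pow_of_le_one (by norm_num) (by norm_num) hm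
      _ = 1 / 2 := pow_one _
  have hhalf0 : (0 : ℝ) < (1 / 2) ^ m := by positivity
  have hα0 : 0 < alp m := by
    unfold alp
    apply Real.logb_pos (by norm_num)
    linarith
  have hα1 : alp m ≤ 1 := by
    unfold alp
    rw [Real.logb_le_iff_le_rpow (by norm_num) (by linarith), Real.rpow_one]
    linarith
  have h1 : PR m (alp m) (ZMod (Wp w)) := prod_case hα0 hα1 hL hQ (pz w)
    (fun p hp => (mem_pz.1 hp).2) (Wp w) rfl
  have hAA : AA true w = UR (ZMod (Wp w)) := by
    ext a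
    unfold AA
    rw [mem_filter, mem_UR]
    exact ⟨fun h => h.2 rfl, fun h => ⟨mem_univ _, fun _ => h⟩⟩
  have hsum : ∀ C : Finset (ZMod (Wp w)), sumk m w C = hitR m (ZMod (Wp w)) C := by
    intro C
    ext t
    rw [mem_sumk', mem_hitR]
    rfl
  have hokk : okk true m w = hitR m (ZMod (Wp w)) (UR (ZMod (Wp w))) := by
    rw [← hsum, ← hAA]
    ext t
    rw [mem_okk, mem_sumk']
    have hA : (0 : ℝ) < (AA true w).card := by
      rw [hAA]
      exact_mod_cast UR_pos _
    unfold wk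
    rw [Ne, div_eq_zero_iff, not_or]
    constructor
    · rintro ⟨h2, _⟩
      have h3 : ((AA true w).filter (fun a => gk t a)).card ≠ 0 := by exact_mod_cast h2
      obtain ⟨a, ha⟩ := card_pos.1 (Nat.pos_of_ne_zero h3)
      rw [mem_filter] at ha
      exact ⟨a, ha.1, ha.2⟩
    · rintro ⟨a, ha, h2⟩
      refine ⟨?_, hA.ne'⟩
      have h3 : 0 < ((AA true w).filter (fun a => gk t a)).card :=
        card_pos.2 ⟨a, mem_filter.2 ⟨ha, h2⟩⟩
      exact_mod_cast h3.ne'
  rw [hokk, hsum, hAA]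
  apply h1
  rw [← hAA]
  exact hB

end Pool.Agent.TH692.J5138
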