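import Pool.Agent.TH692.HTP

set_option autoImplicit false
set_option linter.unusedSectionVars false

/-!
# Two facets of small degree are never close (job 3934, helper692)
-/

namespace Pool.Agent.TH692.J3934

open Finset
open scoped Classical
open Pool.Agent.TH965.Spread Pool.Agent.TH948.KK Pool.Agent.TH948.BD Pool.Agent.TH948.HT
open Pool.Agent.TH692.HTP

variable {n k : ℕ}

/-- the edges which contain `f`, but not `g`, and are not in `P` -/
noncomputable def A (n k : ℕ) (P : Finset (Finset (Fin n))) (f g : Finset (Fin n)) :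
    Finset (Finset (Fin n)) :=
  ((Nf n k f).filter (fun e => ¬ g ⊆ e)) \ P

lemma card_A (hk : 1 ≤ k) {P : Finset (Finset (Fin n))} {f g : Finset (Fin n)}
    (hf : f ∈ facets n k) (hg : g ∈ facets n k) (hfg : f ≠ g) (hP : P.card ≤ 4) :
    n - k - 4 ≤ (A n k P f g).card := by
  unfold A
  have h1 := le_card_sdiff P ((Nf n k f).filter (fun e => ¬ g ⊆ e))
  have h2 := card_filter_add_card_filter_not (s := Nf n k f) (fun e => g ⊆ e)
  have h3 : ((Nf n k f).filter (fun e => g ⊆ e)).card ≤ 1 := by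
    have h4 : (Nf n k f).filter (fun e => g ⊆ e) = (edges n k).filter (fun e => f ⊆ e ∧ g ⊆ e) := by
      unfold Nf
      rw [filter_filter]
    rw [h4]
    exact card_two hk hf hg hfg
  have h5 := card_Nf (n := n) hk hf
  omega

lemma data_bound (hk : 1 ≤ k) {a b : ℝ} (ha0 : 0 ≤ a) (ha1 : a ≤ 1) (hb0 : 0 ≤ b) (hb1 : b ≤ 1)
    {P : Finset (Finset (Fin n))} (hPs : P ⊆ edges n k) (hP : P.card ≤ 4)
    {f g : Finset (Fin n)} (hf : f ∈ facets n k) (hg : g ∈ facets n k) (hfg : f ≠ g) (t : ℝ) :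
    E2 (edges n k) a b (fun W U => ind (P ⊆ W ∪ U ∧ (deg W f : ℝ) < t ∧ (deg W g : ℝ) < t)) ≤
      (a + b - a * b) ^ P.card *
        (Real.exp (6 * t) * Real.exp (-(a * (1 - Real.exp (-3)) * (2 * ((n - k - 4 : ℕ) : ℝ))))) := by
  set q : ℝ := Real.exp (-3) with hq
  have hq0 : 0 < q := Real.exp_pos _
  have hq1 : q ≤ 1 := Real.exp_le_one_iff.2 (by norm_num)
  set B := A n k P f g ∪ A n k P g f with hB
  have hdisj : Disjoint (A n k P f g) (A n k P g f) := by
    rw [disjoint_left]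
    intro e h1 h2
    unfold A at h1 h2
    rw [mem_sdiff, mem_filter] at h1 h2
    unfold Nf at h2
    rw [mem_filter] at h2
    exact h1.1.2 h2.1.1.2
  have hBcard : 2 * (n - k - 4) ≤ B.card := by
    rw [hB, card_union_of_disjoint hdisj]
    have h1 := card_A (n := n) hk hf hg hfg hP
    have h2 := card_A (n := n) hk hg hf hfg.symm hP
    omega
  have hAs : ∀ f g : Finset (Fin n), A n k P f g ⊆ edges n k := by
    intro f g e he
    unfold A Nf at he
    rw [mem_sdiff, mem_filter, mem_filter] at he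
    exact he.1.1.1
  have hBs : B ⊆ edges n k := union_subset (hAs f g) (hAs g f)
  have hBP : Disjoint P B := by
    rw [disjoint_left]
    intro e h1 h2
    rw [hB, mem_union] at h2
    unfold A at h2
    rw [mem_sdiff, mem_sdiff] at h2
    rcases h2 with h2 | h2
    · exact h2.2 h1
    · exact h2.2 h1
  set φ : Finset (Fin n) → Bool → Bool → ℝ := fun x w u =>
    (if x ∈ P then (if w = true ∨ u = true then 1 else 0) else 1) *
      (if x ∈ B then (if w = true then q else 1) else 1) with hφ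
  have hpt : ∀ W ⊆ edges n k, ∀ U ⊆ edges n k,
      ind (P ⊆ W ∪ U ∧ (deg W f : ℝ) < t ∧ (deg W g : ℝ) < t) ≤
        Real.exp (6 * t) * ∏ x ∈ edges n k, φ x (decide (x ∈ W)) (decide (x ∈ U)) := by
    intro W hW U _
    have hφ0 : ∀ x w u, 0 ≤ φ x w u := by
      intro x w u
      simp only [hφ]
      apply mul_nonneg
      · split_ifs <;> norm_num
      · split_ifs
        · exact hq0.le
        · norm_num
        · norm_num
    by_cases h : P ⊆ W ∪ U ∧ (deg W f : ℝ) < t ∧ (deg W g : ℝ) < t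
    · obtain ⟨h1, h2, h3⟩ := h
      rw [ind_true ⟨h1, h2, h3⟩]
      have e1 : ∏ x ∈ edges n k, φ x (decide (x ∈ W)) (decide (x ∈ U)) =
          q ^ ((edges n k).filter (fun x => x ∈ B ∧ x ∈ W)).card := by
        have e2 : ∀ x ∈ edges n k, φ x (decide (x ∈ W)) (decide (x ∈ U)) =
            if x ∈ B ∧ x ∈ W then q else 1 := by
          intro x _
          simp only [hφ, decide_eq_true_eq]
          have e3 : (if x ∈ P then (if x ∈ W ∨ x ∈ U then (1:ℝ) else 0) else 1) = 1 := by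
            by_cases hx : x ∈ P
            · rw [if_pos hx, if_pos (mem_union.1 (h1 hx))]
            · rw [if_neg hx]
          rw [e3, one_mul]
          by_cases hx : x ∈ B
          · by_cases hxW : x ∈ W
            · rw [if_pos hx, if_pos hxW, if_pos ⟨hx, hxW⟩]
            · rw [if_pos hx, if_neg hxW, if_neg (fun h => hxW h.2)]
          · rw [if_neg hx, if_neg (fun h => hx h.1)]
        rw [prod_congr rfl e2, prod_ite, prod_const, prod_const_one, mul_one]
      have e4 : (edges n k).filter (fun x => x ∈ B ∧ x ∈ W) ⊆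
          (W.filter (fun e => f ⊆ e)) ∪ (W.filter (fun e => g ⊆ e)) := by
        intro x hx
        rw [mem_filter] at hx
        rw [mem_union, mem_filter, mem_filter]
        have hxB := hx.2.1
        rw [hB, mem_union] at hxB
        unfold A Nf at hxB
        rw [mem_sdiff, mem_sdiff, mem_filter, mem_filter, mem_filter, mem_filter] at hxB
        rcases hxB with h | h
        · exact Or.inl ⟨hx.2.2, h.1.1.2⟩
        · exact Or.inr ⟨hx.2.2, h.1.1.2⟩
      have e5 : (((edges n k).filter (fun x => x ∈ B ∧ x ∈ W)).card : ℝ) ≤ 2 * t := by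
        have e6 := (card_le_card e4).trans (card_union_le _ _)
        have e7 : (((edges n k).filter (fun x => x ∈ B ∧ x ∈ W)).card : ℝ) ≤
            (deg W f : ℝ) + (deg W g : ℝ) := by
          unfold deg
          exact_mod_cast e6
        linarith
      rw [e1, hq, ← Real.exp_nat_mul, ← Real.exp_add]
      apply Real.one_le_exp
      linarith
    · rw [ind_false h]
      exact mul_nonneg (Real.exp_pos _).le (prod_nonneg fun x _ => hφ0 _ _ _)
  refine (E2_mono _ ha0 ha1 hb0 hb1 hpt).trans ?_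
  rw [E2_mul_left, E2_prod]
  have hc : ∀ x ∈ edges n k, ((1 - a) * ((1 - b) * φ x false false + b * φ x false true) +
        a * ((1 - b) * φ x true false + b * φ x true true)) =
      (if x ∈ P then (a + b - a * b) else 1) * (if x ∈ B then (1 - a + a * q) else 1) := by
    intro x _
    simp only [hφ]
    by_cases hx : x ∈ P
    · have hxB : x ∉ B := disjoint_left.1 hBP hx
      simp only [if_pos hx, if_neg hxB]
      norm_num
      ring
    · by_cases hxB : x ∈ B
      · simp only [if_neg hx, if_pos hxB, if_pos rfl, if_true, Bool.false_eq_true, if_false]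
        ring
      · simp only [if_neg hx, if_neg hxB]
        ring
  rw [prod_congr rfl hc, prod_mul_distrib]
  have hP1 : ∏ x ∈ edges n k, (if x ∈ P then (a + b - a * b) else 1) = (a + b - a * b) ^ P.card := by
    rw [prod_ite_mem, inter_eq_right.2 hPs, prod_const]
  have hB1 : ∏ x ∈ edges n k, (if x ∈ B then (1 - a + a * q) else 1) = (1 - a + a * q) ^ B.card := by
    rw [prod_ite_mem, inter_eq_right.2 hBs, prod_const]
  rw [hP1, hB1]
  have hab : 0 ≤ a + b - a * b := by nlinarith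
  have h1 : 0 ≤ 1 - a + a * q := by nlinarith
  have h2 : 1 - a + a * q ≤ Real.exp (-(a * (1 - q))) := by
    have := Real.add_one_le_exp (-(a * (1 - q)))
    linarith
  have h3 : (1 - a + a * q) ^ B.card ≤ Real.exp (-(a * (1 - q) * (2 * ((n - k - 4 : ℕ) : ℝ)))) := by
    calc (1 - a + a * q) ^ B.card ≤ Real.exp (-(a * (1 - q))) ^ B.card :=
          pow_le_pow_left₀ h1 h2 _
      _ = Real.exp (B.card * -(a * (1 - q))) := (Real.exp_nat_mul _ _).symm
      _ ≤ _ := by
        apply Real.exp_le_exp.2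
        have h4 : (2 * ((n - k - 4 : ℕ) : ℝ)) ≤ B.card := by exact_mod_cast hBcard
        have h5 : 0 ≤ a * (1 - q) := mul_nonneg ha0 (by linarith)
        nlinarith
  calc Real.exp (6 * t) * ((a + b - a * b) ^ P.card * (1 - a + a * q) ^ B.card)
      = (a + b - a * b) ^ P.card * (Real.exp (6 * t) * (1 - a + a * q) ^ B.card) := by ring
    _ ≤ _ := by
      apply mul_le_mul_of_nonneg_left _ (pow_nonneg hab _)
      exact mul_le_mul_of_nonneg_left h3 (Real.exp_pos _).le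

lemma step {Y : Type*} [DecidableEq Y] (N P : Finset Y) {p T : ℝ} (hp0 : 0 ≤ p) (hp1 : p ≤ 1)
    (hT : (P.card : ℝ) + N.card * p ≤ T) :
    ∑ e ∈ N, p ^ (insert e P).card ≤ T * p ^ P.card := by
  have h1 : ∑ e ∈ N, p ^ (insert e P).card = ∑ e ∈ N.filter (fun e => e ∈ P), p ^ P.card +
      ∑ e ∈ N.filter (fun e => ¬ e ∈ P), p ^ (P.card + 1) := by
    rw [← sum_filter_add_sum_filter_not N (fun e => e ∈ P)]
    congr 1
    · apply sum_congr rfl
      intro e he
      rw [mem_filter] at he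
      rw [insert_eq_of_mem he.2]
    · apply sum_congr rfl
      intro e he
      rw [mem_filter] at he
      rw [card_insert_of_notMem he.2]
  rw [h1, sum_const, sum_const, nsmul_eq_mul, nsmul_eq_mul]
  have h2 : ((N.filter (fun e => e ∈ P)).card : ℝ) ≤ P.card := by
    have : (N.filter (fun e => e ∈ P)).card ≤ P.card :=
      card_le_card fun e he => (mem_filter.1 he).2
    exact_mod_cast this
  have h3 : ((N.filter (fun e => ¬ e ∈ P)).card : ℝ) ≤ N.card := by
    exact_mod_cast card_filter_le _ _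
  have hpp : 0 ≤ p ^ P.card := pow_nonneg hp0 _
  calc ((N.filter (fun e => e ∈ P)).card : ℝ) * p ^ P.card +
        ((N.filter (fun e => ¬ e ∈ P)).card : ℝ) * p ^ (P.card + 1)
      ≤ P.card * p ^ P.card + N.card * p ^ (P.card + 1) :=
        add_le_add (mul_le_mul_of_nonneg_right h2 hpp)
          (mul_le_mul_of_nonneg_right h3 (pow_nonneg hp0 _))
    _ = (P.card + N.card * p) * p ^ P.card := by rw [pow_succ]; ring
    _ ≤ T * p ^ P.card := mul_le_mul_of_nonneg_right hT hpp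

/-- the facets of `e` other than `f` -/
noncomputable def Fo (k : ℕ) (f e : Finset (Fin n)) : Finset (Finset (Fin n)) :=
  (e.powersetCard (k - 1)).filter (fun f' => f ≠ f')

/-- the event for given data -/
def Ev (f e1 e2 e3 e4 f' : Finset (Fin n)) (t : ℝ) (W U : Finset (Finset (Fin n))) : Prop :=
  insert e4 (insert e3 (insert e2 ({e1} : Finset (Finset (Fin n))))) ⊆ W ∪ U ∧
    (deg W f : ℝ) < t ∧ (deg W f' : ℝ) < t

lemma ind_le_nested (W U : Finset (Finset (Fin n))) (hW : W ⊆ edges n k) (hU : U ⊆ edges n k) :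
    ind (¬ Q2 k (1 / 20) W (W ∪ U)) ≤ ∑ f ∈ facets n k, ∑ e1 ∈ Nf n k f, ∑ e2 ∈ Nb n k e1,
      ∑ e3 ∈ Nb n k e2, ∑ e4 ∈ Nb n k e3, ∑ f' ∈ Fo k f e4,
        ind (Ev f e1 e2 e3 e4 f' (1 / 20 * Real.log n) W U) := by
  have n0 : ∀ f e1 e2 e3 e4 f' : Finset (Fin n), 0 ≤ ind (Ev f e1 e2 e3 e4 f' (1 / 20 * Real.log n) W U) :=
    fun _ _ _ _ _ _ => ind_nonneg _
  have n1 : ∀ f e1 e2 e3 e4 : Finset (Fin n), 0 ≤ ∑ f' ∈ Fo k f e4,
      ind (Ev f e1 e2 e3 e4 f' (1 / 20 * Real.log n) W U) :=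
    fun _ _ _ _ _ => sum_nonneg fun _ _ => n0 _ _ _ _ _ _
  have n2 : ∀ f e1 e2 e3 : Finset (Fin n), 0 ≤ ∑ e4 ∈ Nb n k e3, ∑ f' ∈ Fo k f e4,
      ind (Ev f e1 e2 e3 e4 f' (1 / 20 * Real.log n) W U) :=
    fun _ _ _ _ => sum_nonneg fun _ _ => n1 _ _ _ _ _
  have n3 : ∀ f e1 e2 : Finset (Fin n), 0 ≤ ∑ e3 ∈ Nb n k e2, ∑ e4 ∈ Nb n k e3, ∑ f' ∈ Fo k f e4,
      ind (Ev f e1 e2 e3 e4 f' (1 / 20 * Real.log n) W U) :=
    fun _ _ _ => sum_nonneg fun _ _ => n2 _ _ _ _
  have n4 : ∀ f e1 : Finset (Fin n), 0 ≤ ∑ e2 ∈ Nb n k e1, ∑ e3 ∈ Nb n k e2, ∑ e4 ∈ Nb n k e3,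
      ∑ f' ∈ Fo k f e4, ind (Ev f e1 e2 e3 e4 f' (1 / 20 * Real.log n) W U) :=
    fun _ _ => sum_nonneg fun _ _ => n3 _ _ _
  have n5 : ∀ f : Finset (Fin n), 0 ≤ ∑ e1 ∈ Nf n k f, ∑ e2 ∈ Nb n k e1, ∑ e3 ∈ Nb n k e2,
      ∑ e4 ∈ Nb n k e3, ∑ f' ∈ Fo k f e4,
        ind (Ev f e1 e2 e3 e4 f' (1 / 20 * Real.log n) W U) :=
    fun _ => sum_nonneg fun _ _ => n4 _ _
  by_cases h : Q2 k (1 / 20) W (W ∪ U)
  · rw [ind_false (not_not.2 h)]
    exact sum_nonneg fun _ _ => n5 _
  · rw [ind_true h]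
    unfold Q2 at h
    push Not at h
    obtain ⟨f, hf, f', hf', hd, hd', e1, he1, e2, he2, e3, he3, e4, he4, hfe, h12, h23, h34, hfe4,
      hne⟩ := h
    have hWU : W ∪ U ⊆ edges n k := union_subset hW hU
    have m1 : e1 ∈ Nf n k f := mem_filter.2 ⟨hWU he1, hfe⟩
    have m2 : e2 ∈ Nb n k e1 := mem_filter.2 ⟨hWU he2, h12⟩
    have m3 : e3 ∈ Nb n k e2 := mem_filter.2 ⟨hWU he3, h23⟩
    have m4 : e4 ∈ Nb n k e3 := mem_filter.2 ⟨hWU he4, h34⟩
    have m5 : f' ∈ Fo k f e4 := mem_filter.2 ⟨mem_powersetCard.2 ⟨hfe4, mem_facets.1 hf'⟩, hne⟩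
    have hEv : Ev f e1 e2 e3 e4 f' (1 / 20 * Real.log n) W U := by
      refine ⟨?_, hd, hd'⟩
      intro x hx
      rw [mem_insert, mem_insert, mem_insert, mem_singleton] at hx
      rcases hx with rfl | rfl | rfl | rfl
      · exact he4
      · exact he3
      · exact he2
      · exact he1
    calc (1 : ℝ) = ind (Ev f e1 e2 e3 e4 f' (1 / 20 * Real.log n) W U) := (ind_true hEv).symm
      _ ≤ _ := single_le_sum (f := fun f' => ind (Ev f e1 e2 e3 e4 f' (1 / 20 * Real.log n) W U))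
        (fun _ _ => n0 _ _ _ _ _ _) m5
      _ ≤ _ := single_le_sum (f := fun e4 => ∑ f' ∈ Fo k f e4,
        ind (Ev f e1 e2 e3 e4 f' (1 / 20 * Real.log n) W U)) (fun _ _ => n1 _ _ _ _ _) m4
      _ ≤ _ := single_le_sum (f := fun e3 => ∑ e4 ∈ Nb n k e3, ∑ f' ∈ Fo k f e4,
        ind (Ev f e1 e2 e3 e4 f' (1 / 20 * Real.log n) W U)) (fun _ _ => n2 _ _ _ _) m3
      _ ≤ _ := single_le_sum (f := fun e2 => ∑ e3 ∈ Nb n k e2, ∑ e4 ∈ Nb n k e3, ∑ f' ∈ Fo k f e4,
        ind (Ev f e1 e2 e3 e4 f' (1 / 20 * Real.log n) W U)) (fun _ _ => n3 _ _ _) m2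
      _ ≤ _ := single_le_sum (f := fun e1 => ∑ e2 ∈ Nb n k e1, ∑ e3 ∈ Nb n k e2, ∑ e4 ∈ Nb n k e3,
        ∑ f' ∈ Fo k f e4, ind (Ev f e1 e2 e3 e4 f' (1 / 20 * Real.log n) W U))
        (fun _ _ => n4 _ _) m1
      _ ≤ _ := single_le_sum (f := fun f => ∑ e1 ∈ Nf n k f, ∑ e2 ∈ Nb n k e1, ∑ e3 ∈ Nb n k e2,
        ∑ e4 ∈ Nb n k e3, ∑ f' ∈ Fo k f e4,
        ind (Ev f e1 e2 e3 e4 f' (1 / 20 * Real.log n) W U)) (fun _ _ => n5 _) hf

/-- the union bound -/
lemma union_bound (hk : 1 ≤ k) {a b p M : ℝ} (ha0 : 0 ≤ a) (ha1 : a ≤ 1) (hb0 : 0 ≤ b)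
    (hb1 : b ≤ 1) (hab : a + b - a * b = p) (hp0 : 0 ≤ p) (hp1 : p ≤ 1)
    (hM : M = Real.exp (6 * (1 / 20 * Real.log n)) *
      Real.exp (-(a * (1 - Real.exp (-3)) * (2 * ((n - k - 4 : ℕ) : ℝ))))) :
    E2 (edges n k) a b (fun W U => ind (¬ Q2 k (1 / 20) W (W ∪ U))) ≤
      (n : ℝ) ^ (k - 1) * (n * p) * (4 + k * n * p) ^ 3 * k * M := by
  have hM0 : 0 ≤ M := by rw [hM]; positivity
  refine (E2_mono _ ha0 ha1 hb0 hb1 fun W hW U hU => ind_le_nested W U hW hU).trans ?_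
  simp only [E2_sum]
  set T : ℝ := 4 + k * n * p with hT
  have hknp : 0 ≤ (k : ℝ) * n * p := by positivity
  have hT0 : 0 ≤ T := by linarith
  have hNb : ∀ e ∈ edges n k, ∀ P : Finset (Finset (Fin n)), P.card ≤ 4 →
      (P.card : ℝ) + (Nb n k e).card * p ≤ T := by
    intro e he P hP
    have h1 : ((Nb n k e).card : ℝ) ≤ k * n := by exact_mod_cast card_Nb hk he
    have h2 : (P.card : ℝ) ≤ 4 := by exact_mod_cast hP
    have h3 := mul_le_mul_of_nonneg_right h1 hp0
    linarith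
  have hNbe : ∀ {e e' : Finset (Fin n)}, e' ∈ Nb n k e → e' ∈ edges n k := fun h => (mem_filter.1 h).1
  -- the innermost sum
  have s6 : ∀ f ∈ facets n k, ∀ e1 ∈ Nf n k f, ∀ e2 ∈ Nb n k e1, ∀ e3 ∈ Nb n k e2,
      ∀ e4 ∈ Nb n k e3, ∑ f' ∈ Fo k f e4, E2 (edges n k) a b (fun W U =>
        ind (Ev f e1 e2 e3 e4 f' (1 / 20 * Real.log n) W U)) ≤
      k * M * p ^ (insert e4 (insert e3 (insert e2 ({e1} : Finset (Finset (Fin n)))))).card := by
    intro f hf e1 he1 e2 he2 e3 he3 e4 he4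
    set P := insert e4 (insert e3 (insert e2 ({e1} : Finset (Finset (Fin n))))) with hP
    have hPs : P ⊆ edges n k := by
      intro x hx
      rw [hP, mem_insert, mem_insert, mem_insert, mem_singleton] at hx
      rcases hx with rfl | rfl | rfl | rfl
      · exact hNbe he4
      · exact hNbe he3
      · exact hNbe he2
      · exact (mem_filter.1 he1).1
    have hPc : P.card ≤ 4 := card_le_four
    have h1 : ∀ f' ∈ Fo k f e4, E2 (edges n k) a b (fun W U =>
        ind (Ev f e1 e2 e3 e4 f' (1 / 20 * Real.log n) W U)) ≤ p ^ P.card * M := by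
      intro f' hf'
      have hf'2 := mem_filter.1 hf'
      have hf'3 : f' ∈ facets n k := mem_facets.2 (mem_powersetCard.1 hf'2.1).2
      have := data_bound hk ha0 ha1 hb0 hb1 hPs hPc hf hf'3 hf'2.2 (1 / 20 * Real.log n)
      rw [hab, ← hM] at this
      exact this
    refine (sum_le_sum h1).trans ?_
    rw [sum_const, nsmul_eq_mul]
    have h2 : ((Fo k f e4).card : ℝ) ≤ k := by
      have : (Fo k f e4).card ≤ k :=
        (card_le_card (filter_subset _ _)).trans (le_of_eq (card_Fc hk (hNbe he4)))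
      exact_mod_cast this
    calc ((Fo k f e4).card : ℝ) * (p ^ P.card * M) ≤ k * (p ^ P.card * M) :=
          mul_le_mul_of_nonneg_right h2 (mul_nonneg (pow_nonneg hp0 _) hM0)
      _ = _ := by ring
  have s5 : ∀ f ∈ facets n k, ∀ e1 ∈ Nf n k f, ∀ e2 ∈ Nb n k e1, ∀ e3 ∈ Nb n k e2,
      ∑ e4 ∈ Nb n k e3, ∑ f' ∈ Fo k f e4, E2 (edges n k) a b (fun W U =>
        ind (Ev f e1 e2 e3 e4 f' (1 / 20 * Real.log n) W U)) ≤
      k * M * T * p ^ (insert e3 (insert e2 ({e1} : Finset (Finset (Fin n))))).card := by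
    intro f hf e1 he1 e2 he2 e3 he3
    refine (sum_le_sum (s6 f hf e1 he1 e2 he2 e3 he3)).trans ?_
    rw [← mul_sum, mul_assoc (k * M)]
    apply mul_le_mul_of_nonneg_left _ (by positivity)
    exact step _ _ hp0 hp1 (hNb e3 (hNbe he3) _ (card_le_three.trans (by norm_num)))
  have s4 : ∀ f ∈ facets n k, ∀ e1 ∈ Nf n k f, ∀ e2 ∈ Nb n k e1,
      ∑ e3 ∈ Nb n k e2, ∑ e4 ∈ Nb n k e3, ∑ f' ∈ Fo k f e4, E2 (edges n k) a b (fun W U =>
        ind (Ev f e1 e2 e3 e4 f' (1 / 20 * Real.log n) W U)) ≤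
      k * M * T * T * p ^ (insert e2 ({e1} : Finset (Finset (Fin n)))).card := by
    intro f hf e1 he1 e2 he2
    refine (sum_le_sum (s5 f hf e1 he1 e2 he2)).trans ?_
    rw [← mul_sum, mul_assoc (k * M * T)]
    apply mul_le_mul_of_nonneg_left _ (by positivity)
    exact step _ _ hp0 hp1 (hNb e2 (hNbe he2) _ (card_le_two.trans (by norm_num)))
  have s3 : ∀ f ∈ facets n k, ∀ e1 ∈ Nf n k f, ∑ e2 ∈ Nb n k e1,
      ∑ e3 ∈ Nb n k e2, ∑ e4 ∈ Nb n k e3, ∑ f' ∈ Fo k f e4, E2 (edges n k) a b (fun W U =>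
        ind (Ev f e1 e2 e3 e4 f' (1 / 20 * Real.log n) W U)) ≤
      k * M * T * T * T * p := by
    intro f hf e1 he1
    refine (sum_le_sum (s4 f hf e1 he1)).trans ?_
    rw [← mul_sum, mul_assoc (k * M * T * T)]
    apply mul_le_mul_of_nonneg_left _ (by positivity)
    have h1 := step (Nb n k e1) ({e1} : Finset (Finset (Fin n))) hp0 hp1
      (hNb e1 (mem_filter.1 he1).1 _ (by rw [card_singleton]; norm_num))
    rw [card_singleton, pow_one] at h1
    exact h1
  have s2 : ∀ f ∈ facets n k, ∑ e1 ∈ Nf n k f, ∑ e2 ∈ Nb n k e1,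
      ∑ e3 ∈ Nb n k e2, ∑ e4 ∈ Nb n k e3, ∑ f' ∈ Fo k f e4, E2 (edges n k) a b (fun W U =>
        ind (Ev f e1 e2 e3 e4 f' (1 / 20 * Real.log n) W U)) ≤
      n * (k * M * T * T * T * p) := by
    intro f hf
    refine (sum_le_sum (s3 f hf)).trans ?_
    rw [sum_const, nsmul_eq_mul]
    apply mul_le_mul_of_nonneg_right _ (by positivity)
    have : (Nf n k f).card ≤ n := by
      rw [card_Nf hk hf]
      omega
    exact_mod_cast this
  refine (sum_le_sum s2).trans ?_
  rw [sum_const, nsmul_eq_mul]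
  have h1 : ((facets n k).card : ℝ) ≤ (n : ℝ) ^ (k - 1) := by exact_mod_cast card_facets_le
  calc ((facets n k).card : ℝ) * (n * (k * M * T * T * T * p)) ≤
      (n : ℝ) ^ (k - 1) * (n * (k * M * T * T * T * p)) :=
        mul_le_mul_of_nonneg_right h1 (by positivity)
    _ = _ := by ring

end Pool.Agent.TH692.J3934

namespace Pool.Agent.TH948.HT

open Finset
open scoped Classical
open Pool.Agent.TH965.Spread Pool.Agent.TH948.KK Pool.Agent.TH948.BD

theorem prob_Q2 {k : ℕ} (hk : 2 ≤ k) (δ : ℝ) (h0 : 0 < δ) (h1 : δ ≤ 1 / 8) :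
    Filter.Tendsto (fun n : ℕ => exs (edges n k) (pm k δ n) (fun W =>
      exs (edges n k) (bb k δ n) (fun U => ind (¬ Q2 k (1 / 20) W (W ∪ U)))))
      Filter.atTop (nhds 0) := by
  have hkr : (2 : ℝ) ≤ k := by exact_mod_cast hk
  set D : ℝ := 2 * k * (4 + 2 * (k : ℝ) * k) ^ 3 * k with hD
  have hup := Pool.Agent.TH692.HTP.log_pow_lim 4 (3 / 10) (by norm_num) D
  refine tendsto_of_tendsto_of_tendsto_of_le_of_le' tendsto_const_nhds hup ?_ ?_
  · filter_upwards [Pool.Agent.TH692.HTP.dens k hk δ h0 h1] with n hn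
    obtain ⟨p1, p2, p3, p4, -, -, -⟩ := hn
    exact Pool.Agent.TH692.HTP.E2_nonneg (edges n k) p1 p2 p3 p4 fun W _ U _ => ind_nonneg _
  · filter_upwards [Pool.Agent.TH692.HTP.dens k hk δ h0 h1, Filter.eventually_ge_atTop 3,
      Filter.eventually_ge_atTop (100 * (k + 4))] with n hn hn3 hnk
    obtain ⟨p1, p2, p3, p4, p5, p6, p7⟩ := hn
    have hb := Pool.Agent.TH692.J3934.union_bound (n := n) (k := k) (by omega) p1 p2 p3 p4 p5 p6 p7
      rfl
    refine (le_of_eq rfl).trans (hb.trans ?_)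
    have hn0 : (0 : ℝ) < n := by exact_mod_cast (by omega : 0 < n)
    set L := Real.log n with hL
    have hL1 : 1 ≤ L := by
      rw [hL, Real.le_log_iff_exp_le hn0]
      have h3 : (3 : ℝ) ≤ n := by exact_mod_cast hn3
      have := Real.exp_one_lt_d9
      linarith
    have hL0 : 0 < L := by linarith
    have hnp : (n : ℝ) * pp k δ n = (1 + δ) * (((k : ℝ) - 1) * L) := by
      unfold pp
      field_simp
      rw [← hL]
    have hnp1 : (n : ℝ) * pp k δ n ≤ 2 * k * L := by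
      rw [hnp]
      have e1 : (1 + δ) * (((k : ℝ) - 1) * L) ≤ 2 * (((k : ℝ) - 1) * L) :=
        mul_le_mul_of_nonneg_right (by linarith) (mul_nonneg (by linarith) hL0.le)
      nlinarith
    have hnp0 : 0 ≤ (n : ℝ) * pp k δ n := by positivity
    have hT : 4 + (k : ℝ) * n * pp k δ n ≤ (4 + 2 * (k : ℝ) * k) * L := by
      have e1 : (k : ℝ) * n * pp k δ n ≤ k * (2 * k * L) := by
        rw [mul_assoc]
        exact mul_le_mul_of_nonneg_left hnp1 (by linarith)
      nlinarith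
    have hT0 : 0 ≤ 4 + (k : ℝ) * n * pp k δ n := by positivity
    -- the exponent
    have hpow : (n : ℝ) ^ (k - 1) = Real.exp (((k : ℝ) - 1) * L) := by
      have e1 : ((k - 1 : ℕ) : ℝ) = (k : ℝ) - 1 := by
        rw [Nat.cast_sub (by omega), Nat.cast_one]
      rw [← e1, Real.exp_nat_mul, hL, Real.exp_log hn0]
    have hq : Real.exp (-3) ≤ 1 / 20 := by
      have e1 : (2.7 : ℝ) ≤ Real.exp 1 := by
        have := Real.exp_one_gt_d9
        linarith
      have e2 : Real.exp 3 = Real.exp 1 ^ 3 := by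
        rw [← Real.exp_nat_mul]
        norm_num
      have e3 : (19.6 : ℝ) ≤ Real.exp 3 := by
        rw [e2]
        calc (19.6 : ℝ) ≤ 2.7 ^ 3 := by norm_num
          _ ≤ _ := pow_le_pow_left₀ (by norm_num) e1 3
      have e4 : (2.718 : ℝ) ≤ Real.exp 1 := by
        have := Real.exp_one_gt_d9
        linarith
      have e5 : (20 : ℝ) ≤ Real.exp 3 := by
        rw [e2]
        calc (20 : ℝ) ≤ 2.718 ^ 3 := by norm_num
          _ ≤ _ := pow_le_pow_left₀ (by norm_num) e4 3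
      rw [Real.exp_neg, one_div]
      exact inv_anti₀ (by norm_num) e5
    have hexp : ((k : ℝ) - 1) * L + 6 * (1 / 20 * L) +
        -(pm k δ n * (1 - Real.exp (-3)) * (2 * ((n - k - 4 : ℕ) : ℝ))) ≤ -(3 / 10 * L) := by
      have c1 : ((n - k - 4 : ℕ) : ℝ) = (n : ℝ) - k - 4 := by
        rw [Nat.cast_sub (by omega), Nat.cast_sub (by omega)]
        norm_num
      have c2 : (99 / 100 : ℝ) * n ≤ (n : ℝ) - k - 4 := by
        have : (100 : ℝ) * (k + 4) ≤ n := by exact_mod_cast hnk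
        linarith
      have c3 : pm k δ n * n = (1 - δ) * (((k : ℝ) - 1) * L) := by
        unfold pm
        field_simp
        rw [← hL]
      have c4 : (7 / 8 : ℝ) * (((k : ℝ) - 1) * L) ≤ pm k δ n * n := by
        rw [c3]
        exact mul_le_mul_of_nonneg_right (by linarith) (mul_nonneg (by linarith) hL0.le)
      have c5 : (19 / 20 : ℝ) ≤ 1 - Real.exp (-3) := by linarith
      have c6 : (7 / 8 : ℝ) * (((k : ℝ) - 1) * L) * (99 / 100) ≤
          pm k δ n * ((n - k - 4 : ℕ) : ℝ) := by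
        rw [c1]
        calc (7 / 8 : ℝ) * (((k : ℝ) - 1) * L) * (99 / 100) ≤ pm k δ n * n * (99 / 100) :=
              mul_le_mul_of_nonneg_right c4 (by norm_num)
          _ = pm k δ n * (99 / 100 * n) := by ring
          _ ≤ _ := mul_le_mul_of_nonneg_left c2 p1
      have c7 : (7 / 8 : ℝ) * (((k : ℝ) - 1) * L) * (99 / 100) * (19 / 20) ≤
          pm k δ n * ((n - k - 4 : ℕ) : ℝ) * (1 - Real.exp (-3)) := by
        apply mul_le_mul c6 c5 (by norm_num)
        exact mul_nonneg p1 (Nat.cast_nonneg _)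
      have c8 : L ≤ ((k : ℝ) - 1) * L := by nlinarith
      nlinarith
    have hX : (n : ℝ) ^ (k - 1) * (Real.exp (6 * (1 / 20 * L)) *
        Real.exp (-(pm k δ n * (1 - Real.exp (-3)) * (2 * ((n - k - 4 : ℕ) : ℝ))))) ≤
        Real.exp (-(3 / 10 * L)) := by
      rw [hpow, ← Real.exp_add, ← Real.exp_add]
      apply Real.exp_le_exp.2
      linarith
    have hY : (n * pp k δ n) * (4 + k * n * pp k δ n) ^ 3 * k ≤ D * L ^ 4 := by
      have e1 : (4 + (k : ℝ) * n * pp k δ n) ^ 3 ≤ ((4 + 2 * (k : ℝ) * k) * L) ^ 3 :=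
        pow_le_pow_left₀ hT0 hT 3
      calc (n * pp k δ n) * (4 + k * n * pp k δ n) ^ 3 * k ≤
          (2 * k * L) * ((4 + 2 * (k : ℝ) * k) * L) ^ 3 * k := by
            apply mul_le_mul_of_nonneg_right _ (by linarith)
            exact mul_le_mul hnp1 e1 (pow_nonneg hT0 3) (by positivity)
        _ = D * L ^ 4 := by rw [hD]; ring
    calc (n : ℝ) ^ (k - 1) * (n * pp k δ n) * (4 + k * n * pp k δ n) ^ 3 * k *
          (Real.exp (6 * (1 / 20 * L)) *
            Real.exp (-(pm k δ n * (1 - Real.exp (-3)) * (2 * ((n - k - 4 : ℕ) : ℝ)))))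
        = ((n * pp k δ n) * (4 + k * n * pp k δ n) ^ 3 * k) * ((n : ℝ) ^ (k - 1) *
          (Real.exp (6 * (1 / 20 * L)) *
            Real.exp (-(pm k δ n * (1 - Real.exp (-3)) * (2 * ((n - k - 4 : ℕ) : ℝ)))))) := by ring
      _ ≤ (D * L ^ 4) * Real.exp (-(3 / 10 * L)) := by
        apply mul_le_mul hY hX (by positivity)
        positivity

end Pool.Agent.TH948.HT
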