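import Pool.Agent.TH692.HTP

set_option autoImplicit false
set_option linter.unusedSectionVars false

/-!
# Few atypical neighbours (job 3935, helper692)
-/

namespace Pool.Agent.TH692.J3935

open Finset
open scoped Classical
open Pool.Agent.TH965.Spread Pool.Agent.TH948.KK Pool.Agent.TH948.BD Pool.Agent.TH948.HT
open Pool.Agent.TH692.HTP

variable {n k : ℕ}

/-- the data: an edge, a facet, a type -/
abbrev Dt (n : ℕ) : Type := (_ : Finset (Fin n)) × (Finset (Fin n) × Bool)

/-- the possible data at `h` -/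
noncomputable def Dh (n k : ℕ) (h : Finset (Fin n)) : Finset (Dt n) :=
  (Nf n k h).sigma (fun e => ((e.powersetCard (k - 1)).filter (fun g => g ≠ h)) ×ˢ
    (univ : Finset Bool))

lemma mem_Dh {h : Finset (Fin n)} {x : Dt n} : x ∈ Dh n k h ↔
    (x.1 ∈ edges n k ∧ h ⊆ x.1) ∧ (x.2.1 ⊆ x.1 ∧ x.2.1.card = k - 1) ∧ x.2.1 ≠ h := by
  unfold Dh Nf
  rw [mem_sigma, mem_filter, mem_product, mem_filter, mem_powersetCard]
  simp only [mem_univ, and_true]

lemma card_Dh (hk : 1 ≤ k) {h : Finset (Fin n)} (hh : h ∈ facets n k) :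
    (Dh n k h).card ≤ 2 * k * n := by
  unfold Dh
  rw [card_sigma]
  have h1 : ∀ e ∈ Nf n k h, (((e.powersetCard (k - 1)).filter (fun g => g ≠ h)) ×ˢ
      (univ : Finset Bool)).card ≤ k * 2 := by
    intro e he
    rw [card_product, card_univ, Fintype.card_bool]
    apply Nat.mul_le_mul_right
    exact (card_le_card (filter_subset _ _)).trans (le_of_eq (card_Fc hk (mem_filter.1 he).1))
  refine (sum_le_sum h1).trans ?_
  rw [sum_const, smul_eq_mul, card_Nf hk hh]
  have h2 : n - (k - 1) ≤ n := Nat.sub_le _ _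
  calc (n - (k - 1)) * (k * 2) ≤ n * (k * 2) := Nat.mul_le_mul_right _ h2
    _ = 2 * k * n := by ring

/-- the datum occurs -/
def Occ (t₁ t₂ : ℝ) (W U : Finset (Finset (Fin n))) (x : Dt n) : Prop :=
  x.1 ∈ W ∪ U ∧ (x.2.2 = true → (deg W x.2.1 : ℝ) < t₁) ∧
    (¬ x.2.2 = true → t₂ < (deg (W ∪ U) x.2.1 : ℝ))

/-- the sets of data -/
noncomputable def Ts (n k m : ℕ) (h : Finset (Fin n)) : Finset (Finset (Dt n)) :=
  ((Dh n k h).powersetCard m).filter (fun T => Set.InjOn Sigma.fst (T : Set (Dt n)))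

lemma ind_le (δ' : ℝ) (K : ℕ) (W U : Finset (Finset (Fin n))) (hW : W ⊆ edges n k)
    (hU : U ⊆ edges n k) :
    ind (¬ Q3 k δ' K W (W ∪ U)) ≤ ∑ h ∈ facets n k, ∑ T ∈ Ts n k (K + 1) h,
      ind (∀ x ∈ T, Occ ((1 - δ') * (((k : ℝ) - 1) * Real.log n))
        ((1 + δ') * (((k : ℝ) - 1) * Real.log n)) W U x) := by
  set t₁ := (1 - δ') * (((k : ℝ) - 1) * Real.log n)
  set t₂ := (1 + δ') * (((k : ℝ) - 1) * Real.log n)
  have n1 : ∀ T : Finset (Dt n), 0 ≤ ind (∀ x ∈ T, Occ t₁ t₂ W U x) := fun _ => ind_nonneg _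
  have n2 : ∀ h : Finset (Fin n), 0 ≤ ∑ T ∈ Ts n k (K + 1) h, ind (∀ x ∈ T, Occ t₁ t₂ W U x) :=
    fun _ => sum_nonneg fun _ _ => n1 _
  by_cases hQ : Q3 k δ' K W (W ∪ U)
  · rw [ind_false (not_not.2 hQ)]
    exact sum_nonneg fun _ _ => n2 _
  · rw [ind_true hQ]
    unfold Q3 at hQ
    push Not at hQ
    obtain ⟨h, hh, hK⟩ := hQ
    obtain ⟨S, hS, hSc⟩ := exists_subset_card_eq (Nat.succ_le_of_lt hK)
    have hch : ∀ e ∈ S, ∃ y : Finset (Fin n) × Bool, (⟨e, y⟩ : Dt n) ∈ Dh n k h ∧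
        Occ t₁ t₂ W U (⟨e, y⟩ : Dt n) := by
      intro e he
      have he2 := hS he
      rw [mem_filter] at he2
      obtain ⟨heW, hhe, g, hg, hgh, hge, hgt⟩ := he2
      rcases hgt with hgt | hgt
      · refine ⟨(g, true), mem_Dh.2 ⟨⟨(union_subset hW hU) heW, hhe⟩, ⟨hge, mem_facets.1 hg⟩, hgh⟩,
          heW, fun _ => hgt, fun hf => absurd rfl hf⟩
      · refine ⟨(g, false), mem_Dh.2 ⟨⟨(union_subset hW hU) heW, hhe⟩, ⟨hge, mem_facets.1 hg⟩, hgh⟩,
          heW, fun hf => absurd hf Bool.false_ne_true, fun _ => hgt⟩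
    choose! F hF1 hF2 using hch
    set T : Finset (Dt n) := S.image (fun e => (⟨e, F e⟩ : Dt n)) with hT
    have hTs : T ∈ Ts n k (K + 1) h := by
      unfold Ts
      rw [mem_filter, mem_powersetCard]
      refine ⟨⟨?_, ?_⟩, ?_⟩
      · intro x hx
        rw [hT, mem_image] at hx
        obtain ⟨e, he, rfl⟩ := hx
        exact hF1 e he
      · rw [hT, card_image_of_injective, hSc]
        intro e e' hee
        exact congrArg Sigma.fst hee
      · intro x hx y hy hxy
        rw [mem_coe, hT, mem_image] at hx hy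
        obtain ⟨e, he, rfl⟩ := hx
        obtain ⟨e', he', rfl⟩ := hy
        simp only at hxy
        rw [hxy]
    have hocc : ∀ x ∈ T, Occ t₁ t₂ W U x := by
      intro x hx
      rw [hT, mem_image] at hx
      obtain ⟨e, he, rfl⟩ := hx
      exact hF2 e he
    calc (1 : ℝ) = ind (∀ x ∈ T, Occ t₁ t₂ W U x) := (ind_true hocc).symm
      _ ≤ _ := single_le_sum (f := fun T => ind (∀ x ∈ T, Occ t₁ t₂ W U x)) (fun _ _ => n1 _) hTs
      _ ≤ _ := single_le_sum (f := fun h => ∑ T ∈ Ts n k (K + 1) h,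
        ind (∀ x ∈ T, Occ t₁ t₂ W U x)) (fun _ _ => n2 _) hh

/-- the edges which belong to the datum `x` only -/
noncomputable def A (n k : ℕ) (T : Finset (Dt n)) (x : Dt n) : Finset (Finset (Fin n)) :=
  ((Nf n k x.2.1).filter (fun e => ∀ y ∈ T, y ≠ x → ¬ y.2.1 ⊆ e)) \ T.image Sigma.fst

lemma A_sub (T : Finset (Dt n)) (x : Dt n) : A n k T x ⊆ edges n k := by
  intro e he
  unfold A Nf at he
  rw [mem_sdiff, mem_filter, mem_filter] at he
  exact he.1.1.1

lemma A_disj {T : Finset (Dt n)} {x y : Dt n} (hx : x ∈ T) (hxy : x ≠ y) :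
    Disjoint (A n k T x) (A n k T y) := by
  rw [disjoint_left]
  intro e h1 h2
  unfold A at h1 h2
  rw [mem_sdiff, mem_filter] at h1 h2
  exact h2.1.2 x hx hxy (mem_filter.1 h1.1.1).2

lemma A_disj_E {T : Finset (Dt n)} {x : Dt n} :
    Disjoint (T.image Sigma.fst) (A n k T x) := by
  rw [disjoint_left]
  intro e h1 h2
  unfold A at h2
  rw [mem_sdiff] at h2
  exact h2.2 h1

lemma card_R (hk : 1 ≤ k) {T : Finset (Dt n)} (hTf : ∀ x ∈ T, x.2.1 ∈ facets n k)
    (hTg : ∀ x ∈ T, ∀ y ∈ T, x.2.1 = y.2.1 → x = y) {x : Dt n} (hx : x ∈ T) :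
    (Nf n k x.2.1 \ A n k T x).card ≤ 2 * T.card := by
  have h1 : Nf n k x.2.1 \ A n k T x ⊆ T.image Sigma.fst ∪ (T.erase x).biUnion
      (fun y => (edges n k).filter (fun e => x.2.1 ⊆ e ∧ y.2.1 ⊆ e)) := by
    intro e he
    rw [mem_sdiff] at he
    by_cases hE : e ∈ T.image Sigma.fst
    · exact mem_union_left _ hE
    · apply mem_union_right
      have h2 : ¬ ∀ y ∈ T, y ≠ x → ¬ y.2.1 ⊆ e :=
        fun h => he.2 (mem_sdiff.2 ⟨mem_filter.2 ⟨he.1, h⟩, hE⟩)
      push Not at h2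
      obtain ⟨y, hy, hyx, hye⟩ := h2
      have h3 := mem_filter.1 he.1
      exact mem_biUnion.2 ⟨y, mem_erase.2 ⟨hyx, hy⟩, mem_filter.2 ⟨h3.1, h3.2, hye⟩⟩
  have h4 : ((T.erase x).biUnion
      (fun y => (edges n k).filter (fun e => x.2.1 ⊆ e ∧ y.2.1 ⊆ e))).card ≤
        (T.erase x).card * 1 := by
    apply card_biUnion_le_card_mul
    intro y hy
    rw [mem_erase] at hy
    exact card_two hk (hTf x hx) (hTf y hy.2) fun h => hy.1 (hTg x hx y hy.2 h).symm
  have h5 : (T.erase x).card ≤ T.card := card_erase_le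
  have h6 : (T.image Sigma.fst).card ≤ T.card := card_image_le
  refine (card_le_card h1).trans ((card_union_le _ _).trans ?_)
  omega

lemma card_A_ge (hk : 1 ≤ k) {T : Finset (Dt n)} (hTf : ∀ x ∈ T, x.2.1 ∈ facets n k)
    (hTg : ∀ x ∈ T, ∀ y ∈ T, x.2.1 = y.2.1 → x = y) {x : Dt n} (hx : x ∈ T) :
    n - k - 2 * T.card ≤ (A n k T x).card := by
  have h1 := card_R hk hTf hTg hx
  have h2 := card_Nf (n := n) hk (hTf x hx)
  have h3 : (Nf n k x.2.1).card ≤ (Nf n k x.2.1 \ A n k T x).card + (A n k T x).card := by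
    have := card_le_card (le_sdiff_sup : Nf n k x.2.1 ⊆ (Nf n k x.2.1 \ A n k T x) ∪ A n k T x)
    exact this.trans (card_union_le _ _)
  omega

lemma card_A_le (hk : 1 ≤ k) {T : Finset (Dt n)} (hTf : ∀ x ∈ T, x.2.1 ∈ facets n k)
    {x : Dt n} (hx : x ∈ T) : (A n k T x).card ≤ n := by
  have h1 : A n k T x ⊆ Nf n k x.2.1 := by
    intro e he
    unfold A at he
    rw [mem_sdiff, mem_filter] at he
    exact he.1.1
  have h2 := card_Nf (n := n) hk (hTf x hx)
  have h3 := card_le_card h1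
  omega

lemma deg_le (hk : 1 ≤ k) {T : Finset (Dt n)} (hTf : ∀ x ∈ T, x.2.1 ∈ facets n k)
    (hTg : ∀ x ∈ T, ∀ y ∈ T, x.2.1 = y.2.1 → x = y) {x : Dt n} (hx : x ∈ T)
    {V : Finset (Finset (Fin n))} (hV : V ⊆ edges n k) :
    deg V x.2.1 ≤ ((A n k T x).filter (fun e => e ∈ V)).card + 2 * T.card := by
  have h1 := card_R hk hTf hTg hx
  have h2 : V.filter (fun e => x.2.1 ⊆ e) ⊆ ((A n k T x).filter (fun e => e ∈ V)) ∪
      (Nf n k x.2.1 \ A n k T x) := by
    intro e he
    rw [mem_filter] at he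
    rw [mem_union, mem_filter, mem_sdiff]
    by_cases h : e ∈ A n k T x
    · exact Or.inl ⟨h, he.1⟩
    · exact Or.inr ⟨mem_filter.2 ⟨hV he.1, he.2⟩, h⟩
  unfold deg
  have h3 := (card_le_card h2).trans (card_union_le _ _)
  omega

lemma le_deg {T : Finset (Dt n)} {x : Dt n} {V : Finset (Finset (Fin n))} :
    ((A n k T x).filter (fun e => e ∈ V)).card ≤ deg V x.2.1 := by
  unfold deg
  apply card_le_card
  intro e he
  rw [mem_filter] at he
  rw [mem_filter]
  refine ⟨he.2, ?_⟩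
  have := he.1
  unfold A Nf at this
  rw [mem_sdiff, mem_filter, mem_filter] at this
  exact this.1.1.2

lemma data_bound (hk : 1 ≤ k) {a b : ℝ} (ha0 : 0 ≤ a) (ha1 : a ≤ 1) (hb0 : 0 ≤ b) (hb1 : b ≤ 1)
    {T : Finset (Dt n)} (hTf : ∀ x ∈ T, x.2.1 ∈ facets n k) (hTe : ∀ x ∈ T, x.1 ∈ edges n k)
    (hTg : ∀ x ∈ T, ∀ y ∈ T, x.2.1 = y.2.1 → x = y)
    (hinj : Set.InjOn Sigma.fst (T : Set (Dt n))) (l t₁ t₂ : ℝ) (hl : 0 ≤ l) :
    E2 (edges n k) a b (fun W U => ind (∀ x ∈ T, Occ t₁ t₂ W U x)) ≤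
      (a + b - a * b) ^ T.card *
        (Real.exp (l * t₁ - a * (1 - Real.exp (-l)) * ((n - k - 2 * T.card : ℕ) : ℝ)) ^
          (T.filter (fun x => x.2.2 = true)).card *
        Real.exp (-(l * (t₂ - 2 * T.card)) + (a + b - a * b) * (Real.exp l - 1) * n) ^
          (T.filter (fun x => ¬ x.2.2 = true)).card) := by
  set q : ℝ := Real.exp (-l) with hq
  set r : ℝ := Real.exp l with hr
  set p : ℝ := a + b - a * b with hp
  have hq0 : 0 < q := Real.exp_pos _
  have hr0 : 0 < r := Real.exp_pos _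
  have hq1 : q ≤ 1 := Real.exp_le_one_iff.2 (by linarith)
  have hr1 : 1 ≤ r := Real.one_le_exp hl
  have hp0 : 0 ≤ p := by
    rw [hp]
    nlinarith
  set Tl := T.filter (fun x => x.2.2 = true) with hTl
  set Th := T.filter (fun x => ¬ x.2.2 = true) with hTh
  have hTl' : ∀ {x}, x ∈ Tl → x ∈ T := fun h => (mem_filter.1 h).1
  have hTh' : ∀ {x}, x ∈ Th → x ∈ T := fun h => (mem_filter.1 h).1
  set E := T.image Sigma.fst with hE
  set Bl := Tl.biUnion (A n k T) with hBl
  set Bh := Th.biUnion (A n k T) with hBh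
  have hEc : E.card = T.card := card_image_of_injOn hinj
  have hEs : E ⊆ edges n k := by
    intro e he
    rw [hE, mem_image] at he
    obtain ⟨x, hx, rfl⟩ := he
    exact hTe x hx
  have hBls : Bl ⊆ edges n k := biUnion_subset.2 fun x _ => A_sub T x
  have hBhs : Bh ⊆ edges n k := biUnion_subset.2 fun x _ => A_sub T x
  have hEBl : Disjoint E Bl := by
    rw [hBl, disjoint_biUnion_right]
    exact fun x _ => A_disj_E
  have hEBh : Disjoint E Bh := by
    rw [hBh, disjoint_biUnion_right]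
    exact fun x _ => A_disj_E
  have hBB : Disjoint Bl Bh := by
    rw [hBl, hBh, disjoint_biUnion_left]
    intro x hx
    rw [disjoint_biUnion_right]
    intro y hy
    refine A_disj (hTl' hx) ?_
    rintro rfl
    exact (mem_filter.1 hy).2 (mem_filter.1 hx).2
  have hBlc : Tl.card * (n - k - 2 * T.card) ≤ Bl.card := by
    rw [hBl, card_biUnion fun x hx y _ hxy => A_disj (hTl' hx) hxy, ← smul_eq_mul, ← sum_const]
    exact sum_le_sum fun x hx => card_A_ge hk hTf hTg (hTl' hx)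
  have hBhc : Bh.card ≤ Th.card * n :=
    card_biUnion_le_card_mul _ _ _ fun x hx => card_A_le hk hTf (hTh' hx)
  set φ : Finset (Fin n) → Bool → Bool → ℝ := fun x w u =>
    (if x ∈ E then (if w = true ∨ u = true then 1 else 0) else 1) *
      (if x ∈ Bl then (if w = true then q else 1) else 1) *
      (if x ∈ Bh then (if w = true ∨ u = true then r else 1) else 1) with hφ
  set c : ℝ := Real.exp (l * t₁) ^ Tl.card * Real.exp (-(l * (t₂ - 2 * T.card))) ^ Th.card with hc
  have hc0 : 0 < c := by positivity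
  have hpt : ∀ W ⊆ edges n k, ∀ U ⊆ edges n k,
      ind (∀ x ∈ T, Occ t₁ t₂ W U x) ≤
        c * ∏ x ∈ edges n k, φ x (decide (x ∈ W)) (decide (x ∈ U)) := by
    intro W hW U hU
    have hφ0 : ∀ x w u, 0 ≤ φ x w u := by
      intro x w u
      simp only [hφ]
      apply mul_nonneg
      · apply mul_nonneg
        · split_ifs <;> norm_num
        · split_ifs
          · exact hq0.le
          · norm_num
          · norm_num
      · split_ifs
        · exact hr0.le
        · norm_num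
        · norm_num
    by_cases h : ∀ x ∈ T, Occ t₁ t₂ W U x
    · rw [ind_true h]
      have hEW : E ⊆ W ∪ U := by
        intro e he
        rw [hE, mem_image] at he
        obtain ⟨x, hx, rfl⟩ := he
        exact (h x hx).1
      have e1 : ∏ x ∈ edges n k, φ x (decide (x ∈ W)) (decide (x ∈ U)) =
          q ^ (Bl.filter (fun e => e ∈ W)).card * r ^ (Bh.filter (fun e => e ∈ W ∪ U)).card := by
        have e2 : ∀ x ∈ edges n k, φ x (decide (x ∈ W)) (decide (x ∈ U)) =
            (if x ∈ Bl.filter (fun e => e ∈ W) then q else 1) *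
              (if x ∈ Bh.filter (fun e => e ∈ W ∪ U) then r else 1) := by
          intro x _
          simp only [hφ, decide_eq_true_eq, mem_filter, mem_union]
          have e3 : (if x ∈ E then (if x ∈ W ∨ x ∈ U then (1:ℝ) else 0) else 1) = 1 := by
            by_cases hx : x ∈ E
            · rw [if_pos hx, if_pos (mem_union.1 (hEW hx))]
            · rw [if_neg hx]
          rw [e3, one_mul, ite_and, ite_and]
        rw [prod_congr rfl e2, prod_mul_distrib, prod_ite_mem, prod_ite_mem,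
          inter_eq_right.2 ((filter_subset _ _).trans hBls),
          inter_eq_right.2 ((filter_subset _ _).trans hBhs), prod_const, prod_const]
      have f1 : ((Bl.filter (fun e => e ∈ W)).card : ℝ) ≤ Tl.card * t₁ := by
        have g1 : (Bl.filter (fun e => e ∈ W)).card ≤
            ∑ x ∈ Tl, ((A n k T x).filter (fun e => e ∈ W)).card := by
          rw [hBl, filter_biUnion]
          exact card_biUnion_le
        have g2 : ((∑ x ∈ Tl, ((A n k T x).filter (fun e => e ∈ W)).card : ℕ) : ℝ) ≤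
            ∑ x ∈ Tl, t₁ := by
          rw [Nat.cast_sum]
          apply sum_le_sum
          intro x hx
          have g3 := (h x (hTl' hx)).2.1 (mem_filter.1 hx).2
          have g4 : (((A n k T x).filter (fun e => e ∈ W)).card : ℝ) ≤ deg W x.2.1 := by
            exact_mod_cast le_deg
          linarith
        rw [sum_const, nsmul_eq_mul] at g2
        exact le_trans (by exact_mod_cast g1) g2
      have f2 : (Th.card : ℝ) * (t₂ - 2 * T.card) ≤
          ((Bh.filter (fun e => e ∈ W ∪ U)).card : ℝ) := by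
        have g1 : (Bh.filter (fun e => e ∈ W ∪ U)).card =
            ∑ x ∈ Th, ((A n k T x).filter (fun e => e ∈ W ∪ U)).card := by
          rw [hBh, filter_biUnion]
          apply card_biUnion
          intro x hx y _ hxy
          exact disjoint_filter_filter (A_disj (hTh' hx) hxy)
        rw [g1, Nat.cast_sum, ← nsmul_eq_mul, ← sum_const]
        apply sum_le_sum
        intro x hx
        have g3 := (h x (hTh' hx)).2.2 (mem_filter.1 hx).2
        have g4 : (deg (W ∪ U) x.2.1 : ℝ) ≤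
            ((A n k T x).filter (fun e => e ∈ W ∪ U)).card + 2 * T.card := by
          exact_mod_cast deg_le hk hTf hTg (hTh' hx) (union_subset hW hU)
        linarith
      have f3 : 1 ≤ Real.exp (l * t₁) ^ Tl.card * q ^ (Bl.filter (fun e => e ∈ W)).card := by
        rw [hq, ← Real.exp_nat_mul, ← Real.exp_nat_mul, ← Real.exp_add]
        apply Real.one_le_exp
        nlinarith
      have f4 : 1 ≤ Real.exp (-(l * (t₂ - 2 * T.card))) ^ Th.card *
          r ^ (Bh.filter (fun e => e ∈ W ∪ U)).card := by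
        rw [hr, ← Real.exp_nat_mul, ← Real.exp_nat_mul, ← Real.exp_add]
        apply Real.one_le_exp
        nlinarith
      rw [e1, hc]
      calc (1 : ℝ) = 1 * 1 := by norm_num
        _ ≤ (Real.exp (l * t₁) ^ Tl.card * q ^ (Bl.filter (fun e => e ∈ W)).card) *
          (Real.exp (-(l * (t₂ - 2 * T.card))) ^ Th.card *
            r ^ (Bh.filter (fun e => e ∈ W ∪ U)).card) :=
              mul_le_mul f3 f4 (by norm_num) (by positivity)
        _ = _ := by ring
    · rw [ind_false h]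
      exact mul_nonneg hc0.le (prod_nonneg fun x _ => hφ0 _ _ _)
  refine (E2_mono _ ha0 ha1 hb0 hb1 hpt).trans ?_
  rw [E2_mul_left, E2_prod]
  have hav : ∀ x ∈ edges n k, ((1 - a) * ((1 - b) * φ x false false + b * φ x false true) +
        a * ((1 - b) * φ x true false + b * φ x true true)) =
      (if x ∈ E then p else 1) * (if x ∈ Bl then (1 - a + a * q) else 1) *
        (if x ∈ Bh then (1 - p + p * r) else 1) := by
    intro x _
    simp only [hφ, if_true, Bool.false_eq_true, if_false, or_true, true_or, or_false, false_or]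
    by_cases hx : x ∈ E
    · have hxB : x ∉ Bl := disjoint_left.1 hEBl hx
      have hxC : x ∉ Bh := disjoint_left.1 hEBh hx
      simp only [if_pos hx, if_neg hxB, if_neg hxC]
      rw [hp]
      ring
    · by_cases hxB : x ∈ Bl
      · have hxC : x ∉ Bh := disjoint_left.1 hBB hxB
        simp only [if_neg hx, if_pos hxB, if_neg hxC]
        ring
      · by_cases hxC : x ∈ Bh
        · simp only [if_neg hx, if_neg hxB, if_pos hxC]
          rw [hp]
          ring
        · simp only [if_neg hx, if_neg hxB, if_neg hxC]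
          ring
  rw [prod_congr rfl hav, prod_mul_distrib, prod_mul_distrib, prod_ite_mem, prod_ite_mem,
    prod_ite_mem, inter_eq_right.2 hEs, inter_eq_right.2 hBls, inter_eq_right.2 hBhs, prod_const,
    prod_const, prod_const, hEc]
  have h1 : 0 ≤ 1 - a + a * q := by nlinarith
  have h2 : 1 - a + a * q ≤ Real.exp (-(a * (1 - q))) := by
    have := Real.add_one_le_exp (-(a * (1 - q)))
    linarith
  have h3 : (1 - a + a * q) ^ Bl.card ≤
      Real.exp (-(a * (1 - q) * ((n - k - 2 * T.card : ℕ) : ℝ))) ^ Tl.card := by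
    calc (1 - a + a * q) ^ Bl.card ≤ Real.exp (-(a * (1 - q))) ^ Bl.card :=
          pow_le_pow_left₀ h1 h2 _
      _ = Real.exp (Bl.card * -(a * (1 - q))) := (Real.exp_nat_mul _ _).symm
      _ ≤ Real.exp (Tl.card * -(a * (1 - q) * ((n - k - 2 * T.card : ℕ) : ℝ))) := by
        apply Real.exp_le_exp.2
        have h4 : (Tl.card * ((n - k - 2 * T.card : ℕ) : ℝ)) ≤ Bl.card := by exact_mod_cast hBlc
        have h5 : 0 ≤ a * (1 - q) := mul_nonneg ha0 (by linarith)
        nlinarith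
      _ = _ := Real.exp_nat_mul _ _
  have h6 : 0 ≤ 1 - p + p * r := by nlinarith
  have h7 : 1 - p + p * r ≤ Real.exp (p * (r - 1)) := by
    have := Real.add_one_le_exp (p * (r - 1))
    linarith
  have h8 : (1 - p + p * r) ^ Bh.card ≤ Real.exp (p * (r - 1) * n) ^ Th.card := by
    calc (1 - p + p * r) ^ Bh.card ≤ Real.exp (p * (r - 1)) ^ Bh.card :=
          pow_le_pow_left₀ h6 h7 _
      _ = Real.exp (Bh.card * (p * (r - 1))) := (Real.exp_nat_mul _ _).symm
      _ ≤ Real.exp (Th.card * (p * (r - 1) * n)) := by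
        apply Real.exp_le_exp.2
        have h4 : (Bh.card : ℝ) ≤ Th.card * n := by exact_mod_cast hBhc
        have h5 : 0 ≤ p * (r - 1) := mul_nonneg hp0 (by linarith)
        nlinarith
      _ = _ := Real.exp_nat_mul _ _
  have e5 : Real.exp (l * t₁ - a * (1 - q) * ((n - k - 2 * T.card : ℕ) : ℝ)) =
      Real.exp (l * t₁) * Real.exp (-(a * (1 - q) * ((n - k - 2 * T.card : ℕ) : ℝ))) := by
    rw [← Real.exp_add]
    congr 1
  have e6 : Real.exp (-(l * (t₂ - 2 * T.card)) + p * (r - 1) * n) =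
      Real.exp (-(l * (t₂ - 2 * T.card))) * Real.exp (p * (r - 1) * n) := Real.exp_add _ _
  rw [e5, e6, mul_pow, mul_pow, hc]
  calc Real.exp (l * t₁) ^ Tl.card * Real.exp (-(l * (t₂ - 2 * T.card))) ^ Th.card *
        (p ^ T.card * (1 - a + a * q) ^ Bl.card * (1 - p + p * r) ^ Bh.card)
      = (p ^ T.card * (Real.exp (l * t₁) ^ Tl.card *
          Real.exp (-(l * (t₂ - 2 * T.card))) ^ Th.card)) *
          ((1 - a + a * q) ^ Bl.card * (1 - p + p * r) ^ Bh.card) := by ring
    _ ≤ (p ^ T.card * (Real.exp (l * t₁) ^ Tl.card *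
          Real.exp (-(l * (t₂ - 2 * T.card))) ^ Th.card)) *
          (Real.exp (-(a * (1 - q) * ((n - k - 2 * T.card : ℕ) : ℝ))) ^ Tl.card *
            Real.exp (p * (r - 1) * n) ^ Th.card) := by
      apply mul_le_mul_of_nonneg_left _ (by positivity)
      exact mul_le_mul h3 h8 (pow_nonneg h6 _) (by positivity)
    _ = _ := by ring

/-- the union bound -/
lemma union_bound (hk : 1 ≤ k) {a b p M : ℝ} (ha0 : 0 ≤ a) (ha1 : a ≤ 1) (hb0 : 0 ≤ b)
    (hb1 : b ≤ 1) (hab : a + b - a * b = p) (hp0 : 0 ≤ p) (δ' l : ℝ) (hl : 0 ≤ l) (K : ℕ)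
    (hM1 : Real.exp (l * ((1 - δ') * (((k : ℝ) - 1) * Real.log n)) -
      a * (1 - Real.exp (-l)) * ((n - k - 2 * (K + 1) : ℕ) : ℝ)) ≤ M)
    (hM2 : Real.exp (-(l * ((1 + δ') * (((k : ℝ) - 1) * Real.log n) - 2 * (K + 1 : ℕ))) +
      p * (Real.exp l - 1) * n) ≤ M) :
    E2 (edges n k) a b (fun W U => ind (¬ Q3 k δ' K W (W ∪ U))) ≤
      (n : ℝ) ^ (k - 1) * (2 * k * (n * p) * M) ^ (K + 1) := by
  have hM0 : 0 ≤ M := (Real.exp_pos _).le.trans hM1
  refine (E2_mono _ ha0 ha1 hb0 hb1 fun W hW U hU => ind_le δ' K W U hW hU).trans ?_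
  simp only [E2_sum]
  have s1 : ∀ h ∈ facets n k, ∑ T ∈ Ts n k (K + 1) h, E2 (edges n k) a b (fun W U =>
      ind (∀ x ∈ T, Occ ((1 - δ') * (((k : ℝ) - 1) * Real.log n))
        ((1 + δ') * (((k : ℝ) - 1) * Real.log n)) W U x)) ≤ (2 * k * (n * p) * M) ^ (K + 1) := by
    intro h hh
    have h1 : ∀ T ∈ Ts n k (K + 1) h, E2 (edges n k) a b (fun W U =>
        ind (∀ x ∈ T, Occ ((1 - δ') * (((k : ℝ) - 1) * Real.log n))
          ((1 + δ') * (((k : ℝ) - 1) * Real.log n)) W U x)) ≤ (p * M) ^ (K + 1) := by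
      intro T hT
      unfold Ts at hT
      rw [mem_filter, mem_powersetCard] at hT
      obtain ⟨⟨hTD, hTc⟩, hinj⟩ := hT
      have hTf : ∀ x ∈ T, x.2.1 ∈ facets n k :=
        fun x hx => mem_facets.2 (mem_Dh.1 (hTD hx)).2.1.2
      have hTe : ∀ x ∈ T, x.1 ∈ edges n k := fun x hx => (mem_Dh.1 (hTD hx)).1.1
      have hTg : ∀ x ∈ T, ∀ y ∈ T, x.2.1 = y.2.1 → x = y := by
        intro x hx y hy hxy
        apply hinj hx hy
        have hx1 := mem_Dh.1 (hTD hx)
        have hy1 := mem_Dh.1 (hTD hy)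
        apply card_le_one.1 (card_two hk hh (hTf x hx) hx1.2.2.symm)
        · exact mem_filter.2 ⟨hx1.1.1, hx1.1.2, hx1.2.1.1⟩
        · exact mem_filter.2 ⟨hy1.1.1, hy1.1.2, hxy ▸ hy1.2.1.1⟩
      have hb := data_bound hk ha0 ha1 hb0 hb1 hTf hTe hTg hinj l
        ((1 - δ') * (((k : ℝ) - 1) * Real.log n)) ((1 + δ') * (((k : ℝ) - 1) * Real.log n)) hl
      rw [hab, hTc] at hb
      refine hb.trans ?_
      rw [mul_pow]
      apply mul_le_mul_of_nonneg_left _ (pow_nonneg hp0 _)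
      have hs : K + 1 = (T.filter (fun x => x.2.2 = true)).card +
          (T.filter (fun x => ¬ x.2.2 = true)).card := by
        rw [card_filter_add_card_filter_not, hTc]
      rw [show M ^ (K + 1) = M ^ (T.filter (fun x => x.2.2 = true)).card *
        M ^ (T.filter (fun x => ¬ x.2.2 = true)).card by rw [← pow_add, ← hs]]
      exact mul_le_mul (pow_le_pow_left₀ (Real.exp_pos _).le hM1 _)
        (pow_le_pow_left₀ (Real.exp_pos _).le hM2 _) (by positivity) (by positivity)
    refine (sum_le_sum h1).trans ?_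
    rw [sum_const, nsmul_eq_mul]
    have h2 : ((Ts n k (K + 1) h).card : ℝ) ≤ (2 * k * n) ^ (K + 1) := by
      have h3 : (Ts n k (K + 1) h).card ≤ (2 * k * n) ^ (K + 1) := by
        unfold Ts
        refine (card_le_card (filter_subset _ _)).trans ?_
        rw [card_powersetCard]
        exact (Nat.choose_le_pow _ _).trans (Nat.pow_le_pow_left (card_Dh hk hh) _)
      exact_mod_cast h3
    calc ((Ts n k (K + 1) h).card : ℝ) * (p * M) ^ (K + 1) ≤
          (2 * k * n) ^ (K + 1) * (p * M) ^ (K + 1) :=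
          mul_le_mul_of_nonneg_right h2 (by positivity)
      _ = _ := by
        rw [← mul_pow]
        congr 1
        ring
  refine (sum_le_sum s1).trans ?_
  rw [sum_const, nsmul_eq_mul]
  have h1 : ((facets n k).card : ℝ) ≤ (n : ℝ) ^ (k - 1) := by exact_mod_cast card_facets_le
  exact mul_le_mul_of_nonneg_right h1 (by positivity)

end Pool.Agent.TH692.J3935

namespace Pool.Agent.TH948.HT

open Finset
open scoped Classical
open Pool.Agent.TH965.Spread Pool.Agent.TH948.KK Pool.Agent.TH948.BD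

theorem prob_Q3 {k : ℕ} (hk : 2 ≤ k) (δ : ℝ) (h0 : 0 < δ) (h1 : δ ≤ 1 / 8) :
    ∃ K : ℕ, Filter.Tendsto (fun n : ℕ => exs (edges n k) (pm k δ n) (fun W =>
      exs (edges n k) (bb k δ n) (fun U => ind (¬ Q3 k (4 * δ) K W (W ∪ U)))))
      Filter.atTop (nhds 0) := by
  have hkr : (2 : ℝ) ≤ k := by exact_mod_cast hk
  obtain ⟨K, hK⟩ := exists_nat_ge (2 / δ ^ 2)
  have hKδ : 2 ≤ (K + 1 : ℝ) * δ ^ 2 := by
    rw [div_le_iff₀ (by positivity)] at hK
    nlinarith [sq_nonneg δ]
  refine ⟨K, ?_⟩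
  have hup := Pool.Agent.TH692.HTP.log_pow_lim (K + 1) 1 one_pos ((4 * (k : ℝ) * k) ^ (K + 1))
  refine tendsto_of_tendsto_of_tendsto_of_le_of_le' tendsto_const_nhds hup ?_ ?_
  · filter_upwards [Pool.Agent.TH692.HTP.dens k hk δ h0 h1] with n hn
    obtain ⟨p1, p2, p3, p4, -, -, -⟩ := hn
    exact Pool.Agent.TH692.HTP.E2_nonneg (edges n k) p1 p2 p3 p4 fun W _ U _ => ind_nonneg _
  · have hev1 := (tendsto_natCast_atTop_atTop (R := ℝ)).eventually_ge_atTop
      (2 * (k + 2 * (K + 1)) / δ)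
    have hev2 := (Real.tendsto_log_atTop.comp
      (tendsto_natCast_atTop_atTop (R := ℝ))).eventually_ge_atTop (4 * (K + 1) / δ)
    filter_upwards [Pool.Agent.TH692.HTP.dens k hk δ h0 h1, Filter.eventually_ge_atTop 3,
      Filter.eventually_ge_atTop (k + 2 * (K + 1)), hev1, hev2] with n hn hn3 hnk hn4 hn5
    obtain ⟨p1, p2, p3, p4, p5, p6, p7⟩ := hn
    rw [Function.comp_apply] at hn5
    have hn0 : (0 : ℝ) < n := by exact_mod_cast (by omega : 0 < n)
    set L := Real.log n with hL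
    have hL1 : 1 ≤ L := by
      rw [hL, Real.le_log_iff_exp_le hn0]
      have h3 : (3 : ℝ) ≤ n := by exact_mod_cast hn3
      have := Real.exp_one_lt_d9
      linarith
    have hL0 : 0 < L := by linarith
    set d : ℝ := ((k : ℝ) - 1) * L with hd
    have hdL : L ≤ d := by
      rw [hd]
      nlinarith
    have hd0 : 0 < d := by linarith
    have hnp : (n : ℝ) * pp k δ n = (1 + δ) * d := by
      unfold pp
      rw [← hL, ← hd]
      field_simp
    have hnm : (n : ℝ) * pm k δ n = (1 - δ) * d := by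
      unfold pm
      rw [← hL, ← hd]
      field_simp
    have hx1 := abs_le.1 (Real.abs_exp_sub_one_sub_id_le (x := δ) (by rw [abs_of_pos h0]; linarith))
    have hx2 := abs_le.1 (Real.abs_exp_sub_one_sub_id_le (x := -δ)
      (by rw [abs_neg, abs_of_pos h0]; linarith))
    have hM1 : Real.exp (δ * ((1 - 4 * δ) * d) -
        pm k δ n * (1 - Real.exp (-δ)) * ((n - k - 2 * (K + 1) : ℕ) : ℝ)) ≤
        Real.exp (-(δ ^ 2 * d)) := by
      apply Real.exp_le_exp.2
      have c1 : ((n - k - 2 * (K + 1) : ℕ) : ℝ) = (n : ℝ) - k - 2 * (K + 1) := by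
        rw [Nat.cast_sub (by omega), Nat.cast_sub (by omega)]
        push_cast
        ring
      have c2 : (k : ℝ) + 2 * (K + 1) ≤ δ / 2 * n := by
        rw [div_le_iff₀ h0] at hn4
        linarith
      have c3 : (1 - δ / 2) * ((1 - δ) * d) ≤ pm k δ n * ((n - k - 2 * (K + 1) : ℕ) : ℝ) := by
        rw [c1, ← hnm]
        have := mul_le_mul_of_nonneg_left c2 p1
        nlinarith
      have c4 : δ - δ ^ 2 ≤ 1 - Real.exp (-δ) := by
        have := hx2.2
        nlinarith
      have c5 : 0 ≤ δ - δ ^ 2 := by nlinarith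
      have c6 : (1 - δ / 2) * ((1 - δ) * d) * (δ - δ ^ 2) ≤
          pm k δ n * ((n - k - 2 * (K + 1) : ℕ) : ℝ) * (1 - Real.exp (-δ)) :=
        mul_le_mul c3 c4 c5 (mul_nonneg p1 (Nat.cast_nonneg _))
      have c7 : δ * (1 - 5 / 2 * δ) * d ≤ (1 - δ / 2) * ((1 - δ) * d) * (δ - δ ^ 2) := by
        have : 0 ≤ δ * d * δ * (2 * δ - δ ^ 2 / 2) := by
          have : 0 ≤ 2 * δ - δ ^ 2 / 2 := by nlinarith
          positivity
        nlinarith
      have c8 : 0 ≤ δ ^ 2 * d := by positivity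
      nlinarith
    have hM2 : Real.exp (-(δ * ((1 + 4 * δ) * d - 2 * (K + 1 : ℕ))) +
        pp k δ n * (Real.exp δ - 1) * n) ≤ Real.exp (-(δ ^ 2 * d)) := by
      apply Real.exp_le_exp.2
      have c1 : pp k δ n * (Real.exp δ - 1) * n ≤ (1 + δ) * d * (δ + δ ^ 2) := by
        rw [← hnp]
        have c2 : Real.exp δ - 1 ≤ δ + δ ^ 2 := by
          have := hx1.2
          linarith
        have := mul_le_mul_of_nonneg_left c2 (mul_nonneg hn0.le p6)
        linarith
      have c3 : 4 * (K + 1 : ℝ) ≤ δ * d := by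
        rw [div_le_iff₀ h0] at hn5
        nlinarith
      have c4 : δ * (2 * (K + 1 : ℕ)) ≤ 1 / 2 * (δ ^ 2 * d) := by
        push_cast
        nlinarith
      have c5 : δ ^ 3 * d ≤ 1 / 8 * (δ ^ 2 * d) := by
        have : 0 ≤ δ ^ 2 * d := by positivity
        nlinarith
      nlinarith
    have hb := Pool.Agent.TH692.J3935.union_bound (n := n) (k := k) (by omega) p1 p2 p3 p4 p5 p6
      (4 * δ) δ h0.le K hM1 hM2
    refine (le_of_eq rfl).trans (hb.trans ?_)
    have hnp1 : (n : ℝ) * pp k δ n ≤ 2 * k * L := by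
      rw [hnp, hd]
      have e1 : (1 + δ) * (((k : ℝ) - 1) * L) ≤ 2 * (((k : ℝ) - 1) * L) :=
        mul_le_mul_of_nonneg_right (by linarith) (mul_nonneg (by linarith) hL0.le)
      nlinarith
    have hnp0 : 0 ≤ (n : ℝ) * pp k δ n := by positivity
    have hpow : (n : ℝ) ^ (k - 1) = Real.exp d := by
      have e1 : ((k - 1 : ℕ) : ℝ) = (k : ℝ) - 1 := by
        rw [Nat.cast_sub (by omega), Nat.cast_one]
      rw [hd, ← e1, Real.exp_nat_mul, hL, Real.exp_log hn0]
    have hY : (2 * (k : ℝ) * (n * pp k δ n)) ^ (K + 1) ≤ (4 * (k : ℝ) * k) ^ (K + 1) *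
        L ^ (K + 1) := by
      rw [← mul_pow]
      apply pow_le_pow_left₀ (by positivity)
      calc 2 * (k : ℝ) * (n * pp k δ n) ≤ 2 * (k : ℝ) * (2 * k * L) :=
            mul_le_mul_of_nonneg_left hnp1 (by positivity)
        _ = _ := by ring
    have hZ : Real.exp d * Real.exp (-(δ ^ 2 * d)) ^ (K + 1) ≤ Real.exp (-(1 * L)) := by
      rw [← Real.exp_nat_mul, ← Real.exp_add]
      apply Real.exp_le_exp.2
      push_cast
      have := mul_le_mul_of_nonneg_right hKδ hd0.le
      nlinarith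
    rw [hpow, mul_pow]
    calc Real.exp d * ((2 * (k : ℝ) * (n * pp k δ n)) ^ (K + 1) *
          Real.exp (-(δ ^ 2 * d)) ^ (K + 1))
        = (2 * (k : ℝ) * (n * pp k δ n)) ^ (K + 1) *
          (Real.exp d * Real.exp (-(δ ^ 2 * d)) ^ (K + 1)) := by ring
      _ ≤ _ := mul_le_mul hY hZ (by positivity) (by positivity)

end Pool.Agent.TH948.HT
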