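import Pool.Agent.TH317.CC.Alg

set_option autoImplicit false

namespace Pool.Agent.TH317.CC

open Finset

variable {D Λ R : Type*} [LinearOrder Λ] [CommRing R] [Inhabited D]

namespace H692A2

section Abs

variable {E : Type*} [Ring E]

/-- the iterated commutator -/
def N (a b : E) (n : ℕ) : E :=
  ∑ i ∈ range (n + 1), ((-1) ^ i * (n.choose i : ℤ) : ℤ) • (a ^ (n - i) * b * a ^ i)

def M (a b : E) (n : ℕ) : E :=
  ∑ j ∈ range n, ((-1) ^ j * (n.choose (j + 1) : ℤ) : ℤ) • (a ^ (n - 1 - j) * b * a ^ j)

def Q (a b : E) (n : ℕ) : E := ∑ j ∈ range n, a ^ (n - 1 - j) * b * a ^ j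

theorem M_succ (a b : E) (n : ℕ) : M a b (n + 1) = a * M a b n + N a b n := by
  have h1 : M a b (n + 1) = (∑ j ∈ range (n + 1), ((-1) ^ j * (n.choose (j + 1) : ℤ) : ℤ) •
      (a ^ (n - j) * b * a ^ j)) + N a b n := by
    unfold M N
    rw [← Finset.sum_add_distrib]
    refine Finset.sum_congr rfl fun j _ => ?_
    rw [← add_smul]
    congr 1
    rw [Nat.choose_succ_succ n j]
    push_cast
    ring
  have h2 : a * M a b n = ∑ j ∈ range n, ((-1) ^ j * (n.choose (j + 1) : ℤ) : ℤ) •
      (a ^ (n - j) * b * a ^ j) := by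
    unfold M
    rw [Finset.mul_sum]
    refine Finset.sum_congr rfl fun j hj => ?_
    rw [mem_range] at hj
    have : n - j = (n - 1 - j) + 1 := by omega
    rw [mul_smul_comm, this, pow_succ', mul_assoc, mul_assoc, mul_assoc]
  rw [h1, h2, Finset.sum_range_succ, Nat.choose_succ_self]
  simp

theorem N_succ (a b : E) (n : ℕ) : N a b (n + 1) = a * N a b n - N a b n * a := by
  have h1 : N a b (n + 1) = (a ^ (n + 1) * b + ∑ i ∈ range (n + 1),
      ((-1) ^ (i + 1) * (n.choose (i + 1) : ℤ) : ℤ) • (a ^ (n - i) * b * a ^ (i + 1))) -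
      N a b n * a := by
    unfold N
    rw [Finset.sum_range_succ', Finset.sum_mul, add_comm, add_sub_assoc, ← Finset.sum_sub_distrib]
    congr 1
    · simp
    · refine Finset.sum_congr rfl fun i _ => ?_
      have e1 : a ^ (n - i) * b * a ^ i * a = a ^ (n - i) * b * a ^ (i + 1) := by
        rw [pow_succ a i, mul_assoc _ (a ^ i) a]
      have e2 : n + 1 - (i + 1) = n - i := by omega
      rw [smul_mul_assoc, e1, e2, ← sub_smul]
      congr 1
      rw [Nat.choose_succ_succ n i]
      push_cast
      ring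
  have h2 : a * N a b n = a ^ (n + 1) * b + ∑ i ∈ range n,
      ((-1) ^ (i + 1) * (n.choose (i + 1) : ℤ) : ℤ) • (a ^ (n - i) * b * a ^ (i + 1)) := by
    unfold N
    rw [Finset.sum_range_succ', mul_add, add_comm, Finset.mul_sum]
    congr 1
    · simp [pow_succ', mul_assoc]
    · refine Finset.sum_congr rfl fun i hi => ?_
      rw [mem_range] at hi
      have : n - i = (n - (i + 1)) + 1 := by omega
      rw [mul_smul_comm, this, pow_succ' a (n - (i + 1)), mul_assoc, mul_assoc, mul_assoc]
  rw [h1, h2, Finset.sum_range_succ, Nat.choose_succ_self]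
  simp

theorem Q_succ (a b : E) (n : ℕ) : Q a b (n + 1) = a * Q a b n + b * a ^ n := by
  unfold Q
  rw [Finset.sum_range_succ, Finset.mul_sum]
  congr 1
  · refine Finset.sum_congr rfl fun j hj => ?_
    rw [mem_range] at hj
    have : n + 1 - 1 - j = (n - 1 - j) + 1 := by omega
    rw [this, pow_succ', mul_assoc, mul_assoc, mul_assoc]
  · simp

theorem choose_mod (p : ℕ) [Fact p.Prime] (j : ℕ) (hj : j ≤ p - 1) :
    (((p - 1).choose j : ℕ) : ZMod p) = (-1) ^ j := by
  have hp : p.Prime := Fact.out
  induction j with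
  | zero => simp
  | succ j ih =>
    have h1 := ih (by omega)
    have h2 : p = (p - 1) + 1 := by have := hp.one_lt; omega
    have h3 : p.choose (j + 1) = (p - 1).choose j + (p - 1).choose (j + 1) := by
      conv_lhs => rw [h2]
      exact Nat.choose_succ_succ _ _
    have h4 : ((p.choose (j + 1) : ℕ) : ZMod p) = 0 := by
      rw [ZMod.natCast_eq_zero_iff]
      exact hp.dvd_choose_self (by omega) (by omega)
    rw [h3, Nat.cast_add, h1] at h4
    rw [pow_succ]
    linear_combination h4

theorem M_char (p : ℕ) [Fact p.Prime] (hE : ∀ x : E, (p : ℤ) • x = 0) (a b : E) :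
    - M a b (p - 1) = Q a b (p - 1) := by
  unfold M Q
  rw [← Finset.sum_neg_distrib]
  refine Finset.sum_congr rfl fun j hj => ?_
  rw [mem_range] at hj
  have h1 := choose_mod p (j + 1) (by omega)
  have h2 : ((((-1) ^ j * ((p - 1).choose (j + 1) : ℤ) + 1 : ℤ)) : ZMod p) = 0 := by
    push_cast
    rw [h1, ← pow_add, show j + (j + 1) = 2 * j + 1 by ring, pow_succ, pow_mul]
    simp
  rw [ZMod.intCast_zmod_eq_zero_iff_dvd] at h2
  obtain ⟨t, ht⟩ := h2
  have h3 : ((-1) ^ j * ((p - 1).choose (j + 1) : ℤ) : ℤ) = -1 + t * p := by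
    linear_combination ht
  rw [h3, add_smul, mul_smul, hE, smul_zero, add_zero, neg_smul, one_smul, neg_neg]

end Abs

section Mod

variable {A : Type*} [AddCommGroup A]

/-- left multiplications -/
def op (Lb : A →+ A →+ A) (x : A) : AddMonoid.End A := Lb x

theorem main (Lb : A →+ A →+ A)
    (hpre : ∀ x y g, Lb x (Lb y g) - Lb y (Lb x g) = Lb (Lb x y - Lb y x) g) (P Y : A) (n : ℕ) :
    op Lb ((fun z => Lb P z - Lb z P)^[n] Y) = N (op Lb P) (op Lb Y) n ∧
    (fun z => Lb P z - Lb z P)^[n] Y = (op Lb P ^ n) Y - (M (op Lb P) (op Lb Y) n) P := by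
  induction n with
  | zero =>
    constructor
    · simp [N]
    · simp [M]
  | succ n ih =>
    obtain ⟨h1, h2⟩ := ih
    rw [Function.iterate_succ_apply']
    set Z := (fun z => Lb P z - Lb z P)^[n] Y with hZ
    constructor
    · rw [N_succ, ← h1]
      ext g
      exact (hpre P Z g).symm
    · rw [M_succ, ← h1]
      have e1 : Lb P Z = (op Lb P ^ (n + 1)) Y - (op Lb P * M (op Lb P) (op Lb Y) n) P := by
        rw [h2, map_sub, pow_succ']
        rfl
      show Lb P Z - Lb Z P = _
      rw [e1]
      show _ = _ - (((op Lb P * M (op Lb P) (op Lb Y) n) P) + Lb Z P)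
      abel

theorem main2 (Lb : A →+ A →+ A) (d : A → A)
    (hd : ∀ x y, d (Lb x y) = Lb (d x) y + Lb x (d y)) (P : A) (n : ℕ) :
    d ((fun z => Lb P z)^[n] P) = (op Lb P ^ n) (d P) + (Q (op Lb P) (op Lb (d P)) n) P := by
  have hit : ∀ n, (fun z => Lb P z)^[n] P = (op Lb P ^ n) P := by
    intro n
    induction n with
    | zero => rfl
    | succ n ih => rw [Function.iterate_succ_apply', ih, pow_succ']; rfl
  induction n with
  | zero => simp [Q]
  | succ n ih =>
    rw [Function.iterate_succ_apply', hd, ih, Q_succ, hit, pow_succ', map_add]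
    show Lb (d P) ((op Lb P ^ n) P) + (Lb P ((op Lb P ^ n) (d P)) +
      Lb P ((Q (op Lb P) (op Lb (d P)) n) P)) = Lb P ((op Lb P ^ n) (d P)) +
        (Lb P ((Q (op Lb P) (op Lb (d P)) n) P) + Lb (d P) ((op Lb P ^ n) P))
    abel

theorem main3 (p : ℕ) [Fact p.Prime] (hA : ∀ x : A, (p : ℤ) • x = 0) (Lb : A →+ A →+ A)
    (hpre : ∀ x y g, Lb x (Lb y g) - Lb y (Lb x g) = Lb (Lb x y - Lb y x) g) (d : A → A)
    (hd : ∀ x y, d (Lb x y) = Lb (d x) y + Lb x (d y)) (P : A) :
    d ((fun z => Lb P z)^[p - 1] P) = (fun z => Lb P z - Lb z P)^[p - 1] (d P) := by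
  rw [main2 Lb d hd, (main Lb hpre P (d P) (p - 1)).2, ← M_char p (E := AddMonoid.End A)]
  · show _ + -((M (op Lb P) (op Lb (d P)) (p - 1)) P) = _
    abel
  · intro x
    ext y
    exact hA (x y)

end Mod

section Conc

variable (i o : D → Λ)

/-- the cut operator as a biadditive map -/
def LL {S : Type*} [CommRing S] : (List D → S) →+ (List D → S) →+ (List D → S) :=
  AddMonoidHom.mk' (fun X => AddMonoidHom.mk' (fun g => L i o X g) (by
    intro g g'
    funext w
    simp only [L, Pi.add_apply, mul_add, Finset.sum_add_distrib])) (by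
    intro X X'
    ext g w
    simp only [AddMonoidHom.mk'_apply, AddMonoidHom.add_apply, L, Pi.add_apply, mul_add, add_mul,
      Finset.sum_add_distrib])

theorem LL_apply {S : Type*} [CommRing S] (X g : List D → S) : LL i o X g = L i o X g := rfl

theorem K_iter {S : Type*} [CommRing S] (P : List D → S) (n : ℕ) :
    K i o P n = (fun z => LL i o P z)^[n] P := by
  induction n with
  | zero => rfl
  | succ n ih =>
    rw [Function.iterate_succ_apply', ← ih]
    rfl

theorem deriv_L (X g : List D → Polynomial R) (w : List D) :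
    Polynomial.derivative (L i o X g w) =
      L i o (fun w => Polynomial.derivative (X w)) g w +
      L i o X (fun w => Polynomial.derivative (g w)) w := by
  unfold L
  rw [Polynomial.derivative_sum, ← Finset.sum_add_distrib]
  refine Finset.sum_congr rfl fun k _ => ?_
  rw [Polynomial.derivative_sum, ← Finset.sum_add_distrib]
  refine Finset.sum_congr rfl fun j _ => ?_
  rw [Polynomial.derivative_mul, Polynomial.derivative_mul, Polynomial.derivative_intCast]
  ring

end Conc

end H692A2

open H692A2

theorem deriv_K (i o : D → Λ) (p : ℕ) [Fact p.Prime] [CharP R p]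
    (hpre : ∀ (X Y g : List D → Polynomial R) (w : List D),
      L i o X (L i o Y g) w - L i o Y (L i o X g) w = L i o (br i o X Y) g w)
    (X Y : List D → R) (w : List D) :
    Polynomial.derivative (K i o (fun w => Polynomial.C (X w) + Polynomial.X * Polynomial.C (Y w))
        (p - 1) w) =
      ((br i o (fun w => Polynomial.C (X w) + Polynomial.X * Polynomial.C (Y w)))^[p - 1]
        (fun w => Polynomial.C (Y w))) w := by
  have h := main3 (A := List D → Polynomial R) p ?_ (LL i o) ?_
    (fun F w => Polynomial.derivative (F w)) ?_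
    (fun w => Polynomial.C (X w) + Polynomial.X * Polynomial.C (Y w))
  · rw [K_iter]
    have h2 := congrFun h w
    simp only at h2
    rw [h2]
    have h3 : (fun w => Polynomial.derivative (Polynomial.C (X w) +
        Polynomial.X * Polynomial.C (Y w))) = fun w => Polynomial.C (Y w) := by
      funext w
      simp
    rw [h3]
    rfl
  · intro F
    funext w
    rw [Pi.smul_apply, Pi.zero_apply, zsmul_eq_mul]
    have : ((p : ℤ) : Polynomial R) = 0 := by
      rw [Int.cast_natCast, CharP.cast_eq_zero]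
    rw [this, zero_mul]
  · intro X Y g
    funext w
    exact hpre X Y g w
  · intro F G
    funext w
    exact deriv_L i o F G w

end Pool.Agent.TH317.CC
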