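import Pool.Agent.TH317.CC.Alg

set_option autoImplicit false
set_option linter.unusedVariables false
set_option linter.unusedSectionVars false

namespace Pool.Agent.TH317.CC

open Finset

variable {D Λ R : Type*} [LinearOrder Λ] [CommRing R] [Inhabited D]

namespace H692A4

/-- ring homomorphisms commute with the cut operators -/
theorem L_hom (i o : D → Λ) {S S' : Type*} [CommRing S] [CommRing S'] (φ : S →+* S')
    (X g : List D → S) (w : List D) :
    φ (L i o X g w) = L i o (fun w => φ (X w)) (fun w => φ (g w)) w := by
  unfold L
  simp only [map_sum, map_mul, map_intCast]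

theorem K_hom (i o : D → Λ) {S S' : Type*} [CommRing S] [CommRing S'] (φ : S →+* S')
    (X : List D → S) (n : ℕ) (w : List D) :
    φ (K i o X n w) = K i o (fun w => φ (X w)) n w := by
  induction n generalizing w with
  | zero => rfl
  | succ n ih =>
    show φ (L i o X (K i o X n) w) = L i o _ (K i o _ n) w
    rw [L_hom]
    congr 1
    funext w'
    exact ih w'

/-- the polynomial family -/
noncomputable def fam (X Y : List D → R) : List D → Polynomial R :=
  fun w => Polynomial.C (X w) + Polynomial.X * Polynomial.C (Y w)

theorem fam_deg (i o : D → Λ) (X Y : List D → R) (n : ℕ) : ∀ w : List D,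
    (K i o (fam X Y) n w).natDegree ≤ n + 1 ∧ (K i o (fam X Y) n w).coeff (n + 1) = K i o Y n w := by
  have h0 : ∀ w, (fam X Y w).natDegree ≤ 1 ∧ (fam X Y w).coeff 1 = Y w := by
    intro w
    unfold fam
    constructor
    · refine (Polynomial.natDegree_add_le _ _).trans (max_le ?_ ?_)
      · rw [Polynomial.natDegree_C]; exact Nat.zero_le _
      · refine Polynomial.natDegree_mul_le.trans ?_
        rw [Polynomial.natDegree_C]
        exact Polynomial.natDegree_X_le
    · rw [Polynomial.coeff_add, Polynomial.coeff_mul_C, Polynomial.coeff_X_one, one_mul,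
        Polynomial.coeff_C_of_ne_zero one_ne_zero, zero_add]
  induction n with
  | zero => intro w; exact h0 w
  | succ n ih =>
    intro w
    have hterm : ∀ k j : ℕ, ((cf i o w j k : Polynomial R) * fam X Y (leaf w j k) *
        K i o (fam X Y) n (rest w j k)).natDegree ≤ n + 1 + 1 ∧
        ((cf i o w j k : Polynomial R) * fam X Y (leaf w j k) *
        K i o (fam X Y) n (rest w j k)).coeff (n + 1 + 1) =
        (cf i o w j k : R) * Y (leaf w j k) * K i o Y n (rest w j k) := by
      intro k j
      obtain ⟨a1, a2⟩ := h0 (leaf w j k)
      obtain ⟨b1, b2⟩ := ih (rest w j k)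
      have e1 : (cf i o w j k : Polynomial R) = Polynomial.C ((cf i o w j k : ℤ) : R) := by
        rw [map_intCast]
      rw [e1, mul_assoc]
      have h3 : (fam X Y (leaf w j k) * K i o (fam X Y) n (rest w j k)).natDegree ≤ n + 1 + 1 := by
        refine Polynomial.natDegree_mul_le.trans ?_
        omega
      constructor
      · exact (Polynomial.natDegree_C_mul_le _ _).trans h3
      · rw [Polynomial.coeff_C_mul, show n + 1 + 1 = 1 + (n + 1) by ring,
          Polynomial.coeff_mul_add_eq_of_natDegree_le a1 b1, a2, b2]
        ring
    constructor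
    · show (L i o (fam X Y) (K i o (fam X Y) n) w).natDegree ≤ _
      unfold L
      refine Polynomial.natDegree_sum_le_of_forall_le _ _ fun k _ => ?_
      exact Polynomial.natDegree_sum_le_of_forall_le _ _ fun j _ => (hterm k j).1
    · show (L i o (fam X Y) (K i o (fam X Y) n) w).coeff _ = L i o Y (K i o Y n) w
      unfold L
      rw [Polynomial.finsetSum_coeff]
      refine Finset.sum_congr rfl fun k _ => ?_
      rw [Polynomial.finsetSum_coeff]
      exact Finset.sum_congr rfl fun j _ => (hterm k j).2

theorem isUnit_cast (p : ℕ) [Fact p.Prime] [CharP R p] {k : ℕ} (h0 : 0 < k) (h1 : k < p) {x : R}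
    (h : x * (k : R) = 0) : x = 0 := by
  have hc : Nat.Coprime k p := (Nat.coprime_of_lt_prime (by omega) h1 (Fact.out : p.Prime)).symm
  have h2 : IsCoprime (k : ℤ) (p : ℤ) := Nat.isCoprime_iff_coprime.2 hc
  obtain ⟨a, b, hab⟩ := h2
  have h3 : (a : R) * (k : R) = 1 := by
    have := congrArg (fun z : ℤ => (z : R)) hab
    simp only [Int.cast_add, Int.cast_mul, Int.cast_natCast, Int.cast_one, CharP.cast_eq_zero,
      mul_zero, add_zero] at this
    exact this
  calc x = x * ((a : R) * (k : R)) := by rw [h3, mul_one]
    _ = a * (x * (k : R)) := by ring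
    _ = 0 := by rw [h, mul_zero]

/-- additivity -/
theorem add_pow (i o : D → Λ)
    (p : ℕ) [Fact p.Prime] [CharP R p]
    (hder : ∀ (X Y : List D → R) (w : List D),
      Polynomial.derivative (K i o
        (fun w => Polynomial.C (X w) + Polynomial.X * Polynomial.C (Y w)) (p - 1) w) =
      ((br i o (fun w => Polynomial.C (X w) + Polynomial.X * Polynomial.C (Y w)))^[p - 1]
        (fun w => Polynomial.C (Y w))) w)
    (hbr : ∀ Y Z : List D → Polynomial R, (∀ a u, Y (a :: u) = Y (u ++ [a])) →
      (∀ a u, Z (a :: u) = Z (u ++ [a])) → ∀ a u, br i o Y Z (a :: u) = br i o Y Z (u ++ [a]))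
    (hB : ∀ Y Z : List D → Polynomial R, (∀ a u, Y (a :: u) = Y (u ++ [a])) →
      (∀ a u, Z (a :: u) = Z (u ++ [a])) → ∀ u, br i o Y Z (List.replicate p u).flatten = 0)
    (X Y : List D → R) (hX : ∀ a u, X (a :: u) = X (u ++ [a]))
    (hY : ∀ a u, Y (a :: u) = Y (u ++ [a])) (u : List D) :
    K i o (fun w => X w + Y w) (p - 1) (List.replicate p u).flatten =
      K i o X (p - 1) (List.replicate p u).flatten +
      K i o Y (p - 1) (List.replicate p u).flatten := by
  have hp : p.Prime := Fact.out
  have hp1 : p - 1 + 1 = p := by have := hp.one_lt; omega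
  set w := (List.replicate p u).flatten with hw
  have hP : ∀ a u, fam X Y (a :: u) = fam X Y (u ++ [a]) := by
    intro a u
    unfold fam
    rw [hX, hY]
  have hit : ∀ n, ∀ a u, ((br i o (fam X Y))^[n] (fun w => Polynomial.C (Y w))) (a :: u) =
      ((br i o (fam X Y))^[n] (fun w => Polynomial.C (Y w))) (u ++ [a]) := by
    intro n
    induction n with
    | zero => intro a u; simp only [Function.iterate_zero, id]; rw [hY]
    | succ n ih =>
      intro a u
      rw [Function.iterate_succ_apply']
      exact hbr _ _ hP ih a u
  have hQ' : Polynomial.derivative (K i o (fam X Y) (p - 1) w) = 0 := by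
    have h1 := hder X Y w
    have h2 : p - 1 = (p - 2) + 1 := by have := hp.two_le; omega
    have h3 : ((br i o (fam X Y))^[p - 1] (fun w => Polynomial.C (Y w))) w = 0 := by
      rw [h2, Function.iterate_succ_apply', hw]
      exact hB _ _ hP (hit _) u
    exact h1.trans h3
  obtain ⟨hd, hc⟩ := fam_deg i o X Y (p - 1) w
  rw [hp1] at hd hc
  set Q := K i o (fam X Y) (p - 1) w with hQ
  have h0 : Q.coeff 0 = K i o X (p - 1) w := by
    rw [Polynomial.coeff_zero_eq_eval_zero]
    have := K_hom i o (Polynomial.evalRingHom (0 : R)) (fam X Y) (p - 1) w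
    rw [Polynomial.coe_evalRingHom] at this
    rw [hQ, this]
    congr 1
    funext w'
    simp [fam]
  have h1 : Q.eval 1 = K i o (fun w => X w + Y w) (p - 1) w := by
    have := K_hom i o (Polynomial.evalRingHom (1 : R)) (fam X Y) (p - 1) w
    rw [Polynomial.coe_evalRingHom] at this
    rw [hQ, this]
    congr 1
    funext w'
    simp [fam]
  have h2 : Q = Polynomial.C (Q.coeff 0) + Polynomial.C (Q.coeff p) * Polynomial.X ^ p := by
    ext k
    rw [Polynomial.coeff_add, Polynomial.coeff_C_mul_X_pow]
    by_cases hk0 : k = 0
    · rw [hk0, Polynomial.coeff_C_zero, if_neg hp.ne_zero.symm, add_zero]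
    · rw [Polynomial.coeff_C_of_ne_zero hk0, zero_add]
      by_cases hkp : k = p
      · rw [if_pos hkp, hkp]
      · rw [if_neg hkp]
        rcases Nat.lt_or_ge k p with hlt | hge
        · obtain ⟨k', rfl⟩ := Nat.exists_eq_succ_of_ne_zero hk0
          have h3 : (Polynomial.derivative Q).coeff k' = 0 := by rw [hQ']; simp
          rw [Polynomial.coeff_derivative] at h3
          exact isUnit_cast p (Nat.succ_pos k') hlt (by push_cast; exact h3)
        · exact Polynomial.coeff_eq_zero_of_natDegree_lt (by omega)
  rw [← h1, h2]
  simp only [Polynomial.eval_add, Polynomial.eval_C, Polynomial.eval_mul, Polynomial.eval_pow,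
    Polynomial.eval_X, one_pow, mul_one]
  rw [h0, hc]

theorem length_leaf {w : List D} {j k : ℕ} (hk : k ≤ w.length) : (leaf w j k).length = k - j := by
  unfold leaf
  rw [List.length_drop, List.length_take, min_eq_left hk]

theorem length_rest {w : List D} {j k : ℕ} (hj : j ≤ w.length) :
    (rest w j k).length = j + (w.length - k) := by
  unfold rest
  rw [List.length_append, List.length_take, List.length_drop, min_eq_left hj]

theorem K_congr (i o : D → Λ) {X X' : List D → R} (n : ℕ) : ∀ (w : List D),
    (∀ w', w'.length ≤ w.length → X w' = X' w') → K i o X n w = K i o X' n w := by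
  induction n with
  | zero => intro w h; exact h w le_rfl
  | succ n ih =>
    intro w h
    show L i o X (K i o X n) w = L i o X' (K i o X' n) w
    unfold L
    refine Finset.sum_congr rfl fun k hk => Finset.sum_congr rfl fun j hj => ?_
    rw [mem_range] at hk hj
    rw [h (leaf w j k) (by rw [length_leaf hk.le]; omega),
      ih (rest w j k) (fun w' hw' => h w' (hw'.trans (by rw [length_rest (by omega)]; omega)))]

/-- homogeneity -/
theorem K_supp (i o : D → Λ) {X : List D → R} {l : ℕ} (hX : ∀ w, w.length ≠ l → X w = 0) (n : ℕ) :
    ∀ (w : List D), w.length ≠ (n + 1) * l → K i o X n w = 0 := by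
  induction n with
  | zero => intro w h; exact hX w (by simpa using h)
  | succ n ih =>
    intro w h
    show L i o X (K i o X n) w = 0
    unfold L
    refine Finset.sum_eq_zero fun k hk => Finset.sum_eq_zero fun j hj => ?_
    rw [mem_range] at hk hj
    by_cases h1 : (leaf w j k).length = l
    · rw [ih (rest w j k), mul_zero]
      rw [length_rest (by omega)]
      rw [length_leaf hk.le] at h1
      intro h2
      apply h
      have : (n + 1 + 1) * l = (n + 1) * l + l := by ring
      omega
    · rw [hX _ h1, mul_zero, zero_mul]

theorem flat_succ (n : ℕ) (u : List D) :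
    (List.replicate (n + 1) u).flatten = u ++ (List.replicate n u).flatten := by
  rw [List.replicate_succ, List.flatten_cons]

theorem flat_succ' (n : ℕ) (u : List D) :
    (List.replicate (n + 1) u).flatten = (List.replicate n u).flatten ++ u := by
  rw [List.replicate_succ', List.flatten_append]
  simp

theorem flat_length (n : ℕ) (u : List D) :
    (List.replicate n u).flatten.length = n * u.length := by
  induction n with
  | zero => simp
  | succ n ih => rw [flat_succ, List.length_append, ih]; ring

theorem flat_per (n : ℕ) (u : List D) (t : ℕ) (ht : t < n * u.length) :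
    (List.replicate (n + 1) u).flatten.getD (t + u.length) default =
      (List.replicate (n + 1) u).flatten.getD t default := by
  have h1 : (List.replicate (n + 1) u).flatten.getD (t + u.length) default =
      (List.replicate n u).flatten.getD t default := by
    rw [flat_succ, List.getD_append_right _ _ _ _ (by omega)]
    congr 1
    omega
  have h2 : (List.replicate (n + 1) u).flatten.getD t default =
      (List.replicate n u).flatten.getD t default := by
    rw [flat_succ', List.getD_append _ _ _ _ (by rw [flat_length]; exact ht)]
  rw [h1, h2]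

theorem lk_self (a : Λ × Λ) : lk a a = 0 := by
  unfold lk
  rcases le_or_gt a.2 a.1 with h | h
  · simp [h, not_lt.2 h]
  · simp [h, not_le.2 h]

theorem lkb_self (a : Λ × Λ) : lkb a a = 1 := by
  unfold lkb
  rcases le_or_gt a.2 a.1 with h | h
  · simp [h, not_lt.2 h]
  · simp [h, not_le.2 h]

/-- the value on powers for functions supported on one length -/
theorem K_flat (i o : D → Λ) {X : List D → R} (u : List D) (hu : u ≠ [])
    (hX : ∀ w, w.length ≠ u.length → X w = 0) (n : ℕ) :
    K i o X n (List.replicate (n + 1) u).flatten = X u ^ (n + 1) := by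
  have hm : 0 < u.length := List.length_pos_of_ne_nil hu
  induction n with
  | zero => simp [K]
  | succ n ih =>
    show L i o X (K i o X n) _ = _
    unfold L
    have hlen : (List.replicate (n + 1 + 1) u).flatten.length = (n + 1) * u.length + u.length := by
      rw [flat_length]; ring
    have hnm : u.length ≤ (n + 1) * u.length := Nat.le_mul_of_pos_left _ (Nat.succ_pos n)
    rw [hlen]
    rw [Finset.sum_eq_single_of_mem u.length (by rw [mem_range]; omega),
      Finset.sum_eq_single_of_mem 0 (by rw [mem_range]; exact hm)]
    · have e1 : leaf (List.replicate (n + 1 + 1) u).flatten 0 u.length = u := by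
        unfold leaf
        rw [flat_succ, List.take_left, List.drop_zero]
      have e2 : rest (List.replicate (n + 1 + 1) u).flatten 0 u.length =
          (List.replicate (n + 1) u).flatten := by
        unfold rest
        rw [flat_succ, List.take_zero, List.nil_append, List.drop_left]
      have e3 : pass i o (List.replicate (n + 1 + 1) u).flatten 0 =
          pass i o (List.replicate (n + 1 + 1) u).flatten u.length := by
        unfold pass
        rw [if_pos rfl, if_neg hm.ne', hlen]
        have e4 := flat_per (n + 1) u 0 (by omega)
        rw [zero_add] at e4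
        rw [e4]
        have e5 : ∀ s ≤ n + 1, (List.replicate (n + 1 + 1) u).flatten.getD
            (s * u.length + (u.length - 1)) default =
            (List.replicate (n + 1 + 1) u).flatten.getD (u.length - 1) default := by
          intro s hs
          induction s with
          | zero => simp
          | succ s ih2 =>
            rw [← ih2 (by omega), ← flat_per (n + 1) u (s * u.length + (u.length - 1))]
            · congr 1
              ring
            · have : s * u.length + u.length ≤ (n + 1) * u.length := by
                have := Nat.mul_le_mul_right u.length hs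
                have e6 : (s + 1) * u.length = s * u.length + u.length := by ring
                omega
              omega
        have e7 := e5 (n + 1) le_rfl
        have e8 : (n + 1) * u.length + u.length - 1 = (n + 1) * u.length + (u.length - 1) := by
          omega
        rw [e8, e7]
      unfold cf
      rw [if_pos rfl, e3, lkb_self, e1, e2, ih, Int.cast_one, one_mul, pow_succ' (X u) (n + 1)]
    · intro j hj hj0
      rw [mem_range] at hj
      rw [hX (leaf _ j u.length), mul_zero, zero_mul]
      rw [length_leaf (by rw [hlen]; omega)]
      omega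
    · intro k hk hku
      rw [mem_range] at hk
      refine Finset.sum_eq_zero fun j hj => ?_
      rw [mem_range] at hj
      by_cases h1 : k - j = u.length
      · have hj0 : j ≠ 0 := by omega
        have hk1 : k = j + u.length := by omega
        have e3 : pass i o (List.replicate (n + 1 + 1) u).flatten j =
            pass i o (List.replicate (n + 1 + 1) u).flatten k := by
          unfold pass
          rw [if_neg hj0, if_neg (by omega), hk1]
          have e4 := flat_per (n + 1) u j (by omega)
          have e5 := flat_per (n + 1) u (j - 1) (by omega)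
          rw [e4, show j + u.length - 1 = j - 1 + u.length by omega, e5]
        unfold cf
        rw [if_neg hj0, e3, lk_self, Int.cast_zero, zero_mul, zero_mul]
      · rw [hX (leaf _ j k), mul_zero, zero_mul]
        rw [length_leaf (by rw [hlen]; omega)]
        exact h1

end H692A4

open H692A4

theorem K_pow_of (i o : D → Λ)
    (p : ℕ) [Fact p.Prime] [CharP R p]
    (hder : ∀ (X Y : List D → R) (w : List D),
      Polynomial.derivative (K i o
        (fun w => Polynomial.C (X w) + Polynomial.X * Polynomial.C (Y w)) (p - 1) w) =
      ((br i o (fun w => Polynomial.C (X w) + Polynomial.X * Polynomial.C (Y w)))^[p - 1]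
        (fun w => Polynomial.C (Y w))) w)
    (hbr : ∀ Y Z : List D → Polynomial R, (∀ a u, Y (a :: u) = Y (u ++ [a])) →
      (∀ a u, Z (a :: u) = Z (u ++ [a])) → ∀ a u, br i o Y Z (a :: u) = br i o Y Z (u ++ [a]))
    (hB : ∀ Y Z : List D → Polynomial R, (∀ a u, Y (a :: u) = Y (u ++ [a])) →
      (∀ a u, Z (a :: u) = Z (u ++ [a])) → ∀ u, br i o Y Z (List.replicate p u).flatten = 0)
    (X : List D → R) (hX : ∀ a u, X (a :: u) = X (u ++ [a])) (u : List D) (hu : u ≠ []) :
    K i o X (p - 1) (List.replicate p u).flatten = X u ^ p := by
  classical
  have hp : p.Prime := Fact.out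
  have hp1 : p - 1 + 1 = p := by have := hp.one_lt; omega
  set w := (List.replicate p u).flatten with hw
  have hwl : w.length = p * u.length := by rw [hw, flat_length]
  set Xl : ℕ → List D → R := fun l w => if w.length = l then X w else 0 with hXl
  have hXlr : ∀ l a u, Xl l (a :: u) = Xl l (u ++ [a]) := by
    intro l a u
    rw [hXl]
    simp only [List.length_cons, List.length_append, List.length_nil, zero_add]
    rw [hX]
  have hadd := fun X Y hX hY => add_pow i o p hder hbr hB X Y hX hY u
  have hzero : K i o (fun _ => (0 : R)) (p - 1) w = 0 := by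
    have h1 := hadd (fun _ => 0) (fun _ => 0) (fun _ _ => rfl) (fun _ _ => rfl)
    simp only [add_zero] at h1
    rw [← hw] at h1
    exact left_eq_add.1 h1
  have hsum : ∀ s : Finset ℕ, K i o (fun w => ∑ l ∈ s, Xl l w) (p - 1) w =
      ∑ l ∈ s, K i o (Xl l) (p - 1) w := by
    intro s
    induction s using Finset.induction_on with
    | empty => simpa using hzero
    | insert a s ha ih =>
      simp only [Finset.sum_insert ha]
      rw [← ih]
      refine hadd _ _ (hXlr a) fun b u => ?_
      exact Finset.sum_congr rfl fun l _ => hXlr l b u
  have h1 : K i o X (p - 1) w = K i o (fun w => ∑ l ∈ range (p * u.length + 1), Xl l w) (p - 1) w := by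
    refine K_congr i o (p - 1) w fun w' hw' => ?_
    rw [Finset.sum_eq_single_of_mem w'.length (by rw [mem_range]; omega)]
    · rw [hXl]; simp
    · intro l _ hl
      rw [hXl]
      simp only
      rw [if_neg (Ne.symm hl)]
  have hm : 0 < u.length := List.length_pos_of_ne_nil hu
  have hmem : u.length ∈ range (p * u.length + 1) := by
    rw [mem_range]
    have : 1 * u.length ≤ p * u.length := Nat.mul_le_mul_right _ hp.one_lt.le
    omega
  rw [h1, hsum, Finset.sum_eq_single_of_mem u.length hmem]
  · have h2 := K_flat i o (X := Xl u.length) u hu (fun w' hw' => by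
      rw [hXl]
      simp only
      rw [if_neg hw']) (p - 1)
    rw [hp1] at h2
    rw [hw, h2]
    congr 1
    rw [hXl]
    simp
  · intro l _ hl
    refine K_supp i o (l := l) (fun w' hw' => ?_) (p - 1) w ?_
    · rw [hXl]
      simp only
      rw [if_neg hw']
    · rw [hp1, hwl]
      intro h
      exact hl (Nat.eq_of_mul_eq_mul_left hp.pos h).symm

end Pool.Agent.TH317.CC
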