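import Pool.Agent.TH317.CC.Geo

set_option autoImplicit false
set_option linter.unusedVariables false
set_option linter.unusedSectionVars false

universe u

namespace Pool.Agent.TH317.CC

namespace H692G2

section Walks

variable {D V Λ : Type*} [LinearOrder Λ] {G : Rib D V Λ}

theorem walk_append_iff {w1 w2 : List D} {a c : V} :
    Walk G a c (w1 ++ w2) ↔ ∃ b, Walk G a b w1 ∧ Walk G b c w2 := by
  induction w1 generalizing a with
  | nil =>
    constructor
    · intro h; exact ⟨a, rfl, h⟩
    · rintro ⟨b, h1, h2⟩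
      have : a = b := h1
      rw [List.nil_append, this]; exact h2
  | cons d w1 ih =>
    constructor
    · intro h
      obtain ⟨h1, h2⟩ := h
      obtain ⟨b, h3, h4⟩ := ih.1 h2
      exact ⟨b, ⟨h1, h3⟩, h4⟩
    · rintro ⟨b, ⟨h1, h3⟩, h4⟩
      exact ⟨h1, ih.2 ⟨b, h3, h4⟩⟩

theorem walk_append {w1 w2 : List D} {a b c : V} (h1 : Walk G a b w1) (h2 : Walk G b c w2) :
    Walk G a c (w1 ++ w2) := walk_append_iff.2 ⟨b, h1, h2⟩

theorem tl_inv (d : D) : G.tl (G.inv d) = G.hd d := rfl

theorem hd_inv (d : D) : G.hd (G.inv d) = G.tl d := by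
  unfold Rib.hd
  rw [G.inv_inv]

theorem rev_cons (d : D) (w : List D) : G.rev (d :: w) = G.rev w ++ [G.inv d] := by
  unfold Rib.rev
  simp

theorem rev_snoc (d : D) (w : List D) : G.rev (w ++ [d]) = G.inv d :: G.rev w := by
  unfold Rib.rev
  simp

theorem walk_rev {w : List D} {a b : V} (h : Walk G a b w) : Walk G b a (G.rev w) := by
  induction w generalizing a with
  | nil =>
    have : a = b := h
    exact this.symm
  | cons d w ih =>
    obtain ⟨h1, h2⟩ := h
    rw [rev_cons]
    refine walk_append (ih h2) ⟨rfl, ?_⟩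
    show G.hd (G.inv d) = a
    rw [hd_inv, h1]

theorem del_ctx {Fc : Set (List D)} {z z' : List D} (h : Del G Fc z z') (p q : List D) :
    Del G Fc (p ++ z ++ q) (p ++ z' ++ q) := by
  cases h with
  | spur u a v =>
    have := Del.spur (G := G) (Fc := Fc) (p ++ u) a (v ++ q)
    simpa using this
  | face u f v hf =>
    have := Del.face (G := G) (Fc := Fc) (p ++ u) f (v ++ q) hf
    simpa using this

end Walks

section Rot

theorem exists_rotate {α : Type*} (w : List α) (m k : ℕ) :
    ∃ k', (w.rotate m).rotate k' = w.rotate k := by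
  rcases Nat.eq_zero_or_pos w.length with h | h
  · rw [List.length_eq_zero_iff] at h
    subst h
    exact ⟨0, by simp⟩
  · refine ⟨k + m * (w.length - 1), ?_⟩
    have e1 : m + (k + m * (w.length - 1)) = w.length * m + k := by
      obtain ⟨t, ht⟩ : ∃ t, w.length = t + 1 := ⟨w.length - 1, by omega⟩
      rw [ht]
      simp only [Nat.add_sub_cancel]
      ring
    rw [List.rotate_rotate, e1, ← List.rotate_rotate, List.rotate_length_mul]

variable {M : Type u} [MetricSpace M] {D Λ : Type u} [LinearOrder Λ] {G : Rib D M Λ}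

theorem Rl_rot {r ℓ : ℝ} {n : ℕ} {w : List D} (h : Rl G r ℓ n w) (m : ℕ) :
    Rl G r ℓ n (w.rotate m) := by
  obtain ⟨k, x, P, h1, h2⟩ := h
  obtain ⟨k', hk'⟩ := exists_rotate w m k
  exact ⟨k', x, P, by rw [hk']; exact h1, h2⟩

/-- equivalence through steps -/
def E (G : Rib D M Λ) (Fc : Set (List D)) (r ℓ : ℝ) (N : ℕ) (w w' : List D) : Prop :=
  Relation.ReflTransGen (Step G Fc (Rl G r ℓ) N) w w' ∧
  Relation.ReflTransGen (Step G Fc (Rl G r ℓ) N) w' w

variable {Fc : Set (List D)} {r ℓ : ℝ} {N : ℕ}

theorem E.refl (w : List D) : E G Fc r ℓ N w w :=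
  ⟨Relation.ReflTransGen.refl, Relation.ReflTransGen.refl⟩

theorem E.symm {w w' : List D} (h : E G Fc r ℓ N w w') : E G Fc r ℓ N w' w := ⟨h.2, h.1⟩

theorem E.trans {w w' w'' : List D} (h : E G Fc r ℓ N w w') (h' : E G Fc r ℓ N w' w'') :
    E G Fc r ℓ N w w'' := ⟨h.1.trans h'.1, h'.2.trans h.2⟩

theorem E_del {w w' : List D} (h : Del G Fc w w') (h1 : Rl G r ℓ N w) (h2 : Rl G r ℓ N w') :
    E G Fc r ℓ N w w' :=
  ⟨Relation.ReflTransGen.single ⟨h1, h2, Or.inl h⟩,
    Relation.ReflTransGen.single ⟨h2, h1, Or.inr (Or.inl h)⟩⟩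

theorem rtg_rot {w : List D} (h : Rl G r ℓ N w) (m : ℕ) :
    Relation.ReflTransGen (Step G Fc (Rl G r ℓ) N) w (w.rotate m) := by
  induction m with
  | zero => rw [List.rotate_zero]
  | succ m ih =>
    refine ih.trans ?_
    have h1 := Rl_rot h m
    have h2 := Rl_rot h (m + 1)
    have e1 : w.rotate (m + 1) = (w.rotate m).rotate 1 := by rw [List.rotate_rotate]
    rw [e1] at h2 ⊢
    generalize w.rotate m = w' at h1 h2
    cases w' with
    | nil => simp only [List.rotate_nil]; exact Relation.ReflTransGen.refl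
    | cons a l =>
      have e2 : (a :: l).rotate 1 = l ++ [a] := by simp
      rw [e2] at h2 ⊢
      exact Relation.ReflTransGen.single ⟨h1, h2, Or.inr (Or.inr ⟨a, l, rfl, rfl⟩)⟩

theorem E_rot {w : List D} (h : Rl G r ℓ N w) (m : ℕ) : E G Fc r ℓ N w (w.rotate m) := by
  refine ⟨rtg_rot h m, ?_⟩
  obtain ⟨k', hk'⟩ := exists_rotate w m 0
  have := rtg_rot (Fc := Fc) (Rl_rot h m) k'
  rw [hk', List.rotate_zero] at this
  exact this

end Rot

section Main

variable {M : Type u} [MetricSpace M] {D Λ : Type u} [LinearOrder Λ] {G : Rib D M Λ}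

theorem chl_map (V : M → M) (K : Set M) {ρ : ℝ} (hV : ∀ x ∈ K, dist x (V x) ≤ ρ) :
    ∀ (l : List M) (x : M), (∀ y ∈ x :: l, y ∈ K) →
      chl ((x :: l).map V) ≤ chl (x :: l) + 2 * ρ * l.length := by
  intro l
  induction l with
  | nil => intro x _; simp [chl]
  | cons y l ih =>
    intro x h
    have h1 := ih y (fun z hz => h z (List.mem_cons_of_mem _ hz))
    have h2 := hV x (h x List.mem_cons_self)
    have h3 := hV y (h y (List.mem_cons_of_mem _ List.mem_cons_self))
    have h4 : dist (V x) (V y) ≤ dist x y + 2 * ρ := by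
      have a1 := dist_triangle (V x) x (V y)
      have a2 := dist_triangle x y (V y)
      rw [dist_comm (V x) x] at a1
      linarith
    have e1 : chl ((x :: y :: l).map V) = dist (V x) (V y) + chl ((y :: l).map V) := rfl
    have e2 : chl (x :: y :: l) = dist x y + chl (y :: l) := rfl
    rw [e1, e2]
    simp only [List.length_cons]
    push_cast
    linarith

theorem chw_cons (W : M → M → List D) (x z : M) (l : List M) :
    chw W (x :: z :: l) = W x z ++ chw W (z :: l) := rfl

theorem chw_snoc (W : M → M → List D) : ∀ (l : List M) (y x z : M),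
    chw W (y :: (l ++ [x, z])) = chw W (y :: (l ++ [x])) ++ W x z := by
  intro l
  induction l with
  | nil => intro y x z; simp [chw]
  | cons y' l ih =>
    intro y x z
    have := ih y' x z
    simp only [List.cons_append, chw_cons, List.append_assoc] at this ⊢
    rw [this]

/-- blocks of a chain -/
theorem bw_chain {V : M → M} {W : M → M → List D} {K : Set M} {c R : ℝ}
    (hW : ∀ x ∈ K, ∀ y ∈ K, dist x y ≤ c → Walk G (V x) (V y) (W x y) ∧
      SmallW G R (V x) (W x y)) :
    ∀ (l : List M) (x z : M), (l ++ [x]).head? = some z →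
      List.IsChain (fun a b => dist a b ≤ c) (l ++ [x]) → (∀ y ∈ l ++ [x], y ∈ K) →
      BW G R (V z) (V x) (chw W (l ++ [x])) (l.map V) := by
  intro l
  induction l with
  | nil =>
    intro x z hz _ _
    simp only [List.nil_append, List.head?_cons, Option.some.injEq] at hz
    subst hz
    exact BW.nil _
  | cons y l ih =>
    intro x z hz hc hK
    simp only [List.cons_append, List.head?_cons, Option.some.injEq] at hz
    subst hz
    obtain ⟨z', l', hl'⟩ : ∃ z' l', l ++ [x] = z' :: l' := by
      cases l with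
      | nil => exact ⟨x, [], rfl⟩
      | cons a l => exact ⟨a, l ++ [x], rfl⟩
    have h1 := ih x z' (by rw [hl']; rfl)
    rw [List.cons_append, hl'] at hc hK
    rw [List.cons_append, hl', chw_cons, List.map_cons]
    rw [List.isChain_cons_cons] at hc
    have h2 := hW y (hK y List.mem_cons_self) z'
      (hK z' (List.mem_cons_of_mem _ List.mem_cons_self)) hc.1
    refine BW.cons _ _ _ _ _ _ h2.1 h2.2 ?_
    rw [← hl']
    refine h1 ?_ ?_
    · rw [hl']; exact hc.2
    · rw [hl']; exact fun y hy => hK y (List.mem_cons_of_mem _ hy)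

end Main

end H692G2

open H692G2

theorem lift_chain {M : Type u} [MetricSpace M] {D Λ : Type u} [LinearOrder Λ] [Inhabited D]
    (G : Rib D M Λ) (Fc : Set (List D)) (K K' : Set M) (r a b ρ : ℝ)
    (h : FCell G K K' r a b ρ Fc) (ha : 0 < a) (hb : 0 < b) (har : a ≤ r) (hba : b ≤ a / 2)
    (hρ0 : 0 < ρ) (hρ : ρ < b / 2) (n N : ℕ) (L0 L1 : ℝ)
    (hL : L0 + 2 * n * ρ ≤ L1 - N * (4 * (2 * r))) :
    ∃ (V : M → M) (W : M → M → List D), (∀ x ∈ K, V x ∈ K' ∧ dist x (V x) ≤ ρ) ∧
      (∀ x ∈ K, ∀ y ∈ K, dist x y ≤ b / 2 → Walk G (V x) (V y) (W x y) ∧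
        ∀ e ∈ W x y, dist x (G.tl e) < a / 2 ∧ dist x (G.hd e) < a / 2) ∧
      ∀ P P', PStepN n (b / 2) L0 K P P' →
        Relation.ReflTransGen (Step G Fc (Rl G (2 * r) L1) N) (cword W P) (cword W P') := by
  classical
  -- choice of the darts
  have hd : ∀ x, ∃ d : D, x ∈ K → dist x (G.tl d) ≤ ρ := by
    intro x
    by_cases hx : x ∈ K
    · obtain ⟨d, hd⟩ := h.dense x hx
      exact ⟨d, fun _ => hd⟩
    · exact ⟨default, fun hx' => absurd hx' hx⟩
  choose dd hdd using hd
  set V : M → M := fun x => G.tl (dd x) with hV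
  have hVρ : ∀ x ∈ K, dist x (V x) ≤ ρ := fun x hx => hdd x hx
  have hw : ∀ x y, ∃ w : List D, x ∈ K → y ∈ K → dist x y ≤ b / 2 → Walk G (V x) (V y) w ∧
      ∀ e ∈ w, dist x (G.tl e) < a / 2 ∧ dist x (G.hd e) < a / 2 := by
    intro x y
    by_cases hc : x ∈ K ∧ y ∈ K ∧ dist x y ≤ b / 2
    · obtain ⟨hx, hy, hxy⟩ := hc
      obtain ⟨w, hw⟩ := h.conn x hx (dd x) (dd y) (by linarith [hdd x hx])
        (by linarith [hdd y hy, dist_triangle x y (G.tl (dd y))])
      exact ⟨w, fun _ _ _ => hw⟩
    · exact ⟨[], fun hx hy hxy => absurd ⟨hx, hy, hxy⟩ hc⟩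
  choose W hW using hw
  have hWw : ∀ x ∈ K, ∀ y ∈ K, dist x y ≤ b / 2 → Walk G (V x) (V y) (W x y) ∧
      ∀ e ∈ W x y, dist x (G.tl e) < a / 2 ∧ dist x (G.hd e) < a / 2 :=
    fun x hx y hy hxy => hW x y hx hy hxy
  refine ⟨V, W, fun x hx => ⟨h.inK' _, hVρ x hx⟩, hWw, ?_⟩
  -- small walks
  have hsmall : ∀ x ∈ K, ∀ A : List D, (∀ e ∈ A, dist x (G.tl e) < r ∧ dist x (G.hd e) < r) →
      SmallW G (2 * r) (V x) A := by
    intro x hx A hA
    have h1 : ∀ c ∈ V x :: A.map G.hd, dist x c < r := by
      intro c hc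
      rcases List.mem_cons.1 hc with rfl | hc
      · have := hVρ x hx
        linarith
      · obtain ⟨e, he, rfl⟩ := List.mem_map.1 hc
        exact (hA e he).2
    intro c hc c' hc'
    have h2 := h1 c hc
    have h3 := h1 c' hc'
    have h4 := dist_triangle c x c'
    rw [dist_comm c x] at h4
    linarith
  have hWs : ∀ x ∈ K, ∀ y ∈ K, dist x y ≤ b / 2 → Walk G (V x) (V y) (W x y) ∧
      SmallW G (2 * r) (V x) (W x y) := by
    intro x hx y hy hxy
    obtain ⟨h1, h2⟩ := hWw x hx y hy hxy
    exact ⟨h1, hsmall x hx _ fun e he => ⟨by linarith [(h2 e he).1], by linarith [(h2 e he).2]⟩⟩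
  -- levels
  have hRl : ∀ (x : M) (l : List M) (z : M) (l' : List M) (A : List D), l ++ [x] = z :: l' →
      Good (b / 2) L0 K (x :: l) → (x :: l).length ≤ n → Walk G (V x) (V z) A →
      (∀ e ∈ A, dist x (G.tl e) < r ∧ dist x (G.hd e) < r) →
      Rl G (2 * r) L1 N (A ++ chw W (z :: l')) := by
    intro x l z l' A hl hG hn hA hA'
    obtain ⟨g1, g2, g3⟩ := hG
    have hx : x ∈ K := g3 x List.mem_cons_self
    have hK : ∀ y ∈ l ++ [x], y ∈ K := by
      intro y hy
      rw [List.mem_append, List.mem_singleton] at hy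
      rcases hy with hy | rfl
      · exact g3 y (List.mem_cons_of_mem _ hy)
      · exact hx
    have hch : List.IsChain (fun a b' => dist a b' ≤ b / 2) (l ++ [x]) := by
      have := g1
      rw [hl, List.isChain_cons_cons] at this
      rw [hl]
      exact this.2
    have hbw := bw_chain (G := G) hWs l x z (by rw [hl]; rfl) hch hK
    refine ⟨0, V x, V x :: l.map V, ?_, ?_⟩
    · rw [List.rotate_zero, ← hl]
      exact BW.cons _ _ _ _ _ _ hA (hsmall x hx A hA') hbw
    · have h1 := chl_map V K hVρ (l ++ [x]) x (fun y hy => by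
        rcases List.mem_cons.1 hy with rfl | hy
        · exact hx
        · exact hK y hy)
      have e1 : (x :: (l ++ [x])).map V = V x :: l.map V ++ [V x] := by simp
      rw [e1] at h1
      have h2 : ((l ++ [x]).length : ℝ) ≤ n := by
        have : (l ++ [x]).length ≤ n := by
          simp only [List.length_append, List.length_cons, List.length_nil] at hn ⊢
          omega
        exact_mod_cast this
      have h3 : 2 * ρ * ((l ++ [x]).length : ℝ) ≤ 2 * ρ * n :=
        mul_le_mul_of_nonneg_left h2 (by linarith)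
      calc chl (V x :: l.map V ++ [V x]) ≤ chl (x :: (l ++ [x])) + 2 * ρ * (l ++ [x]).length := h1
        _ < L0 + 2 * n * ρ := by linarith
        _ ≤ _ := hL
  have hnext : ∀ (l : List M) (x : M), ∃ z l', l ++ [x] = z :: l' := by
    intro l x
    cases l with
    | nil => exact ⟨x, [], rfl⟩
    | cons y l => exact ⟨y, l ++ [x], rfl⟩
  -- the moves
  have hmove : ∀ P P', PMove P P' → Good (b / 2) L0 K P → Good (b / 2) L0 K P' →
      P.length ≤ n → P'.length ≤ n → E G Fc (2 * r) L1 N (cword W P) (cword W P') := by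
    intro P P' hm hG hG' hn hn'
    cases hm with
    | rot x l =>
      cases l with
      | nil => exact E.refl _
      | cons y l =>
        have hxy : dist x y ≤ b / 2 := by
          have := hG.1
          rw [List.cons_append, List.isChain_cons_cons] at this
          exact this.1
        have hx : x ∈ K := hG.2.2 x List.mem_cons_self
        have hy : y ∈ K := hG.2.2 y (List.mem_cons_of_mem _ List.mem_cons_self)
        have e1 : cword W (x :: y :: l) = W x y ++ chw W (y :: (l ++ [x])) := rfl
        have e2 : cword W (y :: l ++ [x]) = chw W (y :: (l ++ [x])) ++ W x y := by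
          have := chw_snoc W l y x y
          show chw W (y :: ((l ++ [x]) ++ [y])) = _
          rw [← this]
          simp
        obtain ⟨w1, w2⟩ := hWw x hx y hy hxy
        have h1 : Rl G (2 * r) L1 N (cword W (x :: y :: l)) := by
          rw [e1]
          exact hRl x (y :: l) y (l ++ [x]) _ rfl hG hn w1
            (fun e he => ⟨by linarith [(w2 e he).1], by linarith [(w2 e he).2]⟩)
        have h2 := E_rot (Fc := Fc) h1 (W x y).length
        have e3 : (cword W (x :: y :: l)).rotate (W x y).length = cword W (y :: l ++ [x]) := by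
          rw [e1, e2, List.rotate_append_length_eq]
        rw [e3] at h2
        exact h2
    | ins x y l =>
      obtain ⟨z, l', hl⟩ := hnext l x
      have e1 : cword W (x :: l) = W x z ++ chw W (z :: l') := by
        show chw W (x :: (l ++ [x])) = _
        rw [hl, chw_cons]
      have e2 : cword W (x :: y :: l) = (W x y ++ W y z) ++ chw W (z :: l') := by
        show chw W (x :: y :: (l ++ [x])) = _
        rw [hl, chw_cons, chw_cons, List.append_assoc]
      have hx : x ∈ K := hG.2.2 x List.mem_cons_self
      have hy : y ∈ K := hG'.2.2 y (List.mem_cons_of_mem _ List.mem_cons_self)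
      have hz : z ∈ K := by
        have : z ∈ l ++ [x] := by rw [hl]; exact List.mem_cons_self
        rw [List.mem_append, List.mem_singleton] at this
        rcases this with h1 | rfl
        · exact hG.2.2 z (List.mem_cons_of_mem _ h1)
        · exact hx
      have hxz : dist x z ≤ b / 2 := by
        have := hG.1
        rw [hl, List.isChain_cons_cons] at this
        exact this.1
      have hxyz : dist x y ≤ b / 2 ∧ dist y z ≤ b / 2 := by
        have := hG'.1
        rw [List.cons_append, hl, List.isChain_cons_cons, List.isChain_cons_cons] at this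
        exact ⟨this.1, this.2.1⟩
      obtain ⟨wxz, wxz'⟩ := hWw x hx z hz hxz
      obtain ⟨wxy, wxy'⟩ := hWw x hx y hy hxyz.1
      obtain ⟨wyz, wyz'⟩ := hWw y hy z hz hxyz.2
      -- all letters are in the ball of radius `a`
      have bxz : ∀ e ∈ W x z, dist x (G.tl e) < a ∧ dist x (G.hd e) < a :=
        fun e he => ⟨by linarith [(wxz' e he).1], by linarith [(wxz' e he).2]⟩
      have bB : ∀ e ∈ W x y ++ W y z, dist x (G.tl e) < a ∧ dist x (G.hd e) < a := by
        intro e he
        rcases List.mem_append.1 he with he | he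
        · exact ⟨by linarith [(wxy' e he).1], by linarith [(wxy' e he).2]⟩
        · have t1 := dist_triangle x y (G.tl e)
          have t2 := dist_triangle x y (G.hd e)
          exact ⟨by linarith [(wyz' e he).1], by linarith [(wyz' e he).2]⟩
      have brev : ∀ w : List D, (∀ e ∈ w, dist x (G.tl e) < a ∧ dist x (G.hd e) < a) →
          ∀ e ∈ G.rev w, dist x (G.tl e) < a ∧ dist x (G.hd e) < a := by
        intro w hw e he
        unfold Rib.rev at he
        rw [List.mem_reverse, List.mem_map] at he
        obtain ⟨e', he', rfl⟩ := he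
        rw [tl_inv, hd_inv]
        exact ⟨(hw e' he').2, (hw e' he').1⟩
      have wB : Walk G (V x) (V z) (W x y ++ W y z) := walk_append wxy wyz
      have wz0 : Walk G (V z) (V z) (G.rev (W x z) ++ (W x y ++ W y z)) :=
        walk_append (walk_rev wxz) wB
      have bz0 : ∀ e ∈ G.rev (W x z) ++ (W x y ++ W y z),
          dist x (G.tl e) < a ∧ dist x (G.hd e) < a := by
        intro e he
        rcases List.mem_append.1 he with he | he
        · exact brev _ bxz e he
        · exact bB e he
      have hball : ∀ w : List D, (∀ e ∈ w, dist x (G.tl e) < a ∧ dist x (G.hd e) < a) →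
          ∀ e ∈ w, dist x (G.tl e) < r ∧ dist x (G.hd e) < r :=
        fun w hw e he => ⟨by linarith [(hw e he).1], by linarith [(hw e he).2]⟩
      have hRlA : ∀ A : List D, Walk G (V x) (V z) A →
          (∀ e ∈ A, dist x (G.tl e) < r ∧ dist x (G.hd e) < r) →
          Rl G (2 * r) L1 N (A ++ chw W (z :: l')) := fun A hA hA' =>
        hRl x l z l' A hl hG hn hA hA'
      have hctr := h.contr x hx (V z) _ wz0
        (by linarith [dist_triangle x z (V z), hVρ z hz]) bz0
      -- first part
      have hpart1 : ∀ ζ, Relation.ReflTransGen (fun q q' => (Del G Fc q q' ∨ Del G Fc q' q) ∧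
          Walk G (V z) (V z) q' ∧
          ∀ e ∈ q', dist x (G.tl e) < r ∧ dist x (G.hd e) < r)
          (G.rev (W x z) ++ (W x y ++ W y z)) ζ →
          Walk G (V z) (V z) ζ ∧ (∀ e ∈ ζ, dist x (G.tl e) < r ∧ dist x (G.hd e) < r) ∧
          E G Fc (2 * r) L1 N (W x z ++ (G.rev (W x z) ++ (W x y ++ W y z)) ++ chw W (z :: l'))
            (W x z ++ ζ ++ chw W (z :: l')) := by
        have hA : ∀ ζ, Walk G (V z) (V z) ζ →
            (∀ e ∈ ζ, dist x (G.tl e) < r ∧ dist x (G.hd e) < r) →
            Rl G (2 * r) L1 N (W x z ++ ζ ++ chw W (z :: l')) := by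
          intro ζ h1 h2
          refine hRlA _ (walk_append wxz h1) fun e he => ?_
          rcases List.mem_append.1 he with he | he
          · exact hball _ bxz e he
          · exact h2 e he
        intro ζ hζ
        induction hζ with
        | refl => exact ⟨wz0, hball _ bz0, E.refl _⟩
        | tail _ hs ih =>
          obtain ⟨i1, i2, i3⟩ := ih
          obtain ⟨s1, s2, s3⟩ := hs
          refine ⟨s2, s3, i3.trans ?_⟩
          rcases s1 with s1 | s1
          · exact E_del (del_ctx s1 _ _) (hA _ i1 i2) (hA _ s2 s3)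
          · exact (E_del (del_ctx s1 _ _) (hA _ s2 s3) (hA _ i1 i2)).symm
      obtain ⟨-, -, p1⟩ := hpart1 [] hctr
      rw [List.append_nil] at p1
      -- second part
      have hpart2 : ∀ (w : List D) (u : M), Walk G (V x) u w →
          (∀ e ∈ w, dist x (G.tl e) < a ∧ dist x (G.hd e) < a) →
          E G Fc (2 * r) L1 N (w ++ (G.rev w ++ (W x y ++ W y z)) ++ chw W (z :: l'))
            ((W x y ++ W y z) ++ chw W (z :: l')) := by
        intro w
        induction w using List.reverseRecOn with
        | nil => intro u _ _; exact E.refl _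
        | append_singleton w d ih =>
          intro u hwu hwa
          obtain ⟨u', hu1, hu2, hu3⟩ := walk_append_iff.1 hwu
          have hwa' : ∀ e ∈ w, dist x (G.tl e) < a ∧ dist x (G.hd e) < a :=
            fun e he => hwa e (List.mem_append_left _ he)
          refine E.trans ?_ (ih u' hu1 hwa')
          have hdel : Del G Fc (w ++ [d] ++ (G.rev (w ++ [d]) ++ (W x y ++ W y z)) ++
              chw W (z :: l')) (w ++ (G.rev w ++ (W x y ++ W y z)) ++ chw W (z :: l')) := by
            have := Del.spur (G := G) (Fc := Fc) w d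
              (G.rev w ++ (W x y ++ W y z) ++ chw W (z :: l'))
            rw [rev_snoc]
            simpa using this
          refine E_del hdel (hRlA _ ?_ ?_) (hRlA _ ?_ ?_)
          · exact walk_append hwu (walk_append (walk_rev hwu) wB)
          · refine hball _ fun e he => ?_
            rcases List.mem_append.1 he with he | he
            · exact hwa e he
            · rcases List.mem_append.1 he with he | he
              · exact brev _ hwa e he
              · exact bB e he
          · exact walk_append hu1 (walk_append (walk_rev hu1) wB)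
          · refine hball _ fun e he => ?_
            rcases List.mem_append.1 he with he | he
            · exact hwa' e he
            · rcases List.mem_append.1 he with he | he
              · exact brev _ hwa' e he
              · exact bB e he
      rw [e1, e2]
      exact p1.symm.trans (hpart2 (W x z) (V z) wxz bxz)
  intro P P' hP
  obtain ⟨⟨hG, hG', hm⟩, hn, hn'⟩ := hP
  rcases hm with hm | hm
  · exact (hmove P P' hm hG hG' hn hn').1
  · exact (hmove P' P hm hG' hG hn' hn).2

end Pool.Agent.TH317.CC
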