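import Pool.Agent.TH317.CC.Alg

set_option autoImplicit false
set_option linter.unusedVariables false

namespace Pool.Agent.TH317.CC

open Finset

variable {D Λ R : Type*} [LinearOrder Λ] [CommRing R] [Inhabited D]

namespace H692Disc

section Rot

/-- rotation by several letters -/
theorem rot_gen {α : Type*} {P : List α → Prop} (h : ∀ a l, P (a :: l) → P (l ++ [a]))
    (s : List α) : ∀ t, P (s ++ t) → P (t ++ s) := by
  induction s with
  | nil => intro t ht; simpa using ht
  | cons b s ih =>
    intro t ht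
    have h1 : P (s ++ (t ++ [b])) := by
      have := h b (s ++ t) (by simpa using ht)
      simpa using this
    have h2 := ih _ h1
    simpa using h2

theorem rot_eq {α β : Type*} {I : List α → β} (h : ∀ a l, I (a :: l) = I (l ++ [a]))
    (s : List α) : ∀ t, I (s ++ t) = I (t ++ s) := by
  induction s with
  | nil => intro t; simp
  | cons b s ih =>
    intro t
    have h1 := h b (s ++ t)
    have h2 := ih (t ++ [b])
    simp only [List.cons_append, List.append_assoc, List.singleton_append, List.nil_append] at h1 h2 ⊢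
    rw [h1, h2]

end Rot

variable {V : Type*}

theorem rl_le {G : Rib D V Λ} {Fc : Set (List D)} {Rl : ℕ → List D → Prop} (hL : Lev G Fc Rl)
    {n m : ℕ} (h : n ≤ m) {w : List D} (hw : Rl m w) : Rl n w := by
  induction m, h using Nat.le_induction with
  | base => exact hw
  | succ m _ ih => exact ih (hL.mono m w hw)

theorem leaf_mem {w : List D} {j k : ℕ} {a : D} (h : a ∈ leaf w j k) : a ∈ w :=
  List.mem_of_mem_take (List.mem_of_mem_drop h)

/-- the cut function vanishes when `X` vanishes on all the words with letters in `w` -/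
theorem K_zero (i o : D → Λ) (X : List D → R) (n : ℕ) (w : List D)
    (h : ∀ w', (∀ a ∈ w', a ∈ w) → X w' = 0) : K i o X (n + 1) w = 0 := by
  show L i o X (K i o X n) w = 0
  unfold L
  refine Finset.sum_eq_zero fun k _ => Finset.sum_eq_zero fun j _ => ?_
  rw [h (leaf w j k) fun a ha => leaf_mem ha, mul_zero, zero_mul]

/-- invariance under a deletion, for a rotation invariant function -/
theorem del_aux {p : ℕ} {I : List D → ZMod p} {Rn : List D → Prop} {Sm : List D → Prop}
    (hI : ∀ a l, I (a :: l) = I (l ++ [a])) (hR : ∀ a l, Rn (a :: l) → Rn (l ++ [a]))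
    (hI0 : ∀ w, Sm w → I w = 0) (z : List D) (C : D → Prop)
    (hz : ∀ x v e, C e → Rn (x ++ z ++ (v ++ [e])) → I (x ++ z ++ (v ++ [e])) = I (x ++ (v ++ [e])))
    (hS : ∀ y, (∀ e ∈ y, ¬ C e) → Sm (z ++ y) ∧ Sm y) (u v : List D)
    (hw : Rn (u ++ z ++ v)) : I (u ++ z ++ v) = I (u ++ v) := by
  have e1 : I (u ++ z ++ v) = I (z ++ (v ++ u)) := by
    have := rot_eq hI u (z ++ v)
    simpa using this
  have e2 : I (u ++ v) = I (v ++ u) := rot_eq hI u v
  have e3 : Rn (z ++ (v ++ u)) := by
    have := rot_gen (P := Rn) hR u (z ++ v) (by simpa using hw)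
    simpa using this
  rw [e1, e2]
  generalize v ++ u = y at e3
  by_cases hy : ∃ e ∈ y, C e
  · obtain ⟨e, he, hC⟩ := hy
    obtain ⟨y1, y2, rfl⟩ := List.append_of_mem he
    have e4 : I (z ++ (y1 ++ e :: y2)) = I (y2 ++ z ++ (y1 ++ [e])) := by
      have := rot_eq hI (z ++ (y1 ++ [e])) y2
      simpa using this
    have e5 : I (y1 ++ e :: y2) = I (y2 ++ (y1 ++ [e])) := by
      have := rot_eq hI (y1 ++ [e]) y2
      simpa using this
    have e6 : Rn (y2 ++ z ++ (y1 ++ [e])) := by
      have := rot_gen (P := Rn) hR (z ++ (y1 ++ [e])) y2 (by simpa using e3)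
      simpa using this
    rw [e4, e5]
    exact hz y2 y1 e hC e6
  · have h := hS y (fun e he hC => hy ⟨e, he, hC⟩)
    rw [hI0 _ h.1, hI0 _ h.2]

end H692Disc

open H692Disc

theorem discrete_of {V : Type*} [Nonempty V] (p : ℕ) [Fact p.Prime] (G : Rib D V Λ)
    (Fc : Set (List D)) (Rl : ℕ → List D → Prop) (hL : Lev G Fc Rl)
    (hF : ∀ f ∈ Fc, IsFace G f) (Sm : List D → Prop)
    (hSm : ∀ w w', Sm w → (∀ a ∈ w', a ∈ w) → Sm w')
    (hSe : ∀ a w, (∀ b ∈ w, b = a ∨ b = G.inv a) → Sm w)
    (hSf : ∀ f ∈ Fc, ∀ w, (∀ b ∈ w, ∃ c ∈ f, b = c ∨ b = G.inv c) → Sm w)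
    (hrot : ∀ X : List D → ZMod p, (∀ a u, X (a :: u) = X (u ++ [a])) → ∀ a u,
      K G.ipos G.pos X (p - 1) (a :: u) = K G.ipos G.pos X (p - 1) (u ++ [a]))
    (hpow : ∀ X : List D → ZMod p, (∀ a u, X (a :: u) = X (u ++ [a])) → ∀ u ≠ [],
      K G.ipos G.pos X (p - 1) (List.replicate p u).flatten = X u ^ p)
    (hspur : ∀ X : List D → ZMod p, Cls G Fc Rl X →
      ∀ (n : ℕ) (u v : List D) (a e : D), e ≠ a → e ≠ G.inv a →
      Rl (4 * n + 4) (u ++ [a, G.inv a] ++ (v ++ [e])) →
      K G.ipos G.pos X n (u ++ [a, G.inv a] ++ (v ++ [e]))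
        = K G.ipos G.pos X n (u ++ (v ++ [e])))
    (hface : ∀ X : List D → ZMod p, Cls G Fc Rl X →
      ∀ (n : ℕ) (u v f : List D) (e : D), f ∈ Fc → (∀ b ∈ f, e ≠ b ∧ e ≠ G.inv b) →
      Rl (4 * n + 8) (u ++ f ++ (v ++ [e])) →
      K G.ipos G.pos X n (u ++ f ++ (v ++ [e])) = K G.ipos G.pos X n (u ++ (v ++ [e])))
    (u z : List D) (hu : u ≠ []) (hRu : Rl 0 u) (hz : Sm z)
    (hch : Relation.ReflTransGen (Step G Fc Rl (4 * p + 8)) (List.replicate p u).flatten z) :
    ∃ z', Sm z' ∧ Relation.ReflTransGen (Step G Fc Rl 0) u z' := by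
  classical
  have hp : p.Prime := Fact.out
  by_contra hcon
  push Not at hcon
  set X : List D → ZMod p := fun w =>
    if Relation.ReflTransGen (Step G Fc Rl 0) u w then 1 else 0 with hX
  have hR0 : ∀ w, Relation.ReflTransGen (Step G Fc Rl 0) u w → Rl 0 w := by
    intro w hw
    rcases Relation.ReflTransGen.cases_tail hw with h | ⟨c, _, h⟩
    · rw [h]; exact hRu
    · exact h.2.1
  have hstep : ∀ a l, Relation.ReflTransGen (Step G Fc Rl 0) u (a :: l) →
      Relation.ReflTransGen (Step G Fc Rl 0) u (l ++ [a]) := by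
    intro a l h
    have h1 := hR0 _ h
    exact h.tail ⟨h1, hL.rot 0 a l h1, Or.inr (Or.inr ⟨a, l, rfl, rfl⟩)⟩
  have hXr : ∀ a l, X (a :: l) = X (l ++ [a]) := by
    intro a l
    have h1 : Relation.ReflTransGen (Step G Fc Rl 0) u (a :: l) ↔
        Relation.ReflTransGen (Step G Fc Rl 0) u (l ++ [a]) := by
      constructor
      · exact hstep a l
      · intro h
        have := rot_gen (P := Relation.ReflTransGen (Step G Fc Rl 0) u) hstep l [a] h
        simpa using this
    rw [hX]
    simp only [h1]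
  have hXs : ∀ w, Sm w → X w = 0 := by
    intro w hw
    rw [hX]
    simp only
    rw [if_neg (hcon w hw)]
  have hcls : Cls G Fc Rl X := by
    refine ⟨hXr, ?_, ?_⟩
    · intro w w' hd h1 h2
      have h3 : Relation.ReflTransGen (Step G Fc Rl 0) u w ↔
          Relation.ReflTransGen (Step G Fc Rl 0) u w' :=
        ⟨fun h => h.tail ⟨h1, h2, Or.inl hd⟩, fun h => h.tail ⟨h2, h1, Or.inr (Or.inl hd)⟩⟩
      rw [hX]
      simp only [h3]
    · exact hXs _ (hSe default [] (by simp))
  set I : List D → ZMod p := fun w => K G.ipos G.pos X (p - 1) w with hI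
  have hIr : ∀ a l, I (a :: l) = I (l ++ [a]) := fun a l => hrot X hXr a l
  have hI0 : ∀ w, Sm w → I w = 0 := by
    intro w hw
    have h1 : p - 1 = (p - 2) + 1 := by have := hp.two_le; omega
    rw [hI]
    simp only
    rw [h1]
    exact K_zero _ _ X (p - 2) w fun w' hw' => hXs w' (hSm w w' hw hw')
  have hIu : I (List.replicate p u).flatten = 1 := by
    have h1 := hpow X hXr u hu
    have h2 : X u = 1 := by
      rw [hX]
      simp only
      rw [if_pos Relation.ReflTransGen.refl]
    rw [h2, one_pow] at h1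
    exact h1
  have hdel : ∀ w w', Del G Fc w w' → Rl (4 * p + 8) w → I w = I w' := by
    intro w w' hd hw
    have hRr : ∀ a l, Rl (4 * p + 8) (a :: l) → Rl (4 * p + 8) (l ++ [a]) :=
      fun a l h => hL.rot _ a l h
    cases hd with
    | spur u0 a v0 =>
      refine del_aux (Rn := Rl (4 * p + 8)) (Sm := Sm) hIr hRr hI0 [a, G.inv a]
        (fun e => e ≠ a ∧ e ≠ G.inv a) ?_ ?_ u0 v0 hw
      · intro x v e he hR
        exact hspur X hcls (p - 1) x v a e he.1 he.2 (rl_le hL (by omega) hR)
      · intro y hy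
        have hy' : ∀ b ∈ y, b = a ∨ b = G.inv a := by
          intro b hb
          have := hy b hb
          tauto
        constructor
        · refine hSe a _ fun b hb => ?_
          rw [List.mem_append] at hb
          rcases hb with hb | hb
          · simpa using hb
          · exact hy' b hb
        · exact hSe a _ hy'
    | face u0 f v0 hf =>
      refine del_aux (Rn := Rl (4 * p + 8)) (Sm := Sm) hIr hRr hI0 f
        (fun e => ∀ b ∈ f, e ≠ b ∧ e ≠ G.inv b) ?_ ?_ u0 v0 hw
      · intro x v e he hR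
        exact hface X hcls (p - 1) x v f e hf he (rl_le hL (by omega) hR)
      · intro y hy
        have hy' : ∀ b ∈ y, ∃ c ∈ f, b = c ∨ b = G.inv c := by
          intro b hb
          have := hy b hb
          push Not at this
          obtain ⟨c, hc, h1⟩ := this
          exact ⟨c, hc, by tauto⟩
        constructor
        · refine hSf f hf _ fun b hb => ?_
          rw [List.mem_append] at hb
          rcases hb with hb | hb
          · exact ⟨b, hb, Or.inl rfl⟩
          · exact hy' b hb
        · exact hSf f hf _ hy'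
  have hconst : ∀ w, Relation.ReflTransGen (Step G Fc Rl (4 * p + 8))
      (List.replicate p u).flatten w → I w = 1 := by
    intro w hw
    induction hw with
    | refl => exact hIu
    | tail _ hs ih =>
      rw [← ih]
      obtain ⟨h1, h2, h3 | h3 | ⟨a, l, rfl, rfl⟩⟩ := hs
      · exact (hdel _ _ h3 h1).symm
      · exact hdel _ _ h3 h2
      · exact (hIr a l).symm
  have h1 := hconst z hch
  rw [hI0 z hz] at h1
  exact zero_ne_one h1

end Pool.Agent.TH317.CC
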