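import Pool.Agent.TH32.H.Tool

set_option autoImplicit false

namespace Pool.Agent.TH692.TZHT2

open Pool.Agent.TH32

theorem putF_getD (f : Fm) (i : ℕ) (a : ℤ) (j : ℕ) :
    (putF f i a).getD j 0 = f.getD j 0 + if j = i then a else 0 := by
  induction i generalizing f j with
  | zero =>
    cases f with
    | nil => cases j <;> simp [putF]
    | cons b f => cases j <;> simp [putF]
  | succ i ih =>
    cases f with
    | nil =>
      cases j with
      | zero => simp [putF]
      | succ j =>
        have := ih [] j
        simp only [putF, List.getD_cons_succ, List.getD_nil] at this ⊢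
        rw [this]; simp
    | cons b f =>
      cases j with
      | zero => simp [putF]
      | succ j =>
        have := ih f j
        simp only [putF, List.getD_cons_succ] at this ⊢
        rw [this]; simp

theorem ev_put0 {K : ℕ} (f : Fm) (a : ℤ) (v : Fin K → ℕ) : ev (putF f 0 a) v = ev f v + a := by
  unfold ev
  simp only [putF_getD]
  simp
  ring

theorem ev_putS {K : ℕ} (f : Fm) (a : ℤ) (i : Fin K) (v : Fin K → ℕ) :
    ev (putF f (i.1 + 1) a) v = ev f v + a * v i := by
  unfold ev
  simp only [putF_getD]
  have h : ∀ k : Fin K, (f.getD (k.1 + 1) 0 + if k.1 + 1 = i.1 + 1 then a else 0) * (v k : ℤ) =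
      f.getD (k.1 + 1) 0 * (v k : ℤ) + if k = i then a * v i else 0 := by
    intro k
    by_cases hk : k = i
    · subst hk; simp; ring
    · have : k.1 ≠ i.1 := fun h => hk (Fin.ext h)
      simp [hk, this]
  simp only [h, Finset.sum_add_distrib]
  simp
  ring

theorem ev_upd {K : ℕ} (f : Fm) (i : Fin K) (n : ℕ) (v : Fin K → ℕ) :
    ev f (Function.update v i n) = ev f v + f.getD (i.1 + 1) 0 * ((n : ℤ) - v i) := by
  unfold ev
  have h : ∀ k : Fin K, f.getD (k.1 + 1) 0 * ((Function.update v i n k : ℕ) : ℤ) =
      f.getD (k.1 + 1) 0 * (v k : ℤ) +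
        if k = i then f.getD (i.1 + 1) 0 * ((n : ℤ) - v i) else 0 := by
    intro k
    by_cases hk : k = i
    · subst hk; simp; ring
    · simp [hk]
  simp only [h, Finset.sum_add_distrib]
  simp
  ring

theorem ev_bump0 {K : ℕ} (f : Fm) (i : Fin K) (v : Fin K → ℕ) :
    ev (bump f 0 (i.1 + 1)) v = ev f (Function.update v i (v i + 1)) := by
  unfold bump
  rw [ev_put0, ev_upd]
  push_cast; ring

theorem ev_bump {K : ℕ} (f : Fm) (i j : Fin K) (v : Fin K → ℕ) :
    ev (bump f (i.1 + 1) (j.1 + 1)) v = ev f (Function.update v j (v i + v j)) := by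
  unfold bump
  rw [ev_putS, ev_upd]
  push_cast; ring

theorem ev_bump2 {K : ℕ} (f : Fm) (i j : Fin K) (v : Fin K → ℕ) :
    ev (bump (bump f 0 (i.1 + 1)) (j.1 + 1) (i.1 + 1)) v =
      ev f (Function.update v i (v i + v j + 1)) := by
  rw [bump, ev_putS, bump, ev_put0, ev_upd, putF_getD]
  push_cast; simp; ring

theorem ev_set {K : ℕ} (f : Fm) (i : Fin K) (v : Fin K → ℕ) (h : v i = 0) :
    ev (f.set (i.1 + 1) 0) v = ev f v := by
  unfold ev
  congr 1
  · cases f <;> simp
  · apply Finset.sum_congr rfl
    intro k _
    by_cases hk : k = i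
    · subst hk; simp [h]
    · have h1 : k.1 ≠ i.1 := fun h => hk (Fin.ext h)
      congr 1
      rw [List.getD_eq_getElem?_getD, List.getD_eq_getElem?_getD, List.getElem?_set_ne]
      omega

theorem allNN_getD (f : Fm) (h : allNN f = true) (i : ℕ) : 0 ≤ f.getD i 0 := by
  induction f generalizing i with
  | nil => simp
  | cons a f ih =>
    simp only [allNN, Bool.and_eq_true, decide_eq_true_eq] at h
    cases i with
    | zero => simpa using h.1
    | succ i => simpa using ih h.2 i

theorem allNP_getD (f : Fm) (h : allNP f = true) (i : ℕ) : f.getD i 0 ≤ 0 := by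
  induction f generalizing i with
  | nil => simp
  | cons a f ih =>
    simp only [allNP, Bool.and_eq_true, decide_eq_true_eq] at h
    cases i with
    | zero => simpa using h.1
    | succ i => simpa using ih h.2 i

theorem allNN_ev {K : ℕ} (f : Fm) (h : allNN f = true) (v : Fin K → ℕ) : 0 ≤ ev f v := by
  unfold ev
  have h0 := allNN_getD f h 0
  have h1 : 0 ≤ ∑ i : Fin K, f.getD (i.1 + 1) 0 * (v i : ℤ) :=
    Finset.sum_nonneg (fun i _ => mul_nonneg (allNN_getD f h _) (by positivity))
  omega

theorem dead_ev {K : ℕ} (f : Fm) (h : dead f = true) (v : Fin K → ℕ) : ev f v < 0 := by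
  cases f with
  | nil => simp [dead] at h
  | cons a f =>
    simp only [dead, Bool.and_eq_true, decide_eq_true_eq] at h
    unfold ev
    have h1 : ∑ i : Fin K, (a :: f).getD (i.1 + 1) 0 * (v i : ℤ) ≤ 0 := by
      apply Finset.sum_nonpos
      intro i _
      have h2 : (a :: f).getD (i.1 + 1) 0 ≤ 0 := by
        simpa using allNP_getD f h.2 i.1
      exact mul_nonpos_of_nonpos_of_nonneg h2 (by positivity)
    have h3 : (a :: f).getD 0 0 = a := by simp
    rw [h3]
    omega

/-- splitting of a sum along an injective map -/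
theorem tsum_inj {α : Type} (g : α → ENNReal) (φ : α → α) (hφ : Function.Injective φ)
    (S : α → Prop) [DecidablePred S] (hS : ∀ v, S v ↔ v ∈ Set.range φ) :
    (∑' v, g (φ v)) = ∑' v, if S v then g v else 0 := by
  rw [← hφ.tsum_eq (f := fun v => if S v then g v else 0)]
  · apply tsum_congr
    intro v
    rw [if_pos ((hS _).2 ⟨v, rfl⟩)]
  · intro v hv
    rw [← hS]
    by_contra h
    simp [h] at hv

theorem tsum_split {α : Type} (g : α → ENNReal) (S : α → Prop) [DecidablePred S] :
    (∑' v, g v) = (∑' v, if S v then g v else 0) + ∑' v, if ¬ S v then g v else 0 := by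
  rw [← ENNReal.tsum_add]
  apply tsum_congr
  intro v
  by_cases h : S v <;> simp [h]

/-- the conclusion of the statement -/
def Good (K : ℕ) (M : List ℕ) (C : List Fm) (w e f : Fm) (L : List Tm) : Prop :=
  okL L ∧ ∀ q x : ℝ, 1 < q → 0 < x → x ≤ q⁻¹ ^ 5 → 0 ≤ sv q x L ∧
      (open Classical in ∑' v : Fin K → ℕ, if Msk M v ∧ ∀ c ∈ C, 0 ≤ ev c v then
        ENNReal.ofReal ((ev w v : ℝ) * q ^ ev e v * x ^ ev f v) else 0) = ENNReal.ofReal (sv q x L)

theorem good_dead {K : ℕ} {M : List ℕ} {C : List Fm} {w e f : Fm}
    (h : ∃ c ∈ C, dead c = true) : Good K M C w e f [] := by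
  obtain ⟨c, hc, hd⟩ := h
  refine ⟨by simp [okL], fun q x _ _ _ => ⟨by simp [sv], ?_⟩⟩
  have h0 : sv q x [] = 0 := by simp [sv]
  rw [h0, ENNReal.ofReal_zero, ENNReal.tsum_eq_zero]
  intro v
  rw [if_neg]
  rintro ⟨-, h2⟩
  have := h2 c hc
  have := dead_ev c hd v
  omega

theorem good_congr {K : ℕ} {M M' : List ℕ} {C C' : List Fm} {w e f : Fm} {L : List Tm}
    (h : ∀ v : Fin K → ℕ, (Msk M v ∧ ∀ c ∈ C, 0 ≤ ev c v) ↔ (Msk M' v ∧ ∀ c ∈ C', 0 ≤ ev c v))
    (hg : Good K M C w e f L) : Good K M' C' w e f L := by
  refine ⟨hg.1, fun q x hq hx hx2 => ⟨(hg.2 q x hq hx hx2).1, ?_⟩⟩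
  rw [← (hg.2 q x hq hx hx2).2]
  apply tsum_congr
  intro v
  by_cases hv : Msk M v ∧ ∀ c ∈ C, 0 ≤ ev c v
  · rw [if_pos hv, if_pos ((h v).1 hv)]
  · rw [if_neg hv, if_neg (fun h' => hv ((h v).2 h'))]

theorem okL_append {L₁ L₂ : List Tm} (h₁ : okL L₁) (h₂ : okL L₂) : okL (L₁ ++ L₂) := by
  intro t ht
  rcases List.mem_append.1 ht with h | h
  · exact h₁ t h
  · exact h₂ t h

theorem sv_append (q x : ℝ) (L₁ L₂ : List Tm) : sv q x (L₁ ++ L₂) = sv q x L₁ + sv q x L₂ := by
  simp [sv]

/-- gluing of two parts -/
theorem good_glue {K : ℕ} {M M₁ M₂ : List ℕ} {C C₁ C₂ : List Fm} {w e f w₁ e₁ f₁ w₂ e₂ f₂ : Fm}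
    {L₁ L₂ : List Tm}
    (h₁ : Good K M₁ C₁ w₁ e₁ f₁ L₁) (h₂ : Good K M₂ C₂ w₂ e₂ f₂ L₂)
    (hs : ∀ q x : ℝ, (open Classical in ∑' v : Fin K → ℕ, if Msk M v ∧ ∀ c ∈ C, 0 ≤ ev c v then
        ENNReal.ofReal ((ev w v : ℝ) * q ^ ev e v * x ^ ev f v) else 0) =
      (open Classical in ∑' v : Fin K → ℕ, if Msk M₁ v ∧ ∀ c ∈ C₁, 0 ≤ ev c v then
        ENNReal.ofReal ((ev w₁ v : ℝ) * q ^ ev e₁ v * x ^ ev f₁ v) else 0) +
      (open Classical in ∑' v : Fin K → ℕ, if Msk M₂ v ∧ ∀ c ∈ C₂, 0 ≤ ev c v then
        ENNReal.ofReal ((ev w₂ v : ℝ) * q ^ ev e₂ v * x ^ ev f₂ v) else 0)) :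
    Good K M C w e f (L₁ ++ L₂) := by
  refine ⟨okL_append h₁.1 h₂.1, fun q x hq hx hx2 => ?_⟩
  have a := h₁.2 q x hq hx hx2
  have b := h₂.2 q x hq hx hx2
  rw [sv_append]
  refine ⟨add_nonneg a.1 b.1, ?_⟩
  rw [hs q x, a.2, b.2, ENNReal.ofReal_add a.1 b.1]

theorem good_zero {K : ℕ} {M : List ℕ} {C : List Fm} {w e f : Fm}
    {L₁ L₂ : List Tm} (i : Fin K) (hi : i.1 + 1 ∉ M)
    (h₁ : Good K ((i.1 + 1) :: M) (C.map (fun c => c.set (i.1 + 1) 0)) (w.set (i.1 + 1) 0)
      (e.set (i.1 + 1) 0) (f.set (i.1 + 1) 0) L₁)
    (h₂ : Good K M (C.map (fun c => bump c 0 (i.1 + 1))) (bump w 0 (i.1 + 1))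
      (bump e 0 (i.1 + 1)) (bump f 0 (i.1 + 1)) L₂) :
    Good K M C w e f (L₁ ++ L₂) := by
  classical
  refine good_glue h₁ h₂ (fun q x => ?_)
  rw [tsum_split _ (fun v : Fin K → ℕ => v i = 0)]
  congr 1
  · apply tsum_congr
    intro v
    by_cases hv : v i = 0
    · rw [if_pos hv, ev_set w i v hv, ev_set e i v hv, ev_set f i v hv]
      apply if_congr _ rfl rfl
      apply and_congr
      · constructor
        · intro h k hk
          rcases List.mem_cons.1 hk with h' | h'
          · have : k = i := Fin.ext (by omega)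
            rw [this]; exact hv
          · exact h k h'
        · intro h k hk
          exact h k (List.mem_cons_of_mem _ hk)
      · simp only [List.mem_map, forall_exists_index, and_imp, forall_apply_eq_imp_iff₂]
        apply forall₂_congr
        intro c _
        rw [ev_set c i v hv]
    · rw [if_neg hv, if_neg]
      rintro ⟨h, -⟩
      exact hv (h i List.mem_cons_self)
  · have hφ : Function.Injective (fun v : Fin K → ℕ => Function.update v i (v i + 1)) := by
      intro v v' h
      funext k
      have := congrFun h k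
      by_cases hk : k = i
      · subst hk; simpa using this
      · simpa [hk] using this
    have hS : ∀ v : Fin K → ℕ, (¬ v i = 0) ↔
        v ∈ Set.range (fun v : Fin K → ℕ => Function.update v i (v i + 1)) := by
      intro v
      constructor
      · intro h
        refine ⟨Function.update v i (v i - 1), ?_⟩
        funext k
        by_cases hk : k = i
        · subst hk; simp; omega
        · simp [hk]
      · rintro ⟨u, rfl⟩
        simp
    rw [← tsum_inj _ _ hφ (fun v => ¬ v i = 0) hS]
    apply tsum_congr
    intro v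
    rw [← ev_bump0, ← ev_bump0, ← ev_bump0]
    apply if_congr _ rfl rfl
    apply and_congr
    · constructor
      · intro h k hk
        have := h k hk
        have hki : k ≠ i := by rintro rfl; exact hi hk
        simpa [hki] using this
      · intro h k hk
        have := h k hk
        have hki : k ≠ i := by rintro rfl; exact hi hk
        simpa [hki] using this
    · simp only [List.mem_map, forall_exists_index, and_imp, forall_apply_eq_imp_iff₂]
      apply forall₂_congr
      intro c _
      rw [ev_bump0]

theorem good_cmp {K : ℕ} {M : List ℕ} {C : List Fm} {w e f : Fm}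
    {L₁ L₂ : List Tm} (i j : Fin K) (hij : i ≠ j) (hi : i.1 + 1 ∉ M) (hj : j.1 + 1 ∉ M)
    (h₁ : Good K M (C.map (fun c => bump c (i.1 + 1) (j.1 + 1))) (bump w (i.1 + 1) (j.1 + 1))
      (bump e (i.1 + 1) (j.1 + 1)) (bump f (i.1 + 1) (j.1 + 1)) L₁)
    (h₂ : Good K M (C.map (fun c => bump (bump c 0 (i.1 + 1)) (j.1 + 1) (i.1 + 1)))
      (bump (bump w 0 (i.1 + 1)) (j.1 + 1) (i.1 + 1))
      (bump (bump e 0 (i.1 + 1)) (j.1 + 1) (i.1 + 1))
      (bump (bump f 0 (i.1 + 1)) (j.1 + 1) (i.1 + 1)) L₂) :
    Good K M C w e f (L₁ ++ L₂) := by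
  classical
  refine good_glue h₁ h₂ (fun q x => ?_)
  rw [tsum_split _ (fun v : Fin K → ℕ => v i ≤ v j)]
  congr 1
  · have hφ : Function.Injective (fun v : Fin K → ℕ => Function.update v j (v i + v j)) := by
      intro v v' h
      have h1 := congrFun h i
      have h2 := congrFun h j
      simp [hij] at h1 h2
      funext k
      have := congrFun h k
      by_cases hk : k = j
      · subst hk; omega
      · simpa [hk] using this
    have hS : ∀ v : Fin K → ℕ, (v i ≤ v j) ↔
        v ∈ Set.range (fun v : Fin K → ℕ => Function.update v j (v i + v j)) := by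
      intro v
      constructor
      · intro h
        refine ⟨Function.update v j (v j - v i), ?_⟩
        funext k
        by_cases hk : k = j
        · subst hk; simp [hij]; omega
        · simp [hk]
      · rintro ⟨u, rfl⟩
        simp [hij]
    rw [← tsum_inj _ _ hφ (fun v => v i ≤ v j) hS]
    apply tsum_congr
    intro v
    rw [← ev_bump, ← ev_bump, ← ev_bump]
    apply if_congr _ rfl rfl
    apply and_congr
    · constructor
      · intro h k hk
        have := h k hk
        have hki : k ≠ j := by rintro rfl; exact hj hk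
        simpa [hki] using this
      · intro h k hk
        have := h k hk
        have hki : k ≠ j := by rintro rfl; exact hj hk
        simpa [hki] using this
    · simp only [List.mem_map, forall_exists_index, and_imp, forall_apply_eq_imp_iff₂]
      apply forall₂_congr
      intro c _
      rw [ev_bump]
  · have hφ : Function.Injective (fun v : Fin K → ℕ => Function.update v i (v i + v j + 1)) := by
      intro v v' h
      have h1 := congrFun h i
      have h2 := congrFun h j
      simp [hij.symm] at h1 h2
      funext k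
      have := congrFun h k
      by_cases hk : k = i
      · subst hk; omega
      · simpa [hk] using this
    have hS : ∀ v : Fin K → ℕ, (¬ v i ≤ v j) ↔
        v ∈ Set.range (fun v : Fin K → ℕ => Function.update v i (v i + v j + 1)) := by
      intro v
      constructor
      · intro h
        refine ⟨Function.update v i (v i - v j - 1), ?_⟩
        funext k
        by_cases hk : k = i
        · subst hk; simp [hij.symm]; omega
        · simp [hk]
      · rintro ⟨u, rfl⟩
        simp [hij.symm]
    rw [← tsum_inj _ _ hφ (fun v => ¬ v i ≤ v j) hS]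
    apply tsum_congr
    intro v
    rw [← ev_bump2, ← ev_bump2, ← ev_bump2]
    apply if_congr _ rfl rfl
    apply and_congr
    · constructor
      · intro h k hk
        have := h k hk
        have hki : k ≠ i := by rintro rfl; exact hi hk
        simpa [hki] using this
      · intro h k hk
        have := h k hk
        have hki : k ≠ i := by rintro rfl; exact hi hk
        simpa [hki] using this
    · simp only [List.mem_map, forall_exists_index, and_imp, forall_apply_eq_imp_iff₂]
      apply forall₂_congr
      intro c _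
      rw [ev_bump2]

theorem good_leaf {K : ℕ} {M : List ℕ} {w e f : Fm} {L : List Tm} (hl : LeafStmt)
    (h : leafT K M w e f = some L) : Good K M [] w e f L := by
  have := hl K M w e f L h
  refine ⟨this.1, fun q x hq hx hx2 => ⟨(this.2 q x hq hx hx2).1, ?_⟩⟩
  rw [← (this.2 q x hq hx hx2).2]
  apply tsum_congr
  intro v
  by_cases hv : Msk M v
  · rw [if_pos hv, if_pos ⟨hv, by simp⟩]
  · rw [if_neg hv, if_neg (fun h => hv h.1)]

theorem good_filter {K : ℕ} {M : List ℕ} {C : List Fm} {w e f : Fm} {L : List Tm}
    (h : Good K M (C.filter (fun c => !allNN c)) w e f L) : Good K M C w e f L := by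
  refine good_congr (fun v => ?_) h
  apply and_congr_right
  intro _
  constructor
  · intro h c hc
    by_cases hn : allNN c = true
    · exact allNN_ev c hn v
    · exact h c (List.mem_filter.2 ⟨hc, by simpa using hn⟩)
  · intro h c hc
    exact h c (List.mem_filter.1 hc).1

theorem run2_good (hl : LeafStmt) (K n : ℕ) : ∀ (cert cert' : List ℕ) (M : List ℕ) (C : List Fm)
    (w e f : Fm) (L : List Tm),
    run2 K n cert M C w e f = some (L, cert') → Good K M C w e f L := by
  induction n with
  | zero => intro cert cert' M C w e f L h; simp [run2] at h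
  | succ n ih =>
    intro cert cert' M C w e f L h
    rw [run2] at h
    split at h
    · rename_i hd
      rw [Option.some.injEq, Prod.mk.injEq] at h
      obtain ⟨rfl, -⟩ := h
      exact good_dead (by simpa [List.any_eq_true] using hd)
    · apply good_filter
      split at h
      · rename_i hC
        rw [hC]
        split at h
        · simp at h
        · rename_i L' hL'
          rw [Option.some.injEq, Prod.mk.injEq] at h
          obtain ⟨rfl, -⟩ := h
          exact good_leaf hl hL'
      · rename_i c₀ C₀ hC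
        rw [hC]
        split at h
        · simp at h
        · rename_i a cert
          simp only at h
          split at h
          · rename_i hc
            simp only [Bool.and_eq_true, decide_eq_true_eq, Bool.not_eq_true',
              List.contains_eq_mem, decide_eq_false_iff_not] at hc
            obtain ⟨⟨⟨⟨⟨h1, h2⟩, h3⟩, h4⟩, h5⟩, h6⟩ := hc
            obtain ⟨i, hi⟩ : ∃ i : Fin K, i.1 + 1 = a / 8 := ⟨⟨a / 8 - 1, by omega⟩, by simp; omega⟩
            obtain ⟨j, hj⟩ : ∃ j : Fin K, j.1 + 1 = a % 8 := ⟨⟨a % 8 - 1, by omega⟩, by simp; omega⟩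
            rw [← hi] at h h5
            rw [← hj] at h h6
            split at h
            · rename_i hij
              split at h
              · simp at h
              · rename_i L₁ cert₁ hL₁
                split at h
                · simp at h
                · rename_i L₂ cert₂ hL₂
                  rw [Option.some.injEq, Prod.mk.injEq] at h
                  obtain ⟨rfl, -⟩ := h
                  exact good_zero i h5 (ih _ _ _ _ _ _ _ _ hL₁) (ih _ _ _ _ _ _ _ _ hL₂)
            · rename_i hij
              split at h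
              · simp at h
              · rename_i L₁ cert₁ hL₁
                split at h
                · simp at h
                · rename_i L₂ cert₂ hL₂
                  rw [Option.some.injEq, Prod.mk.injEq] at h
                  obtain ⟨rfl, -⟩ := h
                  exact good_cmp i j (fun h => hij (by rw [h])) h5 h6
                    (ih _ _ _ _ _ _ _ _ hL₁) (ih _ _ _ _ _ _ _ _ hL₂)
          · simp at h

end Pool.Agent.TH692.TZHT2

namespace Pool.Agent.TH692

open Pool.Agent.TH32

theorem run2_sound : Run2Asm := by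
  intro hl K n cert cert' M C w e f L h
  exact TZHT2.run2_good hl K n cert cert' M C w e f L h

end Pool.Agent.TH692
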