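import Pool.Agent.TH692.TZH_T2

set_option autoImplicit false

namespace Pool.Agent.TH692.TZHT3

open Pool.Agent.TH32 Pool.Agent.TH692.TZHT2

theorem addF_getD (f g : Fm) (i : ℕ) : (addF f g).getD i 0 = f.getD i 0 + g.getD i 0 := by
  induction f generalizing g i with
  | nil => simp [addF]
  | cons a f ih =>
    cases g with
    | nil => simp [addF]
    | cons b g =>
      cases i with
      | zero => simp [addF]
      | succ i => simpa [addF] using ih g i

theorem negF_getD (f : Fm) (i : ℕ) : (negF f).getD i 0 = - f.getD i 0 := by
  induction f generalizing i with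
  | nil => simp [negF]
  | cons a f ih =>
    cases i with
    | zero => simp [negF]
    | succ i => simpa [negF] using ih i

theorem mul_getD (m : ℤ) (f : Fm) (i : ℕ) :
    (f.map (fun a => m * a)).getD i 0 = m * f.getD i 0 := by
  induction f generalizing i with
  | nil => simp
  | cons a f ih =>
    cases i with
    | zero => simp
    | succ i => simpa using ih i

theorem ev_addF {K : ℕ} (f g : Fm) (v : Fin K → ℕ) : ev (addF f g) v = ev f v + ev g v := by
  unfold ev
  simp only [addF_getD, add_mul, Finset.sum_add_distrib]
  ring

theorem ev_negF {K : ℕ} (f : Fm) (v : Fin K → ℕ) : ev (negF f) v = - ev f v := by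
  unfold ev
  simp only [negF_getD, neg_mul, Finset.sum_neg_distrib]
  ring

theorem ev_mulF {K : ℕ} (m : ℤ) (f : Fm) (v : Fin K → ℕ) :
    ev (f.map (fun a => m * a)) v = m * ev f v := by
  unfold ev
  simp only [mul_getD, mul_add, Finset.mul_sum, mul_assoc]

theorem ev_neg1 {K : ℕ} (f : Fm) (v : Fin K → ℕ) :
    ev (addF [-1] (negF f)) v = -1 - ev f v := by
  rw [ev_addF, ev_negF]
  have : ev [-1] v = -1 := by simp [ev]
  rw [this]; ring

theorem comb_ev {K : ℕ} (v : Fin K → ℕ) (C : List Fm) (cert : List ℕ)
    (h : ∀ c ∈ C, 0 ≤ ev c v) : 0 ≤ ev (comb C cert).1 v := by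
  induction C generalizing cert with
  | nil => simp [comb, ev]
  | cons c C ih =>
    cases cert with
    | nil => simp [comb, ev]
    | cons m cert =>
      have h1 := ih cert (fun c' hc' => h c' (List.mem_cons_of_mem _ hc'))
      have h2 := h c List.mem_cons_self
      simp only [comb]
      split
      · exact h1
      · rw [ev_addF, ev_mulF]
        positivity

/-- the conclusion of the statement -/
def Good1 (K : ℕ) (C : List Fm) (F : Fac) (L : List Tm) : Prop :=
  okL L ∧ ∀ q x : ℝ, 1 < q → 0 < x → x ≤ q⁻¹ ^ 5 → 0 ≤ sv q x L ∧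
      (open Classical in ∑' v : Fin K → ℕ, if ∀ c ∈ C, 0 ≤ ev c v then
        ENNReal.ofReal (F.val q x v) else 0) = ENNReal.ofReal (sv q x L)

theorem good1_congr {K : ℕ} {C : List Fm} {F F' : Fac} {L : List Tm}
    (h : ∀ (q x : ℝ) (v : Fin K → ℕ), (∀ c ∈ C, 0 ≤ ev c v) → F.val q x v = F'.val q x v)
    (hg : Good1 K C F L) : Good1 K C F' L := by
  refine ⟨hg.1, fun q x hq hx hx2 => ⟨(hg.2 q x hq hx hx2).1, ?_⟩⟩
  rw [← (hg.2 q x hq hx hx2).2]
  apply tsum_congr
  intro v
  by_cases hv : ∀ c ∈ C, 0 ≤ ev c v
  · rw [if_pos hv, if_pos hv, h q x v hv]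
  · rw [if_neg hv, if_neg hv]

theorem good1_split {K : ℕ} {C : List Fm} {c : Fm} {a b : Fac} {L₁ L₂ : List Tm}
    (h₁ : Good1 K (c :: C) a L₁) (h₂ : Good1 K (addF [-1] (negF c) :: C) b L₂) :
    Good1 K C (.it c a b) (L₁ ++ L₂) := by
  classical
  refine ⟨okL_append h₁.1 h₂.1, fun q x hq hx hx2 => ?_⟩
  have ha := h₁.2 q x hq hx hx2
  have hb := h₂.2 q x hq hx hx2
  rw [sv_append]
  refine ⟨add_nonneg ha.1 hb.1, ?_⟩
  rw [ENNReal.ofReal_add ha.1 hb.1, ← ha.2, ← hb.2, ← ENNReal.tsum_add]
  apply tsum_congr
  intro v
  by_cases hv : ∀ c ∈ C, 0 ≤ ev c v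
  · by_cases hc : 0 ≤ ev c v
    · have e1 : ∀ c' ∈ c :: C, 0 ≤ ev c' v := by
        intro c' hc'
        rcases List.mem_cons.1 hc' with rfl | h
        · exact hc
        · exact hv c' h
      have e2 : ¬ ∀ c' ∈ addF [-1] (negF c) :: C, 0 ≤ ev c' v := by
        intro h
        have := h _ List.mem_cons_self
        rw [ev_neg1] at this
        omega
      rw [if_pos hv, if_pos e1, if_neg e2, Fac.val, if_pos hc, add_zero]
    · have e1 : ¬ ∀ c' ∈ c :: C, 0 ≤ ev c' v := fun h => hc (h _ List.mem_cons_self)
      have e2 : ∀ c' ∈ addF [-1] (negF c) :: C, 0 ≤ ev c' v := by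
        intro c' hc'
        rcases List.mem_cons.1 hc' with rfl | h
        · rw [ev_neg1]; omega
        · exact hv c' h
      rw [if_pos hv, if_neg e1, if_pos e2, Fac.val, if_neg hc, zero_add]
  · have e1 : ¬ ∀ c' ∈ c :: C, 0 ≤ ev c' v :=
      fun h => hv (fun c' hc' => h c' (List.mem_cons_of_mem _ hc'))
    have e2 : ¬ ∀ c' ∈ addF [-1] (negF c) :: C, 0 ≤ ev c' v :=
      fun h => hv (fun c' hc' => h c' (List.mem_cons_of_mem _ hc'))
    rw [if_neg hv, if_neg e1, if_neg e2, add_zero]

theorem run1_good (hr : Run2Stmt) (K F2 n : ℕ) : ∀ (cert cert' : List ℕ) (C : List Fm)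
    (F : Fac) (L : List Tm),
    run1 K F2 n cert C F = some (L, cert') → Good1 K C F L := by
  induction n with
  | zero => intro cert cert' C F L h; simp [run1] at h
  | succ n ih =>
    intro cert cert' C F L h
    cases F with
    | zr =>
      rw [run1, Option.some.injEq, Prod.mk.injEq] at h
      obtain ⟨rfl, -⟩ := h
      refine ⟨by simp [okL], fun q x _ _ _ => ⟨by simp [sv], ?_⟩⟩
      have h0 : sv q x [] = 0 := by simp [sv]
      rw [h0, ENNReal.ofReal_zero, ENNReal.tsum_eq_zero]
      intro v
      simp [Fac.val]
    | lf w e f =>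
      rw [run1] at h
      have := hr K F2 cert cert' [] C w e f L h
      refine ⟨this.1, fun q x hq hx hx2 => ⟨(this.2 q x hq hx hx2).1, ?_⟩⟩
      rw [← (this.2 q x hq hx hx2).2]
      apply tsum_congr
      intro v
      by_cases hv : ∀ c ∈ C, 0 ≤ ev c v
      · rw [if_pos hv, if_pos ⟨by intro k hk; simp at hk, hv⟩, Fac.val]
      · rw [if_neg hv, if_neg (fun h => hv h.2)]
    | it c a b =>
      unfold run1 at h
      split at h
      · rename_i hc
        refine good1_congr (fun q x v _ => ?_) (ih _ _ _ _ _ h)
        rw [Fac.val, if_pos (allNN_ev c hc v)]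
      · split at h
        · rename_i hc
          refine good1_congr (fun q x v _ => ?_) (ih _ _ _ _ _ h)
          rw [Fac.val, if_neg (not_le.2 (dead_ev c hc v))]
        · split at h
          · rename_i cert
            split at h
            · simp at h
            · rename_i L₁ cert₁ hL₁
              split at h
              · simp at h
              · rename_i L₂ cert₂ hL₂
                rw [Option.some.injEq, Prod.mk.injEq] at h
                obtain ⟨rfl, -⟩ := h
                exact good1_split (ih _ _ _ _ _ hL₁) (ih _ _ _ _ _ hL₂)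
          · rename_i cert
            generalize hs : comb (addF [-1] (negF c) :: C) cert = r at h
            obtain ⟨s, cert₁⟩ := r
            simp only at h
            split at h
            · rename_i hd
              refine good1_congr (fun q x v hv => ?_) (ih _ _ _ _ _ h)
              rw [Fac.val, if_pos]
              by_contra hneg
              have h1 : ∀ c' ∈ addF [-1] (negF c) :: C, 0 ≤ ev c' v := by
                intro c' hc'
                rcases List.mem_cons.1 hc' with rfl | h
                · rw [ev_neg1]; omega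
                · exact hv c' h
              have h2 := comb_ev v _ cert h1
              rw [hs] at h2
              have h3 := dead_ev s hd v
              simp only at h2
              omega
            · simp at h
          · rename_i cert
            generalize hs : comb (c :: C) cert = r at h
            obtain ⟨s, cert₁⟩ := r
            simp only at h
            split at h
            · rename_i hd
              refine good1_congr (fun q x v hv => ?_) (ih _ _ _ _ _ h)
              rw [Fac.val, if_neg]
              intro hpos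
              have h1 : ∀ c' ∈ c :: C, 0 ≤ ev c' v := by
                intro c' hc'
                rcases List.mem_cons.1 hc' with rfl | h
                · exact hpos
                · exact hv c' h
              have h2 := comb_ev v _ cert h1
              rw [hs] at h2
              have h3 := dead_ev s hd v
              simp only at h2
              omega
            · simp at h
          · simp at h

end Pool.Agent.TH692.TZHT3

namespace Pool.Agent.TH692

open Pool.Agent.TH32

theorem run1_sound : Run1Asm := by
  intro hr
  have h1 : Run1Stmt := by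
    intro K F2 n cert cert' C F L h
    exact TZHT3.run1_good hr K F2 n cert cert' C F L h
  refine ⟨h1, ?_⟩
  intro K F2 n cert cert' F L h
  have := h1 K F2 n cert cert' [] F L h
  refine ⟨this.1, fun q x hq hx hx2 => ⟨(this.2 q x hq hx hx2).1, ?_⟩⟩
  rw [← (this.2 q x hq hx hx2).2]
  apply tsum_congr
  intro v
  rw [if_pos (by simp)]

end Pool.Agent.TH692
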