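import Pool.Agent.TH331.HV.Defs

/-!
# Thin triangles at one vertex imply the four point condition
-/

set_option autoImplicit false

namespace Pool.Agent.TH692.FourPoint

open Pool.Agent.TH331.HV SimpleGraph

variable {V : Type*} {G : SimpleGraph V}

lemma dist_getVert_le (hG : G.Connected) {u v : V} (p : G.Walk u v) (i k : ℕ) :
    G.dist (p.getVert i) (p.getVert (i + k)) ≤ k := by
  induction k with
  | zero => simp
  | succ k ih =>
    have h1 : G.dist (p.getVert (i + k)) (p.getVert (i + k + 1)) ≤ 1 := by
      by_cases h : i + k < p.length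
      · have := p.adj_getVert_succ h
        exact (SimpleGraph.dist_eq_one_iff_adj.mpr this).le
      · rw [p.getVert_of_length_le (by omega), p.getVert_of_length_le (by omega)]
        simp
    calc G.dist (p.getVert i) (p.getVert (i + (k + 1)))
        ≤ G.dist (p.getVert i) (p.getVert (i + k)) +
          G.dist (p.getVert (i + k)) (p.getVert (i + (k + 1))) := hG.dist_triangle
      _ ≤ k + 1 := by
        have : i + (k + 1) = i + k + 1 := by omega
        rw [this]; omega

lemma dist_getVert_le' (hG : G.Connected) {u v : V} (p : G.Walk u v) {i j : ℕ} (hij : i ≤ j) :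
    G.dist (p.getVert i) (p.getVert j) ≤ j - i := by
  obtain ⟨k, rfl⟩ := Nat.exists_eq_add_of_le hij
  have := dist_getVert_le hG p i k
  omega

/-- Distances from the start along a walk of minimal length. -/
lemma dist_start (hG : G.Connected) {u v : V} (p : G.Walk u v) (hp : p.length = G.dist u v)
    {t : ℕ} (ht : t ≤ p.length) : G.dist u (p.getVert t) = t := by
  have h1 := dist_getVert_le' hG p (Nat.zero_le t)
  have h2 := dist_getVert_le' hG p ht
  rw [p.getVert_zero] at h1
  rw [p.getVert_length] at h2
  have h3 : G.dist u v ≤ G.dist u (p.getVert t) + G.dist (p.getVert t) v := hG.dist_triangle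
  omega

lemma dist_end (hG : G.Connected) {u v : V} (p : G.Walk u v) (hp : p.length = G.dist u v)
    {t : ℕ} (ht : t ≤ p.length) : G.dist (p.getVert t) v + t = G.dist u v := by
  have h1 := dist_getVert_le' hG p (Nat.zero_le t)
  have h2 := dist_getVert_le' hG p ht
  rw [p.getVert_zero] at h1
  rw [p.getVert_length] at h2
  have h3 : G.dist u v ≤ G.dist u (p.getVert t) + G.dist (p.getVert t) v := hG.dist_triangle
  omega

lemma exists_getVert {u v w : V} (p : G.Walk u v) (hw : w ∈ p.support) :
    ∃ s ≤ p.length, p.getVert s = w := by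
  obtain ⟨s, h1, h2⟩ := SimpleGraph.Walk.mem_support_iff_exists_getVert.mp hw
  exact ⟨s, h2, h1⟩

lemma take_length {u v : V} (p : G.Walk u v) {t : ℕ} (ht : t ≤ p.length) :
    (p.take t).length = t := by
  rw [SimpleGraph.Walk.take_length]; omega


/-- Fellow travelling of two shortest walks with the same start, up to the time where both are
known to be close. -/
lemma fellow_below (hG : G.Connected) {x y z : V} {δ : ℕ} (h : ThinAt G x δ)
    (g : G.Walk x y) (hg : g.length = G.dist x y) (g' : G.Walk x z) (hg' : g'.length = G.dist x z)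
    {t0 s0 t : ℕ} (ht0 : t0 ≤ g.length) (hs0 : s0 ≤ g'.length)
    (hd : G.dist (g.getVert t0) (g'.getVert s0) ≤ δ) (ht : t ≤ t0) :
    G.dist (g.getVert t) (g'.getVert t) ≤ 4 * δ := by
  obtain ⟨e, he⟩ := hG.exists_walk_length_eq_dist (g.getVert t0) (g'.getVert s0)
  have hx1 := dist_start hG g hg ht0
  have hx2 := dist_start hG g' hg' hs0
  have hlt := take_length g ht0
  have hls := take_length g' hs0
  have hth := (h (g.getVert t0) (g'.getVert s0) (g.take t0) e (g'.take s0).reverse
    (by rw [hlt, hx1]) he
    (by rw [SimpleGraph.Walk.length_reverse, hls, SimpleGraph.dist_comm, hx2])).1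
  have hmem : g.getVert t ∈ (g.take t0).support := by
    have h1 : (g.take t0).getVert t = g.getVert t := by
      rw [SimpleGraph.Walk.take_getVert]
      congr 1
      omega
    rw [← h1]
    exact SimpleGraph.Walk.getVert_mem_support _ _
  obtain ⟨v, hv, hdv⟩ := hth _ hmem
  have hxt := dist_start hG g hg (le_trans ht ht0)
  rcases hv with hv | hv
  · -- on the short side
    obtain ⟨r, hr, hrv⟩ := exists_getVert e hv
    have h1 := dist_end hG e he hr
    rw [hrv] at h1
    have h2 : G.dist v (g'.getVert s0) ≤ δ := by omega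
    have h3 : G.dist (g.getVert t) (g'.getVert s0) ≤ 2 * δ := by
      have := hG.dist_triangle (u := g.getVert t) (v := v) (w := g'.getVert s0)
      omega
    have h4 : G.dist x (g'.getVert s0) ≤ G.dist x (g.getVert t) +
      G.dist (g.getVert t) (g'.getVert s0) := hG.dist_triangle
    have h5 : G.dist x (g.getVert t) ≤ G.dist x (g'.getVert s0) +
      G.dist (g'.getVert s0) (g.getVert t) := hG.dist_triangle
    rw [SimpleGraph.dist_comm (u := g'.getVert s0)] at h5
    have h6 : G.dist (g.getVert t) (g'.getVert t) ≤ G.dist (g.getVert t) (g'.getVert s0) +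
      G.dist (g'.getVert s0) (g'.getVert t) := hG.dist_triangle
    rcases le_total s0 t with h7 | h7
    · have := dist_getVert_le' hG g' h7
      omega
    · have := dist_getVert_le' hG g' h7
      rw [SimpleGraph.dist_comm] at this
      omega
  · -- on the other side
    rw [SimpleGraph.Walk.support_reverse, List.mem_reverse] at hv
    obtain ⟨s, hs, hsv⟩ := exists_getVert _ hv
    rw [hls] at hs
    rw [SimpleGraph.Walk.take_getVert, Nat.min_eq_right hs] at hsv
    subst hsv
    have h1 := dist_start hG g' hg' (le_trans hs hs0)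
    have h4 : G.dist x (g'.getVert s) ≤ G.dist x (g.getVert t) +
      G.dist (g.getVert t) (g'.getVert s) := hG.dist_triangle
    have h5 : G.dist x (g.getVert t) ≤ G.dist x (g'.getVert s) +
      G.dist (g'.getVert s) (g.getVert t) := hG.dist_triangle
    rw [SimpleGraph.dist_comm (u := g'.getVert s)] at h5
    have h6 : G.dist (g.getVert t) (g'.getVert t) ≤ G.dist (g.getVert t) (g'.getVert s) +
      G.dist (g'.getVert s) (g'.getVert t) := hG.dist_triangle
    rcases le_total s t with h7 | h7
    · have := dist_getVert_le' hG g' h7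
      omega
    · have := dist_getVert_le' hG g' h7
      rw [SimpleGraph.dist_comm] at this
      omega

/-- Fellow travelling up to the Gromov product. -/
lemma fellow (hG : G.Connected) {x y z : V} {δ : ℕ} (h : ThinAt G x δ)
    (g : G.Walk x y) (hg : g.length = G.dist x y) (g' : G.Walk x z) (hg' : g'.length = G.dist x z)
    {t : ℕ} (ht : 2 * t + G.dist y z ≤ G.dist x y + G.dist x z) :
    G.dist (g.getVert t) (g'.getVert t) ≤ 6 * δ + 2 := by
  classical
  obtain ⟨b, hb⟩ := hG.exists_walk_length_eq_dist y z
  have hth := (h y z g b g'.reverse hg hb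
    (by rw [SimpleGraph.Walk.length_reverse, hg', SimpleGraph.dist_comm])).1
  -- the last time at which `g` is close to `g'`
  let N : ℕ → Prop := fun t => t ≤ g.length ∧ ∃ s ≤ g'.length,
    G.dist (g.getVert t) (g'.getVert s) ≤ δ
  have hN0 : N 0 := ⟨Nat.zero_le _, 0, Nat.zero_le _, by simp⟩
  obtain ⟨t0, ⟨ht0, s0, hs0, hd0⟩, hmax⟩ : ∃ t0, N t0 ∧ ∀ t, N t → t ≤ t0 := by
    have hfin : ∃ n, N n ∧ ∀ m, N m → m ≤ n := by
      let S := (Finset.range (g.length + 1)).filter N
      have hS : S.Nonempty := ⟨0, by simp [S, hN0]⟩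
      refine ⟨S.max' hS, ?_, ?_⟩
      · have := S.max'_mem hS
        exact (Finset.mem_filter.mp this).2
      · intro m hm
        apply S.le_max'
        rw [Finset.mem_filter, Finset.mem_range]
        exact ⟨by have := hm.1; omega, hm⟩
    exact hfin
  -- `g t0` is close to a vertex of `b`
  have hw : ∃ r ≤ b.length, G.dist (g.getVert t0) (b.getVert r) ≤ δ + 1 := by
    rcases Nat.lt_or_ge t0 g.length with hlt | hge
    · obtain ⟨v, hv, hdv⟩ := hth (g.getVert (t0 + 1)) (g.getVert_mem_support _)
      rcases hv with hv | hv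
      · obtain ⟨r, hr, hrv⟩ := exists_getVert b hv
        refine ⟨r, hr, ?_⟩
        rw [hrv]
        have h1 := dist_getVert_le hG g t0 1
        have h2 : G.dist (g.getVert t0) v ≤ G.dist (g.getVert t0) (g.getVert (t0 + 1)) +
          G.dist (g.getVert (t0 + 1)) v := hG.dist_triangle
        omega
      · exfalso
        rw [SimpleGraph.Walk.support_reverse, List.mem_reverse] at hv
        obtain ⟨s, hs, hsv⟩ := exists_getVert g' hv
        have := hmax (t0 + 1) ⟨by omega, s, hs, by rw [hsv]; exact hdv⟩
        omega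
    · refine ⟨0, Nat.zero_le _, ?_⟩
      rw [g.getVert_of_length_le hge, b.getVert_zero]
      simp
  obtain ⟨r, hr, hdr⟩ := hw
  have hyr := dist_start hG b hb hr
  have hrz := dist_end hG b hb hr
  have hg0 := dist_end hG g hg ht0
  have hx0 := dist_start hG g hg ht0
  have t1 : G.dist y (g.getVert t0) ≤ G.dist y (b.getVert r) +
    G.dist (b.getVert r) (g.getVert t0) := hG.dist_triangle
  rw [SimpleGraph.dist_comm (u := b.getVert r), SimpleGraph.dist_comm (u := y)] at t1
  have t2 : G.dist (g.getVert t0) z ≤ G.dist (g.getVert t0) (b.getVert r) +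
    G.dist (b.getVert r) z := hG.dist_triangle
  have t3 : G.dist x z ≤ G.dist x (g.getVert t0) + G.dist (g.getVert t0) z := hG.dist_triangle
  have tri1 : G.dist x y ≤ G.dist x z + G.dist z y := hG.dist_triangle
  rw [SimpleGraph.dist_comm (u := z)] at tri1
  have tri2 : G.dist x z ≤ G.dist x y + G.dist y z := hG.dist_triangle
  have hb1 : t ≤ t0 + δ + 1 := by omega
  have hm1 := dist_getVert_le' hG g (Nat.min_le_left t t0)
  have hm2 := dist_getVert_le' hG g' (Nat.min_le_left t t0)
  have hk := fellow_below hG h g hg g' hg' ht0 hs0 hd0 (Nat.min_le_right t t0)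
  have e1 : G.dist (g.getVert t) (g'.getVert t) ≤ G.dist (g.getVert t) (g.getVert (min t t0)) +
    G.dist (g.getVert (min t t0)) (g'.getVert t) := hG.dist_triangle
  have e2 : G.dist (g.getVert (min t t0)) (g'.getVert t) ≤
    G.dist (g.getVert (min t t0)) (g'.getVert (min t t0)) +
    G.dist (g'.getVert (min t t0)) (g'.getVert t) := hG.dist_triangle
  have e3 : G.dist (g.getVert t) (g.getVert (min t t0)) =
    G.dist (g.getVert (min t t0)) (g.getVert t) := SimpleGraph.dist_comm
  omega

/-- Gromov's inequality for the products at `x`. -/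
lemma product (hG : G.Connected) {x : V} {δ : ℕ} (h : ThinAt G x δ) (y z w : V) :
    min ((G.dist x y + G.dist x w : ℤ) - G.dist y w) (G.dist x w + G.dist x z - G.dist w z) ≤
      (G.dist x y + G.dist x z - G.dist y z : ℤ) + (12 * δ + 5) := by
  obtain ⟨gy, hgy⟩ := hG.exists_walk_length_eq_dist x y
  obtain ⟨gz, hgz⟩ := hG.exists_walk_length_eq_dist x z
  obtain ⟨gw, hgw⟩ := hG.exists_walk_length_eq_dist x w
  have a1 : G.dist y w ≤ G.dist y x + G.dist x w := hG.dist_triangle
  have a2 : G.dist w z ≤ G.dist w x + G.dist x z := hG.dist_triangle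
  rw [SimpleGraph.dist_comm (u := y) (v := x)] at a1
  rw [SimpleGraph.dist_comm (u := w) (v := x)] at a2
  have a3 : G.dist x w ≤ G.dist x y + G.dist y w := hG.dist_triangle
  have a4 : G.dist x w ≤ G.dist x z + G.dist z w := hG.dist_triangle
  have a5 : G.dist x y ≤ G.dist x w + G.dist w y := hG.dist_triangle
  have a6 : G.dist x z ≤ G.dist x w + G.dist w z := hG.dist_triangle
  rw [SimpleGraph.dist_comm (u := z) (v := w)] at a4
  rw [SimpleGraph.dist_comm (u := w) (v := y)] at a5
  obtain ⟨t, ht1, ht2, ht3⟩ : ∃ t : ℕ, 2 * t + G.dist y w ≤ G.dist x y + G.dist x w ∧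
      2 * t + G.dist w z ≤ G.dist x w + G.dist x z ∧
      (G.dist x y + G.dist x w ≤ 2 * t + 1 + G.dist y w ∨
        G.dist x w + G.dist x z ≤ 2 * t + 1 + G.dist w z) := by
    refine ⟨min (G.dist x y + G.dist x w - G.dist y w) (G.dist x w + G.dist x z - G.dist w z) / 2,
      ?_, ?_, ?_⟩ <;> omega
  have f1 := fellow hG h gy hgy gw hgw ht1
  have f2 := fellow hG h gw hgw gz hgz ht2
  have hty : t ≤ gy.length := by omega
  have htz : t ≤ gz.length := by omega
  have d1 := dist_end hG gy hgy hty
  have d2 := dist_end hG gz hgz htz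
  have b1 : G.dist y z ≤ G.dist y (gy.getVert t) + G.dist (gy.getVert t) z := hG.dist_triangle
  have b2 : G.dist (gy.getVert t) z ≤ G.dist (gy.getVert t) (gz.getVert t) +
    G.dist (gz.getVert t) z := hG.dist_triangle
  have b3 : G.dist (gy.getVert t) (gz.getVert t) ≤ G.dist (gy.getVert t) (gw.getVert t) +
    G.dist (gw.getVert t) (gz.getVert t) := hG.dist_triangle
  have b4 : G.dist y (gy.getVert t) = G.dist (gy.getVert t) y := SimpleGraph.dist_comm
  omega

/-- **Thin triangles at one vertex imply the four point condition.** -/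
theorem four_point {V : Type*} (G : SimpleGraph V) (hG : G.Connected) (x : V) (δ : ℕ)
    (h : ThinAt G x δ) (a b c d : V) :
    G.dist a b + G.dist c d ≤
      max (G.dist a c + G.dist b d) (G.dist a d + G.dist b c) + (100 * δ + 100) := by
  have p1 := product hG h a b c
  have p2 := product hG h a b d
  have p3 := product hG h c d a
  have p4 := product hG h c d b
  have c1 : G.dist c b = G.dist b c := SimpleGraph.dist_comm
  have c2 : G.dist d b = G.dist b d := SimpleGraph.dist_comm
  have c3 : G.dist c a = G.dist a c := SimpleGraph.dist_comm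
  have c4 : G.dist d a = G.dist a d := SimpleGraph.dist_comm
  rw [c1] at p1 p4
  rw [c2] at p2
  rw [c3] at p3
  omega

end Pool.Agent.TH692.FourPoint
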