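import Pool.Agent.TH948.HT.Defs

set_option autoImplicit false
set_option linter.unusedSectionVars false

/-!
# Tools for the probability estimates of `TH948/HT` (jobs 3934, 3935, helper692)
-/

namespace Pool.Agent.TH692.HTP

open Finset
open scoped Classical
open Pool.Agent.TH965.Spread Pool.Agent.TH948.KK Pool.Agent.TH948.BD Pool.Agent.TH948.HT

section gen

variable {X : Type*} [DecidableEq X]

lemma exs_sum {ι : Type*} (s : Finset X) (p : ℝ) (I : Finset ι) (g : ι → Finset X → ℝ) :
    exs s p (fun W => ∑ i ∈ I, g i W) = ∑ i ∈ I, exs s p (g i) := by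
  unfold exs
  rw [Finset.sum_comm]
  exact Finset.sum_congr rfl fun W _ => Finset.mul_sum _ _ _

lemma exs_prod (s : Finset X) (p : ℝ) (ψ : X → Bool → ℝ) :
    exs s p (fun W => ∏ x ∈ s, ψ x (decide (x ∈ W))) =
      ∏ x ∈ s, ((1 - p) * ψ x false + p * ψ x true) := by
  induction s using Finset.induction_on with
  | empty => rw [exs_empty, Finset.prod_empty, Finset.prod_empty]
  | insert y s hy ih =>
    rw [exs_insert s y hy, Finset.prod_insert hy]
    have h1 : exs s p (fun W => ∏ x ∈ insert y s, ψ x (decide (x ∈ W))) =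
        ψ y false * exs s p (fun W => ∏ x ∈ s, ψ x (decide (x ∈ W))) := by
      rw [← exs_mul_left]
      apply exs_congr
      intro W hW
      have hyW : y ∉ W := fun h => hy (hW h)
      rw [Finset.prod_insert hy, decide_eq_false hyW]
    have h2 : exs s p (fun W => ∏ x ∈ insert y s, ψ x (decide (x ∈ insert y W))) =
        ψ y true * exs s p (fun W => ∏ x ∈ s, ψ x (decide (x ∈ W))) := by
      rw [← exs_mul_left]
      apply exs_congr
      intro W hW
      rw [Finset.prod_insert hy, decide_eq_true (Finset.mem_insert_self y W)]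
      congr 1
      apply Finset.prod_congr rfl
      intro x hx
      have hxy : x ≠ y := fun h => hy (h ▸ hx)
      have : (x ∈ insert y W) = (x ∈ W) := by
        rw [Finset.mem_insert]
        simp [hxy]
      simp only [this]
    rw [h1, h2, ih]
    ring

/-- the expectation for two independent random subsets -/
noncomputable def E2 (s : Finset X) (a b : ℝ) (F : Finset X → Finset X → ℝ) : ℝ :=
  exs s a (fun W => exs s b (fun U => F W U))

lemma E2_prod (s : Finset X) (a b : ℝ) (φ : X → Bool → Bool → ℝ) :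
    E2 s a b (fun W U => ∏ x ∈ s, φ x (decide (x ∈ W)) (decide (x ∈ U))) =
      ∏ x ∈ s, ((1 - a) * ((1 - b) * φ x false false + b * φ x false true) +
        a * ((1 - b) * φ x true false + b * φ x true true)) := by
  unfold E2
  have h1 : ∀ W : Finset X, exs s b (fun U => ∏ x ∈ s, φ x (decide (x ∈ W)) (decide (x ∈ U))) =
      ∏ x ∈ s, ((1 - b) * φ x (decide (x ∈ W)) false + b * φ x (decide (x ∈ W)) true) :=
    fun W => exs_prod s b (fun x u => φ x (decide (x ∈ W)) u)
  simp only [h1]
  exact exs_prod s a (fun x w => (1 - b) * φ x w false + b * φ x w true)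

lemma E2_mono (s : Finset X) {a b : ℝ} (ha0 : 0 ≤ a) (ha1 : a ≤ 1) (hb0 : 0 ≤ b) (hb1 : b ≤ 1)
    {F G : Finset X → Finset X → ℝ} (h : ∀ W ⊆ s, ∀ U ⊆ s, F W U ≤ G W U) :
    E2 s a b F ≤ E2 s a b G :=
  exs_mono s ha0 ha1 fun W hW => exs_mono s hb0 hb1 fun U hU => h W hW U hU

lemma E2_nonneg (s : Finset X) {a b : ℝ} (ha0 : 0 ≤ a) (ha1 : a ≤ 1) (hb0 : 0 ≤ b) (hb1 : b ≤ 1)
    {F : Finset X → Finset X → ℝ} (h : ∀ W ⊆ s, ∀ U ⊆ s, 0 ≤ F W U) : 0 ≤ E2 s a b F :=
  exs_nonneg s ha0 ha1 fun W hW => exs_nonneg s hb0 hb1 fun U hU => h W hW U hU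

lemma E2_sum {ι : Type*} (s : Finset X) (a b : ℝ) (I : Finset ι)
    (F : ι → Finset X → Finset X → ℝ) :
    E2 s a b (fun W U => ∑ i ∈ I, F i W U) = ∑ i ∈ I, E2 s a b (F i) := by
  unfold E2
  simp only [exs_sum]

lemma E2_mul_left (s : Finset X) (a b c : ℝ) (F : Finset X → Finset X → ℝ) :
    E2 s a b (fun W U => c * F W U) = c * E2 s a b F := by
  unfold E2
  simp only [exs_mul_left]

end gen

section count

variable {n k : ℕ}

lemma mem_facets {f : Finset (Fin n)} : f ∈ facets n k ↔ f.card = k - 1 := by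
  unfold facets
  rw [mem_powersetCard]
  exact ⟨fun h => h.2, fun h => ⟨subset_univ _, h⟩⟩

lemma mem_edges {e : Finset (Fin n)} : e ∈ edges n k ↔ e.card = k := by
  unfold edges
  rw [mem_powersetCard]
  exact ⟨fun h => h.2, fun h => ⟨subset_univ _, h⟩⟩

lemma card_facets_le : (facets n k).card ≤ n ^ (k - 1) := by
  unfold facets
  rw [card_powersetCard, card_univ, Fintype.card_fin]
  exact Nat.choose_le_pow n (k - 1)

/-- the edges that contain `f` -/
noncomputable def Nf (n k : ℕ) (f : Finset (Fin n)) : Finset (Finset (Fin n)) :=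
  (edges n k).filter (fun e => f ⊆ e)

lemma Nf_eq (hk : 1 ≤ k) {f : Finset (Fin n)} (hf : f ∈ facets n k) :
    Nf n k f = (univ \ f).image (fun v => insert v f) := by
  rw [mem_facets] at hf
  ext e
  unfold Nf
  rw [mem_filter, mem_edges, mem_image]
  constructor
  · rintro ⟨h1, h2⟩
    obtain ⟨v, hv, hve⟩ := exists_eq_insert_iff.2 ⟨h2, by omega⟩
    exact ⟨v, by rw [mem_sdiff]; exact ⟨mem_univ _, hv⟩, hve⟩
  · rintro ⟨v, hv, rfl⟩
    rw [mem_sdiff] at hv
    exact ⟨by rw [card_insert_of_notMem hv.2]; omega, subset_insert _ _⟩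

lemma card_Nf (hk : 1 ≤ k) {f : Finset (Fin n)} (hf : f ∈ facets n k) :
    (Nf n k f).card = n - (k - 1) := by
  rw [Nf_eq hk hf, card_image_of_injOn, card_sdiff_of_subset (subset_univ _), card_univ,
    Fintype.card_fin, mem_facets.1 hf]
  intro v hv w hw h
  rw [mem_coe, mem_sdiff] at hv hw
  simp only at h
  have h1 : v ∈ insert w f := by
    rw [← h]
    exact mem_insert_self _ _
  rcases mem_insert.1 h1 with h2 | h2
  · exact h2
  · exact absurd h2 hv.2

/-- an edge containing two facets is their union -/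
lemma card_two (hk : 1 ≤ k) {f g : Finset (Fin n)} (hf : f ∈ facets n k) (hg : g ∈ facets n k)
    (hfg : f ≠ g) : ((edges n k).filter (fun e => f ⊆ e ∧ g ⊆ e)).card ≤ 1 := by
  rw [card_le_one]
  have key : ∀ e ∈ (edges n k).filter (fun e => f ⊆ e ∧ g ⊆ e), f ∪ g = e := by
    intro e he
    rw [mem_filter, mem_edges] at he
    rw [mem_facets] at hf hg
    apply eq_of_subset_of_card_le (union_subset he.2.1 he.2.2)
    rw [he.1]
    by_contra h
    push Not at h
    have h1 : (f ∪ g).card ≤ f.card := by omega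
    have h2 := eq_of_subset_of_card_le (subset_union_left : f ⊆ f ∪ g) h1
    have h3 : g ⊆ f := by
      rw [h2]
      exact subset_union_right
    exact hfg (eq_of_subset_of_card_le h3 (by omega)).symm
  intro a ha b hb
  rw [← key a ha, ← key b hb]

/-- the neighbours of an edge, and the edge itself -/
noncomputable def Nb (n k : ℕ) (e : Finset (Fin n)) : Finset (Finset (Fin n)) :=
  (edges n k).filter (fun e' => k - 1 ≤ (e ∩ e').card)

lemma card_Nb (hk : 1 ≤ k) {e : Finset (Fin n)} (he : e ∈ edges n k) :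
    (Nb n k e).card ≤ k * n := by
  have h1 : Nb n k e ⊆ (e ×ˢ (univ : Finset (Fin n))).image (fun x => insert x.2 (e.erase x.1)) := by
    intro e' he'
    unfold Nb at he'
    rw [mem_filter, mem_edges] at he'
    rw [mem_edges] at he
    obtain ⟨c, hc, hcc⟩ := exists_subset_card_eq he'.2
    obtain ⟨u, hu, hue⟩ := exists_eq_insert_iff.2 ⟨hc.trans inter_subset_left, by omega⟩
    obtain ⟨v, hv, hve⟩ := exists_eq_insert_iff.2 ⟨hc.trans inter_subset_right, by omega⟩
    rw [mem_image]
    refine ⟨(u, v), ?_, ?_⟩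
    · rw [mem_product]
      refine ⟨?_, mem_univ _⟩
      simp only
      rw [← hue]
      exact mem_insert_self _ _
    · simp only
      rw [← hue, erase_insert hu, hve]
  refine (card_le_card h1).trans (card_image_le.trans ?_)
  rw [card_product, card_univ, Fintype.card_fin, mem_edges.1 he]

lemma card_Fc (hk : 1 ≤ k) {e : Finset (Fin n)} (he : e ∈ edges n k) :
    (e.powersetCard (k - 1)).card = k := by
  rw [card_powersetCard, mem_edges.1 he]
  obtain ⟨m, rfl⟩ : ∃ m, k = m + 1 := ⟨k - 1, by omega⟩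
  rw [Nat.add_sub_cancel, Nat.choose_succ_self_right]

end count

section num

lemma log_div_lim : Filter.Tendsto (fun n : ℕ => Real.log n / n) Filter.atTop (nhds 0) := by
  have h := (Real.isLittleO_log_id_atTop.tendsto_div_nhds_zero).comp
    (tendsto_natCast_atTop_atTop (R := ℝ))
  exact h

/-- the densities are small -/
lemma dens (k : ℕ) (hk : 2 ≤ k) (δ : ℝ) (h0 : 0 < δ) (h1 : δ ≤ 1 / 8) :
    ∀ᶠ n : ℕ in Filter.atTop, 0 ≤ pm k δ n ∧ pm k δ n ≤ 1 ∧ 0 ≤ bb k δ n ∧ bb k δ n ≤ 1 ∧
      pm k δ n + bb k δ n - pm k δ n * bb k δ n = pp k δ n ∧ 0 ≤ pp k δ n ∧ pp k δ n ≤ 1 := by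
  have hk1 : (1 : ℝ) ≤ (k : ℝ) - 1 := by
    have : (2 : ℝ) ≤ k := by exact_mod_cast hk
    linarith
  have hlim : Filter.Tendsto (fun n : ℕ => (1 + δ) * ((k : ℝ) - 1) * (Real.log n / n)) Filter.atTop
      (nhds ((1 + δ) * ((k : ℝ) - 1) * 0)) := log_div_lim.const_mul _
  rw [mul_zero] at hlim
  filter_upwards [hlim.eventually (gt_mem_nhds (show (0 : ℝ) < 1 / 2 by norm_num)),
    Filter.eventually_ge_atTop 1] with n hn hn1
  have hnr : (0 : ℝ) < n := by exact_mod_cast hn1
  have hL : 0 ≤ Real.log n := Real.log_nonneg (by exact_mod_cast hn1)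
  have e1 : pp k δ n = (1 + δ) * ((k : ℝ) - 1) * (Real.log n / n) := by
    unfold pp
    ring
  have e2 : pm k δ n = (1 - δ) * ((k : ℝ) - 1) * (Real.log n / n) := by
    unfold pm
    ring
  have hX : 0 ≤ ((k : ℝ) - 1) * (Real.log n / n) := by positivity
  have hpm0 : 0 ≤ pm k δ n := by
    rw [e2, mul_assoc]
    exact mul_nonneg (by linarith) hX
  have hpp0 : 0 ≤ pp k δ n := by
    rw [e1, mul_assoc]
    exact mul_nonneg (by linarith) hX
  have hle : pm k δ n ≤ pp k δ n := by
    rw [e1, e2, mul_assoc, mul_assoc]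
    exact mul_le_mul_of_nonneg_right (by linarith) hX
  have hpp1 : pp k δ n < 1 / 2 := by
    rw [e1]
    exact hn
  have hd : 0 < 1 - pm k δ n := by linarith
  have hbb : bb k δ n * (1 - pm k δ n) = pp k δ n - pm k δ n := by
    unfold bb
    rw [div_mul_cancel₀ _ hd.ne']
  refine ⟨hpm0, by linarith, ?_, ?_, by linarith, hpp0, by linarith⟩
  · unfold bb
    exact div_nonneg (by linarith) hd.le
  · unfold bb
    rw [div_le_one hd]
    linarith

/-- powers of the logarithm against a power -/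
lemma log_pow_lim (m : ℕ) (c : ℝ) (hc : 0 < c) (C : ℝ) :
    Filter.Tendsto (fun n : ℕ => C * Real.log n ^ m * Real.exp (-(c * Real.log n))) Filter.atTop
      (nhds 0) := by
  have h := ((isLittleO_log_rpow_rpow_atTop (m : ℝ) hc).tendsto_div_nhds_zero).comp
    (tendsto_natCast_atTop_atTop (R := ℝ))
  have h2 := h.const_mul C
  rw [mul_zero] at h2
  refine h2.congr' ?_
  filter_upwards [Filter.eventually_ge_atTop 1] with n hn
  have hnr : (0 : ℝ) < n := by exact_mod_cast hn
  rw [Function.comp_apply, Real.rpow_natCast, Real.rpow_def_of_pos hnr, Real.exp_neg, mul_comm c]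
  rw [div_eq_mul_inv]
  ring

end num

end Pool.Agent.TH692.HTP
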