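import Pool.Agent.TH981.SD.Stm

set_option autoImplicit false

open Pool.Agent.TH981.SD
open Finset Set Filter
open scoped BigOperators Topology Classical

namespace Pool.Agent.TH692.J2271

theorem sum_pow {n : ℕ} (O : Finset (Fin n)) (A B : ℝ) :
    ∑ S ∈ O.powerset, B ^ S.card * A ^ (O.card - S.card) = (B + A) ^ O.card := by
  have h := Finset.prod_add (fun _ : Fin n => B) (fun _ => A) O
  rw [Finset.prod_const] at h
  rw [h]
  refine Finset.sum_congr rfl fun S hS => ?_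
  rw [Finset.prod_const, Finset.prod_const, Finset.card_sdiff_of_subset (Finset.mem_powerset.1 hS)]

theorem hval_eq {n : ℕ} {O : Finset (Fin n)} {a b : Fin n → ℝ} {A B : ℝ} (g : ℕ → ℝ) (r : ℕ)
    (ha : ∀ x ∈ O, a x = A) (hb : ∀ x ∈ O, b x = B) :
    hval O a b g r = ∑ S ∈ O.powerset, B ^ S.card * A ^ (O.card - S.card) * g (r + S.card) := by
  unfold hval
  refine Finset.sum_congr rfl fun S hS => ?_
  have hS' := Finset.mem_powerset.1 hS
  rw [Finset.prod_congr rfl (fun x hx => hb x (hS' hx)), Finset.prod_const,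
    Finset.prod_congr rfl (fun x hx => ha x (Finset.sdiff_subset hx)), Finset.prod_const,
    Finset.card_sdiff_of_subset hS']

theorem hval_le {n : ℕ} {O : Finset (Fin n)} {a b : Fin n → ℝ} {A B V : ℝ} (g : ℕ → ℝ)
    (ha : ∀ x ∈ O, a x = A) (hb : ∀ x ∈ O, b x = B) (hA : 0 ≤ A) (hB : 0 ≤ B)
    (hg : ∀ m ≤ O.card, g m ≤ V) : hval O a b g 0 ≤ (B + A) ^ O.card * V := by
  rw [hval_eq g 0 ha hb, ← sum_pow, Finset.sum_mul]
  refine Finset.sum_le_sum fun S hS => ?_
  rw [zero_add]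
  exact mul_le_mul_of_nonneg_left (hg _ (Finset.card_le_card (Finset.mem_powerset.1 hS)))
    (mul_nonneg (pow_nonneg hB _) (pow_nonneg hA _))

theorem le_hval {n : ℕ} {O : Finset (Fin n)} {a b : Fin n → ℝ} {A B V : ℝ} (g : ℕ → ℝ)
    (ha : ∀ x ∈ O, a x = A) (hb : ∀ x ∈ O, b x = B) (hA : 0 ≤ A) (hB : 0 ≤ B)
    (hg : ∀ m ≤ O.card, V ≤ g m) : (B + A) ^ O.card * V ≤ hval O a b g 0 := by
  rw [hval_eq g 0 ha hb, ← sum_pow, Finset.sum_mul]
  refine Finset.sum_le_sum fun S hS => ?_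
  rw [zero_add]
  exact mul_le_mul_of_nonneg_left (hg _ (Finset.card_le_card (Finset.mem_powerset.1 hS)))
    (mul_nonneg (pow_nonneg hB _) (pow_nonneg hA _))

theorem wtp (h1 : S_CB) (h2 : S_CNT) (h3 : S_AB) (h4 : S_VEX) (h5 : S_YF) : S_WTP := by
  intro α e0 ep e1 N j hpar he1
  obtain ⟨K1, hK1⟩ := h1 α e0 ep e1 N j hpar he1
  refine ⟨K1, ?_⟩
  intro s hα he0 hep hN he1' hK hF J G hJ hG ψ hψ
  have hcb := hK1 s hα he0 hep hN he1' hK hF
  have hN3 : 3 ≤ s.N := hF.par.N3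
  have hj1 : 1 ≤ j := hF.par.j1
  have ha0 := hF.par.a0
  have ha1 := hF.par.a1'
  have hz0 : 0 < s.z := by have := hF.z2; linarith
  have hz1 := hF.z1
  obtain ⟨c1, c2, c3⟩ := h2 j s.N J G hj1 (by omega) hJ hG
  obtain ⟨hadm, -, hbr⟩ := c2 ψ hψ
  have hPE : PE J G ψ ∧ ∀ i, ψ i ≠ none := by
    have := hψ.1
    unfold TEs at this
    rw [Finset.mem_filter] at this
    exact this.2
  have hmem : ψ ∈ PEs J G := by
    unfold PEs
    rw [Finset.mem_filter]
    exact ⟨Finset.mem_univ _, hPE.1⟩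
  have hsome : ∀ i, ∃ h, ψ i = some h := fun i => Option.ne_none_iff_exists'.1 (hPE.2 i)
  have hmiss : ∀ i, miss J ψ i = 0 := by
    intro i
    unfold miss
    rw [Finset.card_eq_zero, Finset.filter_eq_empty_iff]
    intro l _ hl
    exact hPE.2 l hl.2
  obtain ⟨d1, -⟩ := c1 ψ hmem
  have hcard : ∀ i h, ψ i = some h → (offN G (img ψ) h).card = dg G h - dg J i := by
    intro i h hi
    have := d1 i h hi
    rw [hmiss i] at this
    omega
  obtain ⟨ab1, -⟩ := h3 s.α s.z s.Y ha0 ha1 hz0 hz1 hF.hY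
  have hA : ∀ t, 0 ≤ t → ∀ i h, ψ i = some h → ∀ x ∈ offN G (img ψ) h,
      aW s.Y t (degs G (br G h x)) = s.Y 1 t := by
    intro t ht i h hi x hx
    obtain ⟨b1, b2⟩ := hbr i h x hi hx
    have : degs G (br G h x) = {1} := by
      unfold degs
      rw [b1]
      simp [b2]
    rw [this]
    exact (ab1 {1} t ht).2.2.2.2.2.2.2.1
  have hB : ∀ t, 0 ≤ t → ∀ i h, ψ i = some h → ∀ x ∈ offN G (img ψ) h,
      s.Kv i * bW s.α s.Y t (degs G (br G h x)) = s.Kv i * m1 s.Y t := by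
    intro t ht i h hi x hx
    obtain ⟨b1, b2⟩ := hbr i h x hi hx
    have : degs G (br G h x) = {1} := by
      unfold degs
      rw [b1]
      simp [b2]
    rw [this, (ab1 {1} t ht).2.2.2.2.2.2.2.2]
  have hY1 : ∀ t, 0 ≤ t → 0 ≤ s.Y 1 t := fun t ht => (hF.hY.pos 1 t ht).le
  have hm1 : ∀ t, 0 ≤ t → 0 ≤ m1 s.Y t := fun t ht => by
    unfold m1
    refine mul_nonneg (hY1 t ht) ?_
    have := hF.hY.le 2 t ht
    linarith
  have hKv : ∀ i, 0 ≤ s.Kv i := fun i => by
    have := (hcb.2.1 i).1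
    linarith
  have hKm : ∀ i t, 0 ≤ t → 0 ≤ s.Kv i * m1 s.Y t := fun i t ht => mul_nonneg (hKv i) (hm1 t ht)
  have hcc : ∀ i t, s.Kv i * m1 s.Y t + s.Y 1 t = cc s.Y (s.Kv i) t := fun i t => by
    unfold cc
    ring
  have hVnn : ∀ i d t, 0 ≤ t → 0 ≤ s.V i d t := fun i d t ht => ((hF.hV i).pos d t ht).le
  have hcnn : ∀ i t, 0 ≤ t → 0 ≤ cc s.Y (s.Kv i) t := fun i t ht => by
    rw [← hcc]
    exact add_nonneg (hKm i t ht) (hY1 t ht)
  have hPP : ∀ t, s.PP J (dv G ψ) t = ∏ i, (match ψ i with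
      | none => 0
      | some h => (cc s.Y (s.Kv i) t) ^ (offN G (img ψ) h).card * s.V i (dg G h) t) := by
    intro t
    unfold Sys.PP
    refine Finset.prod_congr rfl fun i _ => ?_
    obtain ⟨h, hi⟩ := hsome i
    have e1 : dv G ψ i = dg G h := by
      unfold dv
      rw [hi]
    rw [e1, hi]
    simp only
    rw [hcard i h hi]
  constructor
  · intro t ht
    rw [hPP t]
    unfold wt
    refine Finset.prod_le_prod ?_ ?_
    · intro i _
      obtain ⟨h, hi⟩ := hsome i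
      rw [hi]
      simp only
      unfold hubf
      rw [hval_eq _ 0 (hA t ht i h hi) (hB t ht i h hi)]
      refine Finset.sum_nonneg fun S _ => mul_nonneg (mul_nonneg (pow_nonneg (hKm i t ht) _)
        (pow_nonneg (hY1 t ht) _)) ?_
      rw [hmiss i]
      unfold Sys.Gf
      simp only [↓reduceIte]
      exact (hF.hu i).nonneg _ _ t ht
    · intro i _
      obtain ⟨h, hi⟩ := hsome i
      rw [hi]
      simp only
      unfold hubf
      rw [← hcc i t]
      refine hval_le _ (hA t ht i h hi) (hB t ht i h hi) (hY1 t ht) (hKm i t ht) ?_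
      intro m _
      rw [hmiss i]
      unfold Sys.Gf
      simp only [↓reduceIte]
      have hg0 : ∀ r, 0 ≤ g4 r := fun r => by unfold g4; split_ifs <;> norm_num
      have hg1 : ∀ r, g4 r ≤ 1 := fun r => by unfold g4; split_ifs <;> norm_num
      exact (h4 s.α s.z (s.Kv i) s.Y ha0 ha1 hz0 hz1 (hKv i) hF.hY).2.1 (s.V i) g4 (s.u i)
        (hF.hV i) hg0 hg1 (hF.hu i) (dg G h) m t ht
  · intro t ht1 ht2
    have ht : 0 ≤ t := hF.tMpos.le.trans ht1
    have e1 : (1 / (2:ℝ)) ^ j = ∏ _i : Fin j, (1 / (2:ℝ)) := by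
      rw [Finset.prod_const, Finset.card_univ, Fintype.card_fin]
    rw [hPP t, e1, ← Finset.prod_mul_distrib]
    unfold wt
    refine Finset.prod_le_prod ?_ ?_
    · intro i _
      obtain ⟨h, hi⟩ := hsome i
      rw [hi]
      simp only
      exact mul_nonneg (by norm_num) (mul_nonneg (pow_nonneg (hcnn i t ht) _) (hVnn i _ t ht))
    · intro i _
      obtain ⟨h, hi⟩ := hsome i
      rw [hi]
      simp only
      unfold hubf
      have hd := c3 h
      have hcle : (offN G (img ψ) h).card ≤ s.N := by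
        rw [hcard i h hi]
        omega
      have := le_hval (V := s.V i (dg G h) t / 2) (fun r => s.uM i (dg G h) r t)
        (hA t ht i h hi) (hB t ht i h hi) (hY1 t ht) (hKm i t ht)
        (fun m hm => hF.capM i (dg G h) m t hd.1 (by omega) (by omega) ht1 ht2)
      refine le_trans (le_of_eq ?_) this
      rw [hcc i t]
      ring

end Pool.Agent.TH692.J2271
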