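import Pool.Agent.TH279.UP.Defs4

/-!
The Hessian determinant of a smooth form is not divisible by the form (job 3511, helper692).
-/

set_option autoImplicit false

open MvPolynomial Pool.Agent.TH279.UP

namespace Pool.Agent.TH692.J3511

/-- if all forms of large degree are in the ideal of `g` the polynomial ring is integral over the
subring of the polynomials in `g` -/
theorem isIntegral_of_null {ι σ : Type} [Fintype ι] [Fintype σ] (g : ι → MvPolynomial σ ℂ)
    (m L0 : ℕ) (hm : 1 ≤ m)
    (h : ∀ D, L0 ≤ D → ∀ P : MvPolynomial σ ℂ, P.IsHomogeneous D →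
      ∃ T : ι → MvPolynomial σ ℂ, (∀ i, (T i).IsHomogeneous (D - m)) ∧ P = ∑ i, T i * g i) :
    ((aeval g : MvPolynomial ι ℂ →ₐ[ℂ] MvPolynomial σ ℂ) :
      MvPolynomial ι ℂ →+* MvPolynomial σ ℂ).IsIntegral := by
  classical
  apply RingHom.Finite.to_isIntegral
  letI : Algebra (MvPolynomial ι ℂ) (MvPolynomial σ ℂ) :=
    ((aeval g : MvPolynomial ι ℂ →ₐ[ℂ] MvPolynomial σ ℂ) :
      MvPolynomial ι ℂ →+* MvPolynomial σ ℂ).toAlgebra
  show Module.Finite (MvPolynomial ι ℂ) (MvPolynomial σ ℂ)
  have hsm : ∀ (c : MvPolynomial ι ℂ) (y : MvPolynomial σ ℂ), c • y = aeval g c * y := fun c y =>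
    Algebra.smul_def c y
  set S : Set (MvPolynomial σ ℂ) := (fun β : σ →₀ ℕ => monomial β (1:ℂ)) '' {β | β.degree ≤ L0}
    with hS
  have hfin : S.Finite := (Finsupp.finite_of_degree_le L0).image _
  have key : ∀ (D : ℕ) (P : MvPolynomial σ ℂ), P.IsHomogeneous D →
      P ∈ Submodule.span (MvPolynomial ι ℂ) S := by
    intro D
    induction D using Nat.strong_induction_on with
    | _ D ih =>
      intro P hP
      rcases le_or_gt D L0 with hD | hD
      · rw [P.as_sum]
        apply Submodule.sum_mem
        intro β hβ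
        have h1 : β.degree = D := by
          have := hP (mem_support_iff.1 hβ)
          rw [← this, Finsupp.degree_eq_weight_one]
          rfl
        have h2 : monomial β (coeff β P) =
            (C (coeff β P) : MvPolynomial ι ℂ) • (monomial β (1:ℂ) : MvPolynomial σ ℂ) := by
          rw [hsm, aeval_C, algebraMap_eq, C_mul_monomial, mul_one]
        rw [h2]
        apply Submodule.smul_mem
        apply Submodule.subset_span
        exact ⟨β, by rw [Set.mem_setOf_eq, h1]; exact hD, rfl⟩
      · obtain ⟨T, hT, hPT⟩ := h D hD.le P hP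
        rw [hPT]
        apply Submodule.sum_mem
        intro i _
        have h2 : T i * g i = (X i : MvPolynomial ι ℂ) • T i := by
          rw [hsm, aeval_X, mul_comm]
        rw [h2]
        apply Submodule.smul_mem
        exact ih (D - m) (by omega) _ (hT i)
  refine ⟨Submodule.fg_def.2 ⟨S, hfin, ?_⟩⟩
  rw [eq_top_iff]
  intro P _
  rw [← sum_homogeneousComponent P]
  apply Submodule.sum_mem
  intro k _
  exact key k _ (homogeneousComponent_isHomogeneous k P)

variable {σ : Type} [Fintype σ] {L : Type} [Field L]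

/-- the derivation given by a vector -/
noncomputable def D (φ : MvPolynomial σ ℂ →+* L) (v : σ → L) (P : MvPolynomial σ ℂ) : L :=
  ∑ j, v j * φ (pderiv j P)

theorem D_add (φ : MvPolynomial σ ℂ →+* L) (v : σ → L) (P Q : MvPolynomial σ ℂ) :
    D φ v (P + Q) = D φ v P + D φ v Q := by
  unfold D
  rw [← Finset.sum_add_distrib]
  exact Finset.sum_congr rfl fun j _ => by rw [map_add, map_add, mul_add]

theorem D_mul (φ : MvPolynomial σ ℂ →+* L) (v : σ → L) (P Q : MvPolynomial σ ℂ) :
    D φ v (P * Q) = φ P * D φ v Q + φ Q * D φ v P := by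
  unfold D
  rw [Finset.mul_sum, Finset.mul_sum, ← Finset.sum_add_distrib]
  exact Finset.sum_congr rfl fun j _ => by
    rw [pderiv_mul, map_add, map_mul, map_mul]
    ring

theorem D_C (φ : MvPolynomial σ ℂ →+* L) (v : σ → L) (c : ℂ) : D φ v (C c) = 0 := by
  unfold D
  exact Finset.sum_eq_zero fun j _ => by rw [pderiv_C, map_zero, mul_zero]

theorem D_X [DecidableEq σ] (φ : MvPolynomial σ ℂ →+* L) (v : σ → L) (i : σ) :
    D φ v (X i) = v i := by
  unfold D
  rw [Finset.sum_eq_single i]
  · rw [pderiv_X_self, map_one, mul_one]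
  · intro j _ hj
    rw [pderiv_X_of_ne (Ne.symm hj), map_zero, mul_zero]
  · intro h
    exact absurd (Finset.mem_univ _) h

/-- the derivation of a polynomial in constants -/
theorem D_aeval (φ : MvPolynomial σ ℂ →+* L) (v : σ → L) {ι : Type}
    (g : ι → MvPolynomial σ ℂ) (hg : ∀ i, D φ v (g i) = 0) (c : MvPolynomial ι ℂ) :
    D φ v (aeval g c) = 0 := by
  induction c using MvPolynomial.induction_on with
  | C a => rw [aeval_C, algebraMap_eq, D_C]
  | add p q hp hq => rw [map_add, D_add, hp, hq, add_zero]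
  | mul_X p i hp => rw [map_mul, aeval_X, D_mul, hp, hg, mul_zero, mul_zero, add_zero]

theorem D_pow (φ : MvPolynomial σ ℂ →+* L) (v : σ → L) (P : MvPolynomial σ ℂ) (k : ℕ) :
    D φ v (P ^ (k + 1)) = ((k : L) + 1) * φ P ^ k * D φ v P := by
  induction k with
  | zero => simp
  | succ k ih =>
    rw [pow_succ, D_mul, ih, map_pow]
    push_cast
    ring

/-- the derivation of a polynomial with constant coefficients -/
theorem D_eval₂ (φ : MvPolynomial σ ℂ →+* L) (v : σ → L) {ι : Type}
    (g : ι → MvPolynomial σ ℂ) (hg : ∀ i, D φ v (g i) = 0) (x : MvPolynomial σ ℂ)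
    (p : Polynomial (MvPolynomial ι ℂ)) :
    D φ v (Polynomial.eval₂ (aeval g : MvPolynomial ι ℂ →ₐ[ℂ] MvPolynomial σ ℂ).toRingHom x p) =
      φ (Polynomial.eval₂ (aeval g : MvPolynomial ι ℂ →ₐ[ℂ] MvPolynomial σ ℂ).toRingHom x
        (Polynomial.derivative p)) * D φ v x := by
  induction p using Polynomial.induction_on' with
  | add p q hp hq =>
    rw [Polynomial.eval₂_add, D_add, hp, hq, Polynomial.derivative_add, Polynomial.eval₂_add,
      map_add, add_mul]
  | monomial k a =>
    rw [Polynomial.eval₂_monomial, Polynomial.derivative_monomial, Polynomial.eval₂_monomial,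
      D_mul]
    have h1 : D φ v ((aeval g : MvPolynomial ι ℂ →ₐ[ℂ] MvPolynomial σ ℂ).toRingHom a) = 0 :=
      D_aeval φ v g hg a
    rw [h1, mul_zero, add_zero]
    cases k with
    | zero =>
      have h2 : D φ v (x ^ 0) = 0 := by
        have := D_C φ v 1
        rwa [C_1] at this
      rw [h2]
      simp
    | succ k =>
      rw [D_pow]
      simp only [map_mul, map_pow, map_natCast, Nat.add_sub_cancel]
      push_cast
      ring

/-- elements integral over the constants are constants -/
theorem D_eq_zero [CharZero L] (φ : MvPolynomial σ ℂ →+* L) (v : σ → L) {ι : Type}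
    (g : ι → MvPolynomial σ ℂ) (hg : ∀ i, D φ v (g i) = 0) (hker : ∀ P, φ P = 0 → D φ v P = 0)
    (x : MvPolynomial σ ℂ)
    (hx : ((aeval g : MvPolynomial ι ℂ →ₐ[ℂ] MvPolynomial σ ℂ) :
      MvPolynomial ι ℂ →+* MvPolynomial σ ℂ).IsIntegralElem x) : D φ v x = 0 := by
  classical
  set ψ : MvPolynomial ι ℂ →+* MvPolynomial σ ℂ :=
    (aeval g : MvPolynomial ι ℂ →ₐ[ℂ] MvPolynomial σ ℂ).toRingHom with hψ
  by_contra hne
  have hex : ∃ m : ℕ, ∃ p : Polynomial (MvPolynomial ι ℂ), p.natDegree = m ∧
      φ (ψ p.leadingCoeff) ≠ 0 ∧ φ (Polynomial.eval₂ ψ x p) = 0 := by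
    obtain ⟨p, hp, hpx⟩ := hx
    refine ⟨p.natDegree, p, rfl, ?_, ?_⟩
    · rw [hp.leadingCoeff, map_one, map_one]
      exact one_ne_zero
    · have h1 : Polynomial.eval₂ ψ x p = 0 := hpx
      rw [h1, map_zero]
  obtain ⟨p, hpm, hpl, hpx⟩ := Nat.find_spec hex
  have hmin := fun m => Nat.find_min (m := m) hex
  have h1 := hker _ hpx
  rw [hψ, D_eval₂ φ v g hg, ← hψ] at h1
  have h2 : φ (Polynomial.eval₂ ψ x (Polynomial.derivative p)) = 0 := by
    rcases mul_eq_zero.1 h1 with h | h
    · exact h
    · exact absurd h hne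
  have hdeg : 0 < p.natDegree := by
    rcases Nat.eq_zero_or_pos p.natDegree with h | h
    · exfalso
      rw [Polynomial.eq_C_of_natDegree_eq_zero h] at hpl hpx
      rw [Polynomial.leadingCoeff_C] at hpl
      rw [Polynomial.eval₂_C] at hpx
      exact hpl hpx
    · exact h
  have h3 : (Polynomial.derivative p).natDegree = p.natDegree - 1 :=
    Polynomial.natDegree_derivative p
  have h4 : (Polynomial.derivative p).leadingCoeff = p.leadingCoeff * (p.natDegree : MvPolynomial ι ℂ) := by
    rw [Polynomial.leadingCoeff, h3, Polynomial.coeff_derivative, Polynomial.leadingCoeff]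
    have h5 : p.natDegree - 1 + 1 = p.natDegree := by omega
    rw [h5]
    have h6 : ((p.natDegree - 1 : ℕ) : MvPolynomial ι ℂ) + 1 = (p.natDegree : MvPolynomial ι ℂ) := by
      rw [← Nat.cast_succ]
      congr 1
    rw [h6]
  refine hmin (p.natDegree - 1) (by omega) ⟨Polynomial.derivative p, h3, ?_, h2⟩
  rw [h4, map_mul, map_mul, map_natCast, map_natCast]
  exact mul_ne_zero hpl (by exact_mod_cast hdeg.ne')

theorem HESSM (hN : S_NULL) : S_HESSM := by
  classical
  intro n d F hd hF hs hirr hdvd
  have hF0 : F ≠ 0 := hirr.ne_zero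
  haveI hprime : (Ideal.span {F}).IsPrime :=
    (Ideal.span_singleton_prime hF0).2 hirr.prime
  set A := MvPolynomial (Fin (n + 1 + 1)) ℂ ⧸ Ideal.span {F} with hA
  set L := FractionRing A with hL
  haveI : CharZero L := algebraRat.charZero L
  set φ : MvPolynomial (Fin (n + 1 + 1)) ℂ →+* L :=
    (algebraMap A L).comp (Ideal.Quotient.mk (Ideal.span {F})) with hφ
  have hker : ∀ P, φ P = 0 → F ∣ P := by
    intro P hP
    rw [hφ, RingHom.comp_apply] at hP
    have h1 : Ideal.Quotient.mk (Ideal.span {F}) P = 0 :=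
      (IsFractionRing.injective A L) (by rw [hP, map_zero])
    rwa [Ideal.Quotient.eq_zero_iff_mem, Ideal.mem_span_singleton] at h1
  have hφF : ∀ P, F ∣ P → φ P = 0 := by
    intro P hP
    rw [hφ, RingHom.comp_apply]
    have h1 : Ideal.Quotient.mk (Ideal.span {F}) P = 0 := by
      rwa [Ideal.Quotient.eq_zero_iff_mem, Ideal.mem_span_singleton]
    rw [h1, map_zero]
  have hdet : ((Matrix.of fun i j => pderiv i (pderiv j F)).map φ).det = 0 := by
    have := hφF _ hdvd
    unfold hess at this
    rw [RingHom.map_det] at this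
    exact this
  obtain ⟨v, hv0, hv⟩ := Matrix.exists_vecMul_eq_zero_iff.2 hdet
  have hg : ∀ i, D φ v (pderiv i F) = 0 := by
    intro i
    have := congrFun hv i
    exact this
  have hDF : D φ v F = 0 := by
    have h1 := hF.sum_X_mul_pderiv
    have h2 : D φ v (∑ i, X i * pderiv i F) = D φ v F := by
      have h3 : ∀ s : Finset (Fin (n + 1 + 1)), D φ v (∑ i ∈ s, X i * pderiv i F) =
          ∑ i ∈ s, v i * φ (pderiv i F) := by
        intro s
        induction s using Finset.induction_on with
        | empty =>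
          have := D_C φ v 0
          rw [C_0] at this
          simpa using this
        | insert a s ha ih =>
          rw [Finset.sum_insert ha, Finset.sum_insert ha, D_add, ih, D_mul, hg, D_X, mul_zero,
            zero_add, mul_comm]
      rw [h3]
      rfl
    have h4 : D φ v (d • F) = (d : L) * D φ v F := by
      rw [nsmul_eq_mul, D_mul, map_natCast]
      have h5 : D φ v ((d : MvPolynomial (Fin (n + 1 + 1)) ℂ)) = 0 := by
        have := D_C φ v (d : ℂ)
        rwa [map_natCast] at this
      rw [h5, mul_zero, add_zero]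
    rw [h1, h4] at h2
    have h6 : ((d : L) - 1) * D φ v F = 0 := by rw [sub_mul, h2, one_mul, sub_self]
    rcases mul_eq_zero.1 h6 with h | h
    · exfalso
      have h7 : (d : L) = 1 := by linear_combination h
      have h8 : d = 1 := by exact_mod_cast h7
      omega
    · exact h
  have hkerD : ∀ P, φ P = 0 → D φ v P = 0 := by
    intro P hP
    obtain ⟨Q, rfl⟩ := hker P hP
    rw [D_mul, hDF, mul_zero, add_zero, hφF F dvd_rfl, zero_mul]
  obtain ⟨L0, hL0⟩ := hN n d F hd hF hs
  have hint := isIntegral_of_null (fun i => pderiv i F) (d - 1) L0 (by omega) hL0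
  apply hv0
  funext i
  rw [← D_X φ v i]
  exact D_eq_zero φ v (fun i => pderiv i F) hg hkerD (X i) (hint (X i))

end Pool.Agent.TH692.J3511
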