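import Pool.Agent.TH279.UP.Defs4

/-!
Irreducibility of a smooth form from that of its dehomogenisation (job 3515, helper692). The lemma on
factors of homogeneous polynomials is adapted from
`Pool/Agent/Results/MP_3738f3_ag/StabilityInterval.lean`.
-/

set_option autoImplicit false

open MvPolynomial Pool.Agent.TH279.UP

namespace Pool.Agent.TH692.J3515

open Pool.Agent.TH238.QP (dh dh_inj dh_X_zero dh_X_succ aeval_smul_hom)

variable {σ : Type} [Fintype σ]

/-- `P(X) ↦ P(T X)` -/
noncomputable def Phi : MvPolynomial σ ℂ →ₐ[ℂ] Polynomial (MvPolynomial σ ℂ) :=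
  MvPolynomial.aeval (fun i => Polynomial.C (X i) * Polynomial.X)

theorem Phi_monomial (d : σ →₀ ℕ) (c : ℂ) :
    Phi (monomial d c) = Polynomial.C (monomial d c) * Polynomial.X ^ d.degree := by
  rw [Phi, aeval_monomial, Finsupp.prod_fintype _ _ (by intro i; simp), Finsupp.degree_eq_sum]
  simp only [mul_pow]
  rw [Finset.prod_mul_distrib, Finset.prod_pow_eq_pow_sum, ← mul_assoc]
  congr 1
  rw [monomial_eq, Finsupp.prod_fintype _ _ (by intro i; simp), map_mul, map_prod]
  simp only [map_pow]
  rfl

theorem Phi_coeff (f : MvPolynomial σ ℂ) (k : ℕ) :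
    (Phi f).coeff k = homogeneousComponent k f := by
  induction f using MvPolynomial.induction_on' with
  | monomial u a =>
    rw [Phi_monomial, Polynomial.coeff_C_mul_X_pow]
    split_ifs with h
    · rw [homogeneousComponent_of_mem (n := k) (m := k) (isHomogeneous_monomial a h.symm)]
      simp
    · rw [homogeneousComponent_of_mem (n := u.degree) (m := k) (isHomogeneous_monomial a rfl)]
      simp [h]
  | add p q hp hq => rw [map_add, Polynomial.coeff_add, hp, hq, map_add]

theorem hom_of_mul {f g : MvPolynomial σ ℂ} {n : ℕ} (hfg : (f * g).IsHomogeneous n)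
    (hne : f * g ≠ 0) :
    ∃ a b, a + b = n ∧ f.IsHomogeneous a ∧ g.IsHomogeneous b := by
  have key : ∀ f : MvPolynomial σ ℂ, (Phi f).natDegree = (Phi f).natTrailingDegree →
      f.IsHomogeneous (Phi f).natDegree := by
    intro f hf
    have h1 : homogeneousComponent (Phi f).natDegree f = f := by
      conv_rhs => rw [← sum_homogeneousComponent (φ := f)]
      symm
      by_cases h0 : f = 0
      · subst h0; simp
      rw [Finset.sum_eq_single (Phi f).natDegree]
      · intro k _ hk
        rw [← Phi_coeff]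
        rcases lt_or_gt_of_ne hk with h | h
        · exact Polynomial.coeff_eq_zero_of_lt_natTrailingDegree (by omega)
        · exact Polynomial.coeff_eq_zero_of_natDegree_lt h
      · intro hk
        apply homogeneousComponent_eq_zero
        simpa using hk
    have h2 := homogeneousComponent_isHomogeneous (Phi f).natDegree f
    rwa [h1] at h2
  have hPhi : Phi f * Phi g = Polynomial.C (f * g) * Polynomial.X ^ n := by
    rw [← map_mul]
    refine Polynomial.ext (fun k => ?_)
    rw [Phi_coeff, Polynomial.coeff_C_mul_X_pow]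
    exact homogeneousComponent_of_mem hfg
  have hne' : Phi f * Phi g ≠ 0 := by
    rw [hPhi]
    exact mul_ne_zero (by simpa using hne) (pow_ne_zero _ Polynomial.X_ne_zero)
  have hf0 : Phi f ≠ 0 := left_ne_zero_of_mul hne'
  have hg0 : Phi g ≠ 0 := right_ne_zero_of_mul hne'
  have e1 : (Phi f).natDegree + (Phi g).natDegree = n := by
    rw [← Polynomial.natDegree_mul hf0 hg0, hPhi, Polynomial.natDegree_C_mul_X_pow n _ hne]
  have e2 : (Phi f).natTrailingDegree + (Phi g).natTrailingDegree = n := by
    rw [← Polynomial.natTrailingDegree_mul hf0 hg0, hPhi,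
      Polynomial.natTrailingDegree_mul_X_pow (by simpa using hne), Polynomial.natTrailingDegree_C,
      zero_add]
  have l1 := Polynomial.natTrailingDegree_le_natDegree (Phi f)
  have l2 := Polynomial.natTrailingDegree_le_natDegree (Phi g)
  exact ⟨_, _, e1, key f (by omega), key g (by omega)⟩

/-- a polynomial without a root is constant -/
theorem no_root {p : Polynomial ℂ} (h : ∀ t : ℂ, p.eval t ≠ 0) (s t : ℂ) : p.eval s = p.eval t := by
  have h1 : p.degree = 0 := by
    by_contra hd
    obtain ⟨x, hx⟩ := IsAlgClosed.exists_root p hd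
    exact h x hx
  rw [Polynomial.eq_C_of_degree_eq_zero h1, Polynomial.eval_C, Polynomial.eval_C]

theorem eval_line (g : σ → Polynomial ℂ) (t : ℂ) (P : MvPolynomial σ ℂ) :
    (aeval g P).eval t = eval (fun i => (g i).eval t) P := by
  have h1 : (Polynomial.aeval t).comp (aeval g) = aeval (fun i => Polynomial.aeval t (g i)) :=
    comp_aeval _ _
  have h2 := congrArg (fun f : MvPolynomial σ ℂ →ₐ[ℂ] ℂ => f P) h1
  exact h2

/-- a form of positive degree has a nontrivial zero on a plane -/
theorem exists_zero [DecidableEq σ] {e : ℕ} (he : 1 ≤ e) {P : MvPolynomial σ ℂ}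
    (hP : P.IsHomogeneous e) {i1 i2 : σ} (hi : i1 ≠ i2) :
    ∃ x : σ → ℂ, x ≠ 0 ∧ (∀ i, i ≠ i1 → i ≠ i2 → x i = 0) ∧ eval x P = 0 := by
  by_contra hcon
  push Not at hcon
  set p : Polynomial ℂ := aeval (fun i => if i = i1 then Polynomial.X else if i = i2 then 1 else 0) P
    with hp
  set q : Polynomial ℂ := aeval (fun i => if i = i1 then 1 else if i = i2 then Polynomial.X else 0) P
    with hq
  have ep : ∀ t, p.eval t = eval (fun i => if i = i1 then t else if i = i2 then 1 else 0) P := by
    intro t
    rw [hp, eval_line]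
    congr 2
    funext i
    split_ifs <;> simp
  have eq : ∀ t, q.eval t = eval (fun i => if i = i1 then 1 else if i = i2 then t else 0) P := by
    intro t
    rw [hq, eval_line]
    congr 2
    funext i
    split_ifs <;> simp
  have hp0 : ∀ t, p.eval t ≠ 0 := by
    intro t
    rw [ep]
    apply hcon
    · intro h
      have := congrFun h i2
      simp [hi.symm] at this
    · intro i h1 h2
      rw [if_neg h1, if_neg h2]
  have hq0 : ∀ t, q.eval t ≠ 0 := by
    intro t
    rw [eq]
    apply hcon
    · intro h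
      have := congrFun h i1
      simp at this
    · intro i h1 h2
      rw [if_neg h1, if_neg h2]
  have h1 : p.eval 2 = 2 ^ e * q.eval (1 / 2) := by
    rw [ep, eq]
    have h := aeval_smul_hom (K := ℂ) P e hP 2
      (fun i => if i = i1 then 1 else if i = i2 then (1 / 2 : ℂ) else 0)
    have h3 : (fun i => (2 : ℂ) * (if i = i1 then 1 else if i = i2 then (1 / 2 : ℂ) else 0)) =
        fun i => if i = i1 then 2 else if i = i2 then 1 else 0 := by
      funext i
      split_ifs <;> norm_num
    rw [h3] at h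
    exact h
  have h2 : p.eval 1 = q.eval 1 := by rw [ep, eq]
  rw [no_root hp0 2 1, h2, no_root hq0 (1 / 2) 1] at h1
  have h3 : ((2 : ℂ) ^ e - 1) * q.eval 1 = 0 := by linear_combination -h1
  rcases mul_eq_zero.1 h3 with h4 | h4
  · have h5 : (2 : ℂ) ^ e = 1 := by linear_combination h4
    have h6 : (2 : ℕ) ^ e = 1 := by exact_mod_cast h5
    have h7 : 2 ^ 1 ≤ 2 ^ e := Nat.pow_le_pow_right (by norm_num) he
    omega
  · exact hq0 1 h4

/-- a smooth form is not divisible by a coordinate -/
theorem not_dvd {n d : ℕ} {F : MvPolynomial (Fin (n + 1 + 1)) ℂ} (hn : 1 ≤ n) (hd : 2 ≤ d)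
    (hF : F.IsHomogeneous d) (hF0 : F ≠ 0) (hs : Smooth F) : ¬ X 0 ∣ F := by
  rintro ⟨F', rfl⟩
  obtain ⟨a, b, hab, ha, hb⟩ := hom_of_mul hF hF0
  have ha1 : a = 1 := ha.inj_right (isHomogeneous_X ℂ (0 : Fin (n + 1 + 1))) (X_ne_zero 0)
  have hne : ((0 : Fin (n + 1)).succ) ≠ (Fin.last n).succ := by
    intro h
    have h1 := Fin.succ_injective _ h
    have h2 := congrArg Fin.val h1
    simp at h2
    omega
  obtain ⟨x, hx0, hx, hxe⟩ := exists_zero (by omega : 1 ≤ b) hb hne
  apply hx0
  apply hs
  intro i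
  have h0 : x 0 = 0 := hx 0 (Fin.succ_ne_zero _).symm (Fin.succ_ne_zero _).symm
  rw [pderiv_mul, map_add, map_mul, map_mul, hxe, eval_X, h0, mul_zero, zero_mul, add_zero]

/-- a factor whose dehomogenisation is a unit is a unit -/
theorem unit_of {n : ℕ} {a : MvPolynomial (Fin (n + 1 + 1)) ℂ} {k : ℕ} (ha : a.IsHomogeneous k)
    (hX : ¬ X 0 ∣ a) (hu : IsUnit (dh n a)) : IsUnit a := by
  obtain ⟨c, hc, hca⟩ := MvPolynomial.isUnit_iff_eq_C_of_isReduced.1 hu
  have hC : dh n (C c) = C c := (dh n).commutes c
  have h1 : (a - C c * X 0 ^ k).IsHomogeneous k := by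
    apply ha.sub
    have := (isHomogeneous_C (Fin (n + 1 + 1)) c).mul
      ((isHomogeneous_X ℂ (0 : Fin (n + 1 + 1))).pow k)
    rwa [zero_add, one_mul] at this
  have h2 := dh_inj n k _ h1 (by
    rw [map_sub, map_mul, map_pow, dh_X_zero, one_pow, mul_one, hC, hca, sub_self])
  have h3 : a = C c * X 0 ^ k := sub_eq_zero.1 h2
  rcases Nat.eq_zero_or_pos k with hk | hk
  · rw [h3, hk, pow_zero, mul_one]
    exact hc.map C
  · exfalso
    apply hX
    rw [h3]
    exact Dvd.dvd.mul_left (dvd_pow_self _ (by omega)) _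

theorem IRR : S_IRR := by
  intro n d F hn hd hF hs hirr
  have hF0 : F ≠ 0 := by
    rintro rfl
    rw [map_zero] at hirr
    exact hirr.ne_zero rfl
  have hX := not_dvd hn hd hF hF0 hs
  constructor
  · intro hu
    exact hirr.not_isUnit (hu.map (dh n))
  · intro a b hab
    obtain ⟨k, l, -, ha, hb⟩ := hom_of_mul (hab ▸ hF) (hab ▸ hF0)
    have h1 : dh n F = dh n a * dh n b := by rw [hab, map_mul]
    rcases hirr.isUnit_or_isUnit h1 with h | h
    · left
      exact unit_of ha (fun h2 => hX (h2.trans ⟨b, hab⟩)) h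
    · right
      exact unit_of hb (fun h2 => hX (h2.trans ⟨a, by rw [hab, mul_comm]⟩)) h

end Pool.Agent.TH692.J3515
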