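import Pool.Agent.TH836.NS.Defs

/-!
# Nodal series: growth of the increments and the intersection count (jobs 4351, 4353, helper692)
-/

set_option autoImplicit false

namespace Pool.Agent.TH692.NCBez

open Filter Topology

/-! ### real analysis -/

section real

variable {f : ℕ → ℝ} {k c : ℕ} {δ : ℝ}

/-- the increments increase -/
lemma incr (hc : ∀ d, c ≤ d → f (d + k) - f d ≤ f (d + k + k) - f (d + k)) (d : ℕ) (hd : c ≤ d)
    (i j : ℕ) (hij : i ≤ j) :
    f (d + i * k + k) - f (d + i * k) ≤ f (d + j * k + k) - f (d + j * k) := by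
  induction j, hij using Nat.le_induction with
  | base => exact le_rfl
  | succ j hij ih =>
    refine ih.trans ?_
    have h := hc (d + j * k) (hd.trans (Nat.le_add_right _ _))
    have e : d + (j + 1) * k = d + j * k + k := by ring
    rw [e]
    exact h

lemma sum_le (hc : ∀ d, c ≤ d → f (d + k) - f d ≤ f (d + k + k) - f (d + k)) (d : ℕ) (hd : c ≤ d)
    (J : ℕ) : (J : ℝ) * (f (d + k) - f d) ≤ f (d + J * k) - f d := by
  induction J with
  | zero =>
    rw [Nat.cast_zero, zero_mul, zero_mul, add_zero, sub_self]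
  | succ J ih =>
    have h := incr hc d hd 0 J (Nat.zero_le _)
    rw [zero_mul, add_zero] at h
    have e : d + (J + 1) * k = d + J * k + k := by ring
    rw [e]
    push_cast
    linarith

lemma sum_ge (hc : ∀ d, c ≤ d → f (d + k) - f d ≤ f (d + k + k) - f (d + k)) (d : ℕ) (hd : c ≤ d)
    (J : ℕ) : f (d + J * k + k) - f d ≤ ((J : ℝ) + 1) * (f (d + J * k + k) - f (d + J * k)) := by
  induction J with
  | zero =>
    rw [zero_mul, add_zero, Nat.cast_zero, zero_add, one_mul]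
  | succ J ih =>
    have h := incr hc d hd J (J + 1) (Nat.le_succ _)
    have e : d + (J + 1) * k = d + J * k + k := by ring
    rw [e] at h ⊢
    have h2 : ((J : ℝ) + 1) * (f (d + J * k + k) - f (d + J * k)) ≤
        ((J : ℝ) + 1) * (f (d + J * k + k + k) - f (d + J * k + k)) :=
      mul_le_mul_of_nonneg_left h (by positivity)
    push_cast
    linarith

lemma quad (hg : Tendsto (fun d : ℕ => 2 * f d / (d : ℝ) ^ 2) atTop (𝓝 δ)) {ε : ℝ} (hε : 0 < ε) :
    ∃ d1 : ℕ, ∀ d : ℕ, d1 ≤ d → (δ / 2 - ε) * (d : ℝ) ^ 2 ≤ f d ∧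
      f d ≤ (δ / 2 + ε) * (d : ℝ) ^ 2 := by
  have h1 := hg.eventually (Metric.ball_mem_nhds δ (show (0 : ℝ) < 2 * ε by linarith))
  obtain ⟨d1, hd1⟩ := (h1.and (eventually_ge_atTop 1)).exists_forall_of_atTop
  refine ⟨d1, fun d hd => ?_⟩
  obtain ⟨h2, h3⟩ := hd1 d hd
  rw [Real.dist_eq, abs_lt] at h2
  have hd0 : (0 : ℝ) < (d : ℝ) ^ 2 := by
    have : (0 : ℝ) < d := by exact_mod_cast h3
    positivity
  have e : 2 * f d / (d : ℝ) ^ 2 * (d : ℝ) ^ 2 = 2 * f d := div_mul_cancel₀ _ hd0.ne'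
  constructor
  · have := mul_le_mul_of_nonneg_right h2.1.le hd0.le
    nlinarith
  · have := mul_le_mul_of_nonneg_right h2.2.le hd0.le
    nlinarith

/-- the number of steps -/
lemma steps (hk : 1 ≤ k) {θ : ℝ} (hθ : 0 < θ) {D : ℕ} (hD : 2 * k / θ ≤ (D : ℝ)) :
    1 ≤ ⌊θ * D / k⌋₊ ∧ ((⌊θ * D / k⌋₊ : ℝ) * k) ≤ θ * D ∧ θ * D / 2 ≤ (⌊θ * D / k⌋₊ : ℝ) * k := by
  have hk0 : (0 : ℝ) < k := by exact_mod_cast hk
  have h0 : 0 ≤ θ * D / k := by positivity
  have h1 : 2 * (k : ℝ) ≤ θ * D := by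
    rw [div_le_iff₀ hθ] at hD
    linarith
  have h2 : 2 ≤ θ * D / k := by
    rw [le_div_iff₀ hk0]
    exact h1
  have h3 := Nat.floor_le h0
  have h4 := Nat.lt_floor_add_one (θ * D / k)
  have e : θ * D / k * k = θ * D := div_mul_cancel₀ _ hk0.ne'
  refine ⟨?_, ?_, ?_⟩
  · rw [Nat.one_le_floor_iff]
    linarith
  · have := mul_le_mul_of_nonneg_right h3 hk0.le
    rw [e] at this
    exact this
  · have := mul_le_mul_of_nonneg_right h4.le hk0.le
    rw [e] at this
    nlinarith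

theorem lower (hk : 1 ≤ k) (hδ : 0 < δ)
    (hc : ∀ d, c ≤ d → f (d + k) - f d ≤ f (d + k + k) - f (d + k))
    (hg : Tendsto (fun d : ℕ => 2 * f d / (d : ℝ) ^ 2) atTop (𝓝 δ)) {η : ℝ} (hη : 0 < η) :
    ∃ d0 : ℕ, ∀ d : ℕ, d0 ≤ d → k ≤ d ∧ (k * δ - η) * d ≤ f d - f (d - k) := by
  have hk0 : (0 : ℝ) < k := by exact_mod_cast hk
  obtain ⟨θ, hθ0, hθ1, hθ2⟩ : ∃ θ : ℝ, 0 < θ ∧ θ ≤ 1 / 2 ∧ k * δ * θ ≤ η := by
    refine ⟨min (1 / 2) (η / (k * δ)), lt_min (by norm_num) (by positivity), min_le_left _ _, ?_⟩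
    calc k * δ * min (1 / 2) (η / (k * δ)) ≤ k * δ * (η / (k * δ)) :=
          mul_le_mul_of_nonneg_left (min_le_right _ _) (by positivity)
      _ = η := by field_simp
  obtain ⟨d1, hd1⟩ := quad hg (show 0 < η * θ / (16 * k) by positivity)
  obtain ⟨d2, hd2⟩ := exists_nat_ge (2 * k / θ)
  refine ⟨k + 2 * d1 + 2 * c + d2 + 1, fun D hD => ⟨by omega, ?_⟩⟩
  have hD2 : 2 * k / θ ≤ (D : ℝ) := hd2.trans (by exact_mod_cast (by omega : d2 ≤ D))
  obtain ⟨hJ1, hJ2, hJ3⟩ := steps hk hθ0 hD2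
  set J := ⌊θ * D / k⌋₊ with hJ
  have hDpos : (0 : ℝ) < D := by exact_mod_cast (by omega : 0 < D)
  have hJk : 2 * (J * k) ≤ D := by
    have : (2 : ℝ) * (J * k) ≤ D := by nlinarith
    exact_mod_cast this
  obtain ⟨J', hJ'⟩ : ∃ J', J = J' + 1 := ⟨J - 1, by omega⟩
  have hd : D = (D - J * k) + J' * k + k := by
    have : J * k = J' * k + k := by rw [hJ']; ring
    omega
  have hcd : c ≤ D - J * k := by omega
  have hs := sum_ge hc (D - J * k) hcd J'
  have hDk : D - k = (D - J * k) + J' * k := by omega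
  rw [← hd, ← hDk] at hs
  have hJr : (J' : ℝ) + 1 = J := by rw [hJ']; push_cast; ring
  rw [hJr] at hs
  have hf1 := (hd1 D (by omega)).1
  have hf2 := (hd1 (D - J * k) (by omega)).2
  have hcast : ((D - J * k : ℕ) : ℝ) = D - J * k := by
    rw [Nat.cast_sub (by omega)]
    push_cast
    ring
  rw [hcast] at hf2
  set y : ℝ := (J : ℝ) * k with hy
  set a : ℝ := f D - f (D - k) with ha
  set ε : ℝ := η * θ / (16 * k) with hε
  have hkε : k * ε = η * θ / 16 := by
    rw [hε]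
    field_simp
  have hy0 : 0 < y := by
    have : 0 < θ * D / 2 := by positivity
    linarith
  have hε0 : 0 < ε := by positivity
  have h1 : (J : ℝ) * a ≥ δ / 2 * (2 * D * y - y ^ 2) - 2 * ε * (D : ℝ) ^ 2 := by
    have h2 : ε * ((D : ℝ) - y) ^ 2 ≤ ε * (D : ℝ) ^ 2 := by
      apply mul_le_mul_of_nonneg_left _ hε0.le
      have hyD : y ≤ D := by nlinarith
      nlinarith
    nlinarith
  have h3 : y * a ≥ k * (δ / 2 * (2 * D * y - y ^ 2) - 2 * ε * (D : ℝ) ^ 2) := by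
    have := mul_le_mul_of_nonneg_left h1 hk0.le
    calc y * a = k * (J * a) := by rw [hy]; ring
      _ ≥ _ := this
  have h4 : k * δ * y ^ 2 ≤ η * D * y := by
    have h5 : k * δ * y ≤ η * D := by
      calc k * δ * y ≤ k * δ * (θ * D) := mul_le_mul_of_nonneg_left hJ2 (by positivity)
        _ = (k * δ * θ) * D := by ring
        _ ≤ η * D := mul_le_mul_of_nonneg_right hθ2 hDpos.le
    calc k * δ * y ^ 2 = (k * δ * y) * y := by ring
      _ ≤ _ := mul_le_mul_of_nonneg_right h5 hy0.le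
  have h6 : k * ε * (D : ℝ) ^ 2 ≤ η * D * y / 8 := by
    rw [hkε]
    have : η * D * (θ * D / 2) ≤ η * D * y := mul_le_mul_of_nonneg_left hJ3 (by positivity)
    nlinarith
  have h7 : y * ((k * δ - η) * D) ≤ y * a := by
    have : 0 ≤ η * D * y := by positivity
    nlinarith
  exact le_of_mul_le_mul_left h7 hy0

theorem upper (hk : 1 ≤ k) (hδ : 0 < δ)
    (hc : ∀ d, c ≤ d → f (d + k) - f d ≤ f (d + k + k) - f (d + k))
    (hg : Tendsto (fun d : ℕ => 2 * f d / (d : ℝ) ^ 2) atTop (𝓝 δ)) {η : ℝ} (hη : 0 < η) :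
    ∃ d0 : ℕ, ∀ d : ℕ, d0 ≤ d → f (d + k) - f d ≤ (k * δ + η) * d := by
  have hk0 : (0 : ℝ) < k := by exact_mod_cast hk
  obtain ⟨θ, hθ0, hθ1, hθ2⟩ : ∃ θ : ℝ, 0 < θ ∧ θ ≤ 1 / 2 ∧ k * δ * θ ≤ η := by
    refine ⟨min (1 / 2) (η / (k * δ)), lt_min (by norm_num) (by positivity), min_le_left _ _, ?_⟩
    calc k * δ * min (1 / 2) (η / (k * δ)) ≤ k * δ * (η / (k * δ)) :=
          mul_le_mul_of_nonneg_left (min_le_right _ _) (by positivity)
      _ = η := by field_simp
  obtain ⟨d1, hd1⟩ := quad hg (show 0 < η * θ / (32 * k) by positivity)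
  obtain ⟨d2, hd2⟩ := exists_nat_ge (2 * k / θ)
  refine ⟨k + d1 + c + d2 + 1, fun D hD => ?_⟩
  have hD2 : 2 * k / θ ≤ (D : ℝ) := hd2.trans (by exact_mod_cast (by omega : d2 ≤ D))
  obtain ⟨hJ1, hJ2, hJ3⟩ := steps hk hθ0 hD2
  set J := ⌊θ * D / k⌋₊ with hJ
  have hDpos : (0 : ℝ) < D := by exact_mod_cast (by omega : 0 < D)
  have hs := sum_le hc D (by omega) J
  have hf1 := (hd1 D (by omega)).1
  have hf2 := (hd1 (D + J * k) (by omega)).2
  push_cast at hf2
  set y : ℝ := (J : ℝ) * k with hy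
  set a : ℝ := f (D + k) - f D with ha
  set ε : ℝ := η * θ / (32 * k) with hε
  have hkε : k * ε = η * θ / 32 := by
    rw [hε]
    field_simp
  have hy0 : 0 < y := by
    have : 0 < θ * D / 2 := by positivity
    linarith
  have hε0 : 0 < ε := by positivity
  have h1 : (J : ℝ) * a ≤ δ / 2 * (2 * D * y + y ^ 2) + 5 * ε * (D : ℝ) ^ 2 := by
    have h2 : ε * ((D : ℝ) + y) ^ 2 ≤ ε * (4 * (D : ℝ) ^ 2) := by
      apply mul_le_mul_of_nonneg_left _ hε0.le
      have hyD : y ≤ D := by nlinarith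
      nlinarith
    nlinarith
  have h3 : y * a ≤ k * (δ / 2 * (2 * D * y + y ^ 2) + 5 * ε * (D : ℝ) ^ 2) := by
    have := mul_le_mul_of_nonneg_left h1 hk0.le
    calc y * a = k * (J * a) := by rw [hy]; ring
      _ ≤ _ := this
  have h4 : k * δ * y ^ 2 ≤ η * D * y := by
    have h5 : k * δ * y ≤ η * D := by
      calc k * δ * y ≤ k * δ * (θ * D) := mul_le_mul_of_nonneg_left hJ2 (by positivity)
        _ = (k * δ * θ) * D := by ring
        _ ≤ η * D := mul_le_mul_of_nonneg_right hθ2 hDpos.le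
    calc k * δ * y ^ 2 = (k * δ * y) * y := by ring
      _ ≤ _ := mul_le_mul_of_nonneg_right h5 hy0.le
  have h6 : k * ε * (D : ℝ) ^ 2 ≤ η * D * y / 16 := by
    rw [hkε]
    have : η * D * (θ * D / 2) ≤ η * D * y := mul_le_mul_of_nonneg_left hJ3 (by positivity)
    nlinarith
  have h7 : y * a ≤ y * ((k * δ + η) * D) := by
    have : 0 ≤ η * D * y := by positivity
    nlinarith
  exact le_of_mul_le_mul_left h7 hy0

end real

/-! ### algebra -/

section alg

open Pool.Agent.TH836.NS Module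

variable {F : Type} [Field F] {k : ℕ} {δ : ℝ}

/-- multiplication by `g` -/
noncomputable def ml (g : PP F) : PP F →ₗ[F] PP F := LinearMap.mulLeft F g

lemma ml_apply (g h : PP F) : ml g h = g * h := rfl

lemma ml_inj {g : PP F} (hg : g ≠ 0) : Function.Injective (ml g) := by
  intro a b hab
  rw [ml_apply, ml_apply] at hab
  have h1 : g * (a - b) = 0 := by rw [mul_sub, hab, sub_self]
  rcases mul_eq_zero.1 h1 with h2 | h2
  · exact absurd h2 hg
  · exact sub_eq_zero.1 h2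

lemma finrank_ml {g : PP F} (hg : g ≠ 0) (p : Submodule F (PP F)) :
    finrank F (p.map (ml g)) = finrank F p :=
  (LinearEquiv.finrank_eq (Submodule.equivMapOfInjective (ml g) (ml_inj hg) p)).symm

lemma xx_a0 (a : ℕ) : xx a 0 = Finsupp.single 0 a := by
  unfold xx
  rw [Finsupp.single_zero, add_zero]

lemma xx_0b (b : ℕ) : xx 0 b = Finsupp.single 1 b := by
  unfold xx
  rw [Finsupp.single_zero, zero_add]

lemma cc_mul0 (g h : PP F) (a : ℕ) :
    cc (g * h) a 0 = ∑ p ∈ Finset.HasAntidiagonal.antidiagonal a, cc g p.1 0 * cc h p.2 0 := by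
  unfold cc
  rw [MvPowerSeries.coeff_mul, xx_a0, Finsupp.antidiagonal_single, Finset.sum_map]
  apply Finset.sum_congr rfl
  intro p _
  rw [xx_a0, xx_a0]
  rfl

lemma cc_mul1 (g h : PP F) (b : ℕ) :
    cc (g * h) 0 b = ∑ p ∈ Finset.HasAntidiagonal.antidiagonal b, cc g 0 p.1 * cc h 0 p.2 := by
  unfold cc
  rw [MvPowerSeries.coeff_mul, xx_0b, Finsupp.antidiagonal_single, Finset.sum_map]
  apply Finset.sum_congr rfl
  intro p _
  rw [xx_0b, xx_0b]
  rfl

/-- the restriction to `v = 0` -/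
noncomputable def r0 (g : PP F) : PowerSeries F := PowerSeries.mk fun a => cc g a 0

lemma coeff_r0 (g : PP F) (a : ℕ) : PowerSeries.coeff a (r0 g) = cc g a 0 :=
  PowerSeries.coeff_mk _ _

lemma r0_mul (g h : PP F) : r0 (g * h) = r0 g * r0 h := by
  ext a
  rw [PowerSeries.coeff_mul, coeff_r0, cc_mul0]
  simp only [coeff_r0]

lemma cc_uv0 (a : ℕ) : cc (uv F) a 0 = 0 := by
  have hX : ∀ a, cc (MvPowerSeries.X 1 : PP F) a 0 = 0 := by
    intro a
    unfold cc
    rw [xx_a0, MvPowerSeries.coeff_X, if_neg]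
    intro h
    have := DFunLike.congr_fun h 1
    simp at this
  unfold uv
  rw [cc_mul0]
  apply Finset.sum_eq_zero
  intro p _
  rw [hX, mul_zero]

lemma cc_uv1 (b : ℕ) : cc (uv F) 0 b = 0 := by
  have hX : ∀ b, cc (MvPowerSeries.X 0 : PP F) 0 b = 0 := by
    intro b
    unfold cc
    rw [xx_0b, MvPowerSeries.coeff_X, if_neg]
    intro h
    have := DFunLike.congr_fun h 0
    simp at this
  unfold uv
  rw [cc_mul1]
  apply Finset.sum_eq_zero
  intro p _
  rw [hX, zero_mul]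

lemma cc_uvm0 (g : PP F) (a : ℕ) : cc (uv F * g) a 0 = 0 := by
  rw [cc_mul0]
  apply Finset.sum_eq_zero
  intro p _
  rw [cc_uv0, zero_mul]

lemma cc_uvm1 (g : PP F) (b : ℕ) : cc (uv F * g) 0 b = 0 := by
  rw [cc_mul1]
  apply Finset.sum_eq_zero
  intro p _
  rw [cc_uv1, zero_mul]

lemma uv_ne : uv F ≠ 0 := by
  unfold uv
  intro h
  rcases mul_eq_zero.1 h with h | h
  · have h1 := congrArg (MvPowerSeries.coeff (Finsupp.single 0 1)) h
    rw [MvPowerSeries.coeff_X, if_pos rfl, map_zero] at h1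
    exact one_ne_zero h1
  · have h1 := congrArg (MvPowerSeries.coeff (Finsupp.single 1 1)) h
    rw [MvPowerSeries.coeff_X, if_pos rfl, map_zero] at h1
    exact one_ne_zero h1

lemma V_le (N : Nodal F k δ) (d : ℕ) : N.V d ≤ N.V (d + k) := by
  intro f hf
  have := N.mul_mem hf N.one_mem
  rwa [mul_one] at this

lemma uvV_le (N : Nodal F k δ) (d : ℕ) : (N.V d).map (ml (uv F)) ≤ N.V (d + k) := by
  intro f hf
  obtain ⟨h, hh, rfl⟩ := hf
  rw [ml_apply, mul_comm]
  exact N.mul_mem hh N.uv_mem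

lemma key (N : Nodal F k δ) (d : ℕ) (hd : N.c ≤ d) :
    finrank F (N.V (d + k)) + finrank F (N.V (d + k)) ≤
      finrank F (N.V (d + k + k)) + finrank F (N.V d) := by
  haveI := N.fin
  have h1 : N.V (d + k) ⊔ (N.V (d + k)).map (ml (uv F)) ≤ N.V (d + k + k) :=
    sup_le (V_le N _) (uvV_le N _)
  have h2 : N.V (d + k) ⊓ (N.V (d + k)).map (ml (uv F)) ≤ (N.V d).map (ml (uv F)) := by
    intro x hx
    rw [Submodule.mem_inf] at hx
    obtain ⟨hx1, h, hh, rfl⟩ := hx
    rw [ml_apply] at hx1 ⊢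
    obtain ⟨g', hg', he⟩ := N.prime (d + k) (uv F * h) (by omega) (by omega) hx1
      (Or.inl fun a => cc_uvm0 h a)
    rw [Nat.add_sub_cancel] at hg'
    rw [he]
    exact ⟨g', hg', rfl⟩
  have h3 := Submodule.finrank_sup_add_finrank_inf_eq (N.V (d + k)) ((N.V (d + k)).map (ml (uv F)))
  have h4 := Submodule.finrank_mono h1
  have h5 := Submodule.finrank_mono h2
  rw [finrank_ml uv_ne] at h3 h5
  omega

lemma jets_surj (N : Nodal F k δ) (s0 s1 : ℕ) : ∃ d0 : ℕ, ∀ d : ℕ, d0 ≤ d →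
    ∀ (x : Fin s0 → F) (y : Fin s1 → F), ∃ g ∈ N.V d, (∀ i : Fin s0, cc g i 0 = x i) ∧
      ∀ j : Fin s1, cc g 0 (j + 1) = y j := by
  obtain ⟨d0, hd0⟩ := N.jets (s0 + s1)
  refine ⟨d0, fun d hd x y => ?_⟩
  set p : PP F := fun n => if n 1 = 0 then (if h : n 0 < s0 then x ⟨n 0, h⟩ else 0) else
    (if h : n 1 - 1 < s1 then y ⟨n 1 - 1, h⟩ else 0) with hp
  obtain ⟨g, hg, hgp⟩ := hd0 d hd p
  refine ⟨g, hg, fun i => ?_, fun j => ?_⟩
  · rw [hgp i 0 (by omega)]
    have e : cc p i 0 = p (xx i 0) := rfl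
    have e0 : (xx (i : ℕ) 0) 0 = (i : ℕ) := by rw [xx_a0, Finsupp.single_eq_same]
    have e1 : (xx (i : ℕ) 0) 1 = 0 := by rw [xx_a0]; simp
    rw [e, hp]
    simp only [e0, e1, if_true, dif_pos i.2]
  · rw [hgp 0 (j + 1) (by omega)]
    have e : cc p 0 (j + 1) = p (xx 0 (j + 1)) := rfl
    have e1 : (xx 0 ((j : ℕ) + 1)) 1 = (j : ℕ) + 1 := by rw [xx_0b, Finsupp.single_eq_same]
    rw [e, hp]
    simp only [e1, Nat.add_sub_cancel, dif_pos j.2]
    rw [if_neg (Nat.succ_ne_zero _)]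

/-- the first coefficients on the two branches -/
noncomputable def LL (F : Type) [Field F] (s0 s1 : ℕ) : PP F →ₗ[F] (Fin s0 → F) × (Fin s1 → F) :=
  (LinearMap.pi fun i : Fin s0 => MvPowerSeries.coeff (xx i 0)).prod
    (LinearMap.pi fun j : Fin s1 => MvPowerSeries.coeff (xx 0 (j + 1)))

lemma count (N : Nodal F k δ) (s0 s1 : ℕ) : ∃ d0 : ℕ, ∀ d : ℕ, d0 ≤ d →
    ∀ Q : Submodule F (PP F), Q ≤ N.V d → (∀ g ∈ Q, (∀ i < s0, cc g i 0 = 0) ∧
      ∀ j < s1, cc g 0 (j + 1) = 0) → finrank F Q + (s0 + s1) ≤ finrank F (N.V d) := by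
  obtain ⟨d0, hd0⟩ := jets_surj N s0 s1
  refine ⟨d0, fun d hd Q hQ hQ2 => ?_⟩
  haveI := N.fin d
  set L := (LL F s0 s1).domRestrict (N.V d) with hL
  have h1 := LinearMap.finrank_range_add_finrank_ker L
  have h2 : LinearMap.range L = ⊤ := by
    rw [LinearMap.range_eq_top]
    rintro ⟨x, y⟩
    obtain ⟨g, hg, hgx, hgy⟩ := hd0 d hd x y
    refine ⟨⟨g, hg⟩, ?_⟩
    refine Prod.ext ?_ ?_
    · funext i
      exact hgx i
    · funext j
      exact hgy j
  rw [h2, finrank_top, finrank_prod, finrank_fin_fun, finrank_fin_fun] at h1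
  have h3 : Q.comap (N.V d).subtype ≤ LinearMap.ker L := by
    intro g hg
    rw [Submodule.mem_comap] at hg
    rw [LinearMap.mem_ker]
    obtain ⟨hg1, hg2⟩ := hQ2 _ hg
    refine Prod.ext ?_ ?_
    · funext i
      exact hg1 i i.2
    · funext j
      exact hg2 j j.2
  have h4 := Submodule.finrank_mono h3
  rw [LinearEquiv.finrank_eq (Submodule.comapSubtypeEquivOfLe hQ)] at h4
  omega

lemma key2 (N : Nodal F k δ) {d : ℕ} {g : PP F} (hg : g ∈ N.V d) {s0 s1 : ℕ}
    (h0 : cc g s0 0 ≠ 0) (h0' : ∀ a < s0, cc g a 0 = 0) (h1' : ∀ b < s1 + 1, cc g 0 b = 0) :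
    ∃ m0 : ℕ, ∀ m : ℕ, m0 ≤ m → s0 + s1 + finrank F (N.V (m + d)) + finrank F (N.V (m + k)) ≤
      finrank F (N.V (m + d + k)) + finrank F (N.V m) := by
  haveI := N.fin
  obtain ⟨d0, hd0⟩ := count N s0 s1
  refine ⟨d0 + N.c, fun m hm => ?_⟩
  have hg0 : g ≠ 0 := by
    rintro rfl
    apply h0
    unfold cc
    rw [map_zero]
  have hA : (N.V (m + d)).map (ml (uv F)) ≤ N.V (m + d + k) := uvV_le N _
  have hB : (N.V (m + k)).map (ml g) ≤ N.V (m + d + k) := by
    rintro x ⟨f, hf, rfl⟩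
    rw [ml_apply, mul_comm]
    have := N.mul_mem hf hg
    have e : m + k + d = m + d + k := by ring
    rwa [e] at this
  have hI : (N.V (m + d)).map (ml (uv F)) ⊓ (N.V (m + k)).map (ml g) ≤
      (N.V m).map (ml (g * uv F)) := by
    intro x hx
    rw [Submodule.mem_inf] at hx
    obtain ⟨⟨h, _, hx1⟩, ⟨f, hf, hx2⟩⟩ := hx
    rw [ml_apply] at hx1 hx2
    have h1 : r0 (g * f) = 0 := by
      ext a
      rw [coeff_r0, hx2, ← hx1, cc_uvm0, map_zero]
    rw [r0_mul] at h1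
    have h2 : r0 f = 0 := by
      rcases mul_eq_zero.1 h1 with h3 | h3
      · exfalso
        apply h0
        rw [← coeff_r0, h3, map_zero]
      · exact h3
    obtain ⟨f', hf', he⟩ := N.prime (m + k) f (by omega) (by omega) hf
      (Or.inl fun a => by rw [← coeff_r0, h2, map_zero])
    rw [Nat.add_sub_cancel] at hf'
    refine ⟨f', hf', ?_⟩
    rw [ml_apply, ← hx2, he, mul_assoc]
  have hQ : ∀ x ∈ (N.V (m + d)).map (ml (uv F)) ⊔ (N.V (m + k)).map (ml g),
      (∀ i < s0, cc x i 0 = 0) ∧ ∀ j < s1, cc x 0 (j + 1) = 0 := by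
    intro x hx
    rw [Submodule.mem_sup] at hx
    obtain ⟨_, ⟨h, _, rfl⟩, _, ⟨f, _, rfl⟩, rfl⟩ := hx
    have hadd : ∀ (p q : PP F) (a b : ℕ), cc (p + q) a b = cc p a b + cc q a b := by
      intro p q a b
      unfold cc
      rw [map_add]
    constructor
    · intro i hi
      rw [ml_apply, ml_apply, hadd, cc_uvm0, zero_add, cc_mul0]
      apply Finset.sum_eq_zero
      intro p hp
      rw [Finset.HasAntidiagonal.mem_antidiagonal] at hp
      rw [h0' p.1 (by omega), zero_mul]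
    · intro j hj
      rw [ml_apply, ml_apply, hadd, cc_uvm1, zero_add, cc_mul1]
      apply Finset.sum_eq_zero
      intro p hp
      rw [Finset.HasAntidiagonal.mem_antidiagonal] at hp
      rw [h1' p.1 (by omega), zero_mul]
  have h3 := Submodule.finrank_sup_add_finrank_inf_eq ((N.V (m + d)).map (ml (uv F)))
    ((N.V (m + k)).map (ml g))
  have h4 := hd0 (m + d + k) (by omega) _ (sup_le hA hB) hQ
  have h5 := Submodule.finrank_mono hI
  rw [finrank_ml uv_ne, finrank_ml hg0] at h3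
  rw [finrank_ml (mul_ne_zero hg0 uv_ne)] at h5
  omega

end alg

end Pool.Agent.TH692.NCBez

namespace Pool.Agent.TH836.NS

open Filter Topology Pool.Agent.TH176.Nag Pool.Agent.TH880.NB Pool.Agent.TH692.NCBez

variable {F : Type} [Field F] {k : ℕ} {δ : ℝ}

theorem Nodal.dim_lower (N : Nodal F k δ) {η : ℝ} (hη : 0 < η) :
    ∃ d0 : ℕ, ∀ d : ℕ, d0 ≤ d → k ≤ d ∧
      (k * δ - η) * d ≤ (Module.finrank F (N.V d) : ℝ) - Module.finrank F (N.V (d - k)) :=
  lower (f := fun d => (Module.finrank F (N.V d) : ℝ)) N.k_pos N.δ_pos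
    (c := N.c) (fun d hd => by
      have h : (Module.finrank F (N.V (d + k)) : ℝ) + Module.finrank F (N.V (d + k)) ≤
          Module.finrank F (N.V (d + k + k)) + Module.finrank F (N.V d) := by
        exact_mod_cast key N d hd
      linarith) N.growth hη

theorem Nodal.bezout (N : Nodal F k δ) {d : ℕ} {g : PP F} (hg : g ∈ N.V d) {s0 s1 : ℕ}
    (h0 : cc g s0 0 ≠ 0) (h0' : ∀ a < s0, cc g a 0 = 0) (h1 : cc g 0 s1 ≠ 0)
    (h1' : ∀ b < s1, cc g 0 b = 0) : (s0 : ℝ) + s1 ≤ k * δ * d + 1 := by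
  have hk0 : (0 : ℝ) < k := by exact_mod_cast N.k_pos
  have hδ := N.δ_pos
  rcases Nat.eq_zero_or_pos s1 with hs | hs
  · have hs0 : s0 = 0 := by
      by_contra h
      apply h1
      rw [hs]
      exact h0' 0 (Nat.pos_of_ne_zero h)
    rw [hs, hs0, Nat.cast_zero, add_zero]
    positivity
  obtain ⟨s, rfl⟩ : ∃ s, s1 = s + 1 := ⟨s1 - 1, by omega⟩
  obtain ⟨m0, hm0⟩ := key2 N hg h0 h0' h1'
  set f : ℕ → ℝ := fun d => (Module.finrank F (N.V d) : ℝ) with hf
  by_contra hcon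
  push Not at hcon
  push_cast at hcon
  have hlt : (k : ℝ) * δ * d < s0 + s := by linarith
  set η : ℝ := ((s0 + s : ℝ) - k * δ * d) / (2 * (d + 1)) with hη
  have hd0 : (0 : ℝ) ≤ d := Nat.cast_nonneg d
  have hη0 : 0 < η := by
    rw [hη]
    apply div_pos (by linarith) (by positivity)
  have hηd : η * d < (s0 + s : ℝ) - k * δ * d := by
    have h2 : η * (2 * (d + 1)) = (s0 + s : ℝ) - k * δ * d := by
      rw [hη]
      exact div_mul_cancel₀ _ (by positivity)
    nlinarith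
  obtain ⟨d1, hd1⟩ := upper (f := f) N.k_pos hδ (c := N.c) (fun d hd => by
      have h : (Module.finrank F (N.V (d + k)) : ℝ) + Module.finrank F (N.V (d + k)) ≤
          Module.finrank F (N.V (d + k + k)) + Module.finrank F (N.V d) := by
        exact_mod_cast key N d hd
      simp only [hf]
      linarith) N.growth hη0
  set M := m0 + d1 with hM
  have hgrow : ∀ j : ℕ, (j : ℝ) * (s0 + s) ≤ f (M + j * d + k) - f (M + j * d) := by
    intro j
    induction j with
    | zero =>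
      rw [Nat.cast_zero, zero_mul, zero_mul, add_zero]
      haveI := N.fin
      have h2 : (Module.finrank F (N.V M) : ℝ) ≤ Module.finrank F (N.V (M + k)) := by
        exact_mod_cast Submodule.finrank_mono (V_le N M)
      simp only [hf]
      linarith
    | succ j ih =>
      have h2 := hm0 (M + j * d) (by rw [hM]; omega)
      have e : M + (j + 1) * d = M + j * d + d := by ring
      rw [e]
      have h3 : (s0 : ℝ) + s + f (M + j * d + d) + f (M + j * d + k) ≤
          f (M + j * d + d + k) + f (M + j * d) := by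
        simp only [hf]
        exact_mod_cast h2
      push_cast
      linarith
  have hall : ∀ j : ℕ, (j : ℝ) * ((s0 + s) - (k * δ + η) * d) ≤ (k * δ + η) * M := by
    intro j
    have h2 := hd1 (M + j * d) (by rw [hM]; omega)
    have h3 := hgrow j
    push_cast at h2
    nlinarith
  have hpos : 0 < ((s0 : ℝ) + s) - (k * δ + η) * d := by nlinarith
  obtain ⟨j, hj⟩ := exists_nat_gt ((k * δ + η) * M / (((s0 : ℝ) + s) - (k * δ + η) * d))
  rw [div_lt_iff₀ hpos] at hj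
  exact absurd (hall j) (not_le.2 hj)

end Pool.Agent.TH836.NS
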